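import Pool.Agent.Run7.h823.WF.A
import Pool.Agent.Run7.h823.BKB

set_option autoImplicit false
set_option linter.unusedSectionVars false

/-!
Examples of families of vectors of residues modulo primes with small Fourier coefficients: short linear recurrences, the
first powers of fixed integers, families stable under small groups of scalars (`Pool.Agent.Run7.h823.BK`, after Bourgain,
Glibichuk and Konyagin).
-/

namespace Pool.Agent.Run7.h823.WF

open Finset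

/-- linear recurrences -/
theorem flat_rec (k : ℕ) {δ : ℝ} (hδ : 0 < δ) : ∃ β : ℝ, 0 < β ∧ ∃ m₀ : ℕ, ∀ (m : ℕ) [Fact m.Prime], m₀ ≤ m →
    ∀ (r : ℕ) (c : Fin r → Fin k → ZMod m) (g : Fin k → (ZMod m)ˣ) (N : ℕ), LinearIndependent (ZMod m) c →
    (∀ i, (m : ℝ) ^ δ ≤ orderOf (g i)) → (∀ i j, i ≠ j → (m : ℝ) ^ δ ≤ orderOf (g i / g j)) → (m : ℝ) ^ δ ≤ N →
    Flat m ((m : ℝ) ^ (-β)) (range N) (fun n j => ∑ i, c j i * (g i : ZMod m) ^ n) := by
  obtain ⟨ε, hε, P0, h⟩ := Pool.Agent.Run7.h823.BK.recurrences k hδ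
  refine ⟨ε, hε, P0, fun m _ hm r c g N hc hg hgg hN a ha => ?_⟩
  refine (h m hm r c g N hc hg hgg hN a ha).trans (le_of_eq ?_)
  rw [card_range, mul_comm]

/-- the powers of fixed integers modulo almost all primes -/
theorem flat_pow (r : ℕ) {δ : ℝ} (hδ : 0 < δ) : ∃ β : ℝ, 0 < β ∧ ∀ b : Fin r → ℕ, (∀ j, 2 ≤ b j) →
    Function.Injective b → ∃ C : ℝ, ∀ X : ℕ, 1 ≤ X → ∀ Q : Finset ℕ,
    (∀ m ∈ Q, m ≤ X ∧ ∃ _ : Fact m.Prime, ¬ ∀ N : ℕ, (m : ℝ) ^ δ ≤ N → ∀ x : Fin r → ZMod m, (∀ j, x j ≠ 0) →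
      Flat m ((m : ℝ) ^ (-β)) (range N) (fun n j => x j * (b j : ZMod m) ^ n)) →
    (Q.card : ℝ) ≤ C * (X : ℝ) ^ δ := by
  classical
  obtain ⟨β, hβ, P0, h⟩ := flat_rec r (show 0 < δ / 4 by positivity)
  refine ⟨β, hβ, fun b hb hinj => ?_⟩
  obtain ⟨C, hC⟩ := Pool.Agent.Run7.h823.BK.few_primes b hb hinj
  refine ⟨C * 9 + P0 + 1, fun X hX Q hQ => ?_⟩
  have hX1 : (1 : ℝ) ≤ X := by exact_mod_cast hX
  have hX0 : (0 : ℝ) < X := by linarith
  obtain ⟨T, hT⟩ : ∃ T : ℕ, T = ⌈(X : ℝ) ^ (δ / 4)⌉₊ := ⟨_, rfl⟩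
  have hXδ : (1 : ℝ) ≤ (X : ℝ) ^ (δ / 4) := Real.one_le_rpow hX1 (by positivity)
  have hT1 : 1 ≤ T := by
    rw [hT]
    exact Nat.one_le_ceil_iff.2 (by linarith)
  have hTle : (T : ℝ) ≤ 3 * (X : ℝ) ^ (δ / 4) := by
    rw [hT]
    have := Nat.ceil_lt_add_one (show (0 : ℝ) ≤ (X : ℝ) ^ (δ / 4) by positivity)
    linarith
  obtain ⟨E, hE1, hE2⟩ := hC T hT1
  have hsub : Q ⊆ E ∪ range P0 := by
    intro m hm
    rw [mem_union]
    by_contra hcon
    push Not at hcon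
    obtain ⟨h1, h2⟩ := hcon
    rw [mem_range, not_lt] at h2
    obtain ⟨hmX, hf, hbad⟩ := hQ m hm
    apply hbad
    intro N hN x hx
    obtain ⟨g, hg1, hg2, hg3⟩ := hE2 m h1
    have hm1 : (1 : ℝ) ≤ m := by exact_mod_cast hf.out.one_lt.le
    have hmT : (m : ℝ) ^ (δ / 4) ≤ T := by
      rw [hT]
      exact (Real.rpow_le_rpow (by positivity) (by exact_mod_cast hmX) (by positivity)).trans (Nat.le_ceil _)
    have hlin : LinearIndependent (ZMod m) (fun j i : Fin r => if i = j then x j else 0) := by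
      rw [Fintype.linearIndependent_iff]
      intro a ha i
      have h3 := congrFun ha i
      simp only [Finset.sum_apply, Pi.smul_apply, smul_eq_mul, mul_ite, mul_zero, Pi.zero_apply] at h3
      rw [Finset.sum_ite_eq] at h3
      simp only [mem_univ, if_true] at h3
      exact (mul_eq_zero.1 h3).resolve_right (hx i)
    have h4 := h m h2 r (fun j i : Fin r => if i = j then x j else 0) g N hlin
      (fun i => hmT.trans (by exact_mod_cast (hg2 i).le)) (fun i j hij => hmT.trans (by exact_mod_cast (hg3 i j hij).le))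
      ((Real.rpow_le_rpow_of_exponent_le hm1 (by linarith)).trans hN)
    convert h4 using 3 with n j
    simp only [ite_mul, zero_mul, Finset.sum_ite_eq', mem_univ, if_true]
    rw [hg1]
  have hcard : Q.card ≤ C * T ^ 2 + P0 := by
    calc Q.card ≤ (E ∪ range P0).card := card_le_card hsub
      _ ≤ E.card + (range P0).card := card_union_le _ _
      _ ≤ C * T ^ 2 + P0 := by rw [card_range]; omega
  calc (Q.card : ℝ) ≤ C * (T : ℝ) ^ 2 + P0 := by exact_mod_cast hcard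
    _ ≤ C * (3 * (X : ℝ) ^ (δ / 4)) ^ 2 + P0 := by gcongr
    _ = C * 9 * (X : ℝ) ^ (δ / 2) + P0 := by
        rw [mul_pow, ← Real.rpow_natCast ((X : ℝ) ^ (δ / 4)), ← Real.rpow_mul hX0.le]
        norm_num
        ring_nf
    _ ≤ C * 9 * (X : ℝ) ^ δ + (P0 + 1) * (X : ℝ) ^ δ := by
        apply add_le_add
        · apply mul_le_mul_of_nonneg_left _ (by positivity)
          exact Real.rpow_le_rpow_of_exponent_le hX1 (by linarith)
        · have : (1 : ℝ) ≤ (X : ℝ) ^ δ := Real.one_le_rpow hX1 hδ.le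
          have h0 : (0 : ℝ) ≤ P0 := Nat.cast_nonneg _
          nlinarith
    _ = _ := by ring

/-- a change of the index set -/
theorem Flat.reindex {τ ι κ : Type} [Fintype ι] [Fintype κ] {q : ℕ} [NeZero q] {η : ℝ} {s : Finset τ} {y : τ → κ → ZMod q}
    (e : ι ≃ κ) (h : Flat q η s y) : Flat q η s (fun i j => y i (e j)) := by
  intro a ha
  have h1 := h (fun k => a (e.symm k)) (fun h0 => ha (funext fun j => by
    have := congrFun h0 (e j)
    simpa using this))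
  refine le_trans (le_of_eq ?_) h1
  congr 1
  refine sum_congr rfl fun i _ => ?_
  have h2 : ∑ j, a j * y i (e j) = ∑ k, a (e.symm k) * y i k := Fintype.sum_equiv e _ _ (fun j => by simp)
  rw [h2]

/-- linear recurrences, for every finite index set -/
theorem flat_rec' (k : ℕ) {δ : ℝ} (hδ : 0 < δ) : ∃ β : ℝ, 0 < β ∧ ∃ m₀ : ℕ, ∀ (m : ℕ) [Fact m.Prime], m₀ ≤ m →
    ∀ (ι : Type) [Fintype ι] (c : ι → Fin k → ZMod m) (g : Fin k → (ZMod m)ˣ) (N : ℕ), LinearIndependent (ZMod m) c →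
    (∀ i, (m : ℝ) ^ δ ≤ orderOf (g i)) → (∀ i j, i ≠ j → (m : ℝ) ^ δ ≤ orderOf (g i / g j)) → (m : ℝ) ^ δ ≤ N →
    Flat m ((m : ℝ) ^ (-β)) (range N) (fun n j => ∑ i, c j i * (g i : ZMod m) ^ n) := by
  obtain ⟨β, hβ, m₀, h⟩ := flat_rec k hδ
  refine ⟨β, hβ, m₀, fun m _ hm ι _ c g N hc hg hgg hN => ?_⟩
  have h1 := h m hm (Fintype.card ι) (fun j => c ((Fintype.equivFin ι).symm j)) g N
    (hc.comp _ (Fintype.equivFin ι).symm.injective) hg hgg hN
  have h2 := h1.reindex (Fintype.equivFin ι)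
  simp only [Equiv.symm_apply_apply] at h2
  exact h2

/-- the powers of fixed integers modulo almost all primes, for every finite index set -/
theorem flat_pow' (ι : Type) [Fintype ι] {δ : ℝ} (hδ : 0 < δ) : ∃ β : ℝ, 0 < β ∧ ∀ b : ι → ℕ, (∀ j, 2 ≤ b j) →
    Function.Injective b → ∃ C : ℝ, ∀ X : ℕ, 1 ≤ X → ∀ Q : Finset ℕ,
    (∀ m ∈ Q, m ≤ X ∧ ∃ _ : Fact m.Prime, ¬ ∀ N : ℕ, (m : ℝ) ^ δ ≤ N → ∀ x : ι → ZMod m, (∀ j, x j ≠ 0) →
      Flat m ((m : ℝ) ^ (-β)) (range N) (fun n j => x j * (b j : ZMod m) ^ n)) →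
    (Q.card : ℝ) ≤ C * (X : ℝ) ^ δ := by
  obtain ⟨β, hβ, h⟩ := flat_pow (Fintype.card ι) hδ
  refine ⟨β, hβ, fun b hb hinj => ?_⟩
  obtain ⟨C, hC⟩ := h (fun j => b ((Fintype.equivFin ι).symm j)) (fun j => hb _)
    (hinj.comp (Fintype.equivFin ι).symm.injective)
  refine ⟨C, fun X hX Q hQ => hC X hX Q fun m hm => ?_⟩
  obtain ⟨h1, hf, h2⟩ := hQ m hm
  refine ⟨h1, hf, fun h3 => h2 fun N hN x hx => ?_⟩
  have h4 := (h3 N hN (fun j => x ((Fintype.equivFin ι).symm j)) (fun j => hx _)).reindex (Fintype.equivFin ι)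
  simp only [Equiv.symm_apply_apply] at h4
  exact h4

end Pool.Agent.Run7.h823.WF
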