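import Pool.Agent.Run7.h823.WF.A
import Pool.Agent.N24.RW.Clo

/-!
Pronull sets of integral vectors contain few members of families of vectors of residues with small Fourier coefficients.
-/

set_option autoImplicit false

namespace Pool.Agent.Run7.h823.WF.PN

open Finset
open Pool.Agent.Y722.HS (red)
open Pool.Agent.N24.RW (ProNull)

/-- For a pronull set `B` and `ε > 0` there is `δ > 0` such that for all `q ≥ 1 / δ` and all families of vectors of residues
modulo `q` with Fourier coefficients at most `δ (log q) ^ (-r)` at the nonzero frequencies at most a proportion `ε` of the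
vectors `c₀ + y i` is in `B`, for every `c₀`. -/
theorem rare {ι : Type} [Fintype ι] (B : Set (ι → ℤ)) (hB : ProNull B) {ε : ℝ} (hε : 0 < ε) : ∃ δ : ℝ, 0 < δ ∧
    ∀ (τ : Type) (q : ℕ) [NeZero q], 1 / δ ≤ q → ∀ (s : Finset τ) (y : τ → ι → ZMod q),
      Flat q (δ / Real.log q ^ Fintype.card ι) s y → ∀ c₀ : ι → ℤ,
        (({i : τ | i ∈ s ∧ (fun j => c₀ j + (((y i j).val : ℕ) : ℤ)) ∈ B}.ncard : ℕ) : ℝ) ≤ ε * s.card := by
  classical
  obtain ⟨m, hm, -, hb⟩ := hB 1 one_pos (ε / 2) (by linarith)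
  have : NeZero m := ⟨hm.ne'⟩
  have hm0 : (0 : ℝ) < m := by exact_mod_cast hm
  obtain ⟨r, hr⟩ : ∃ r : ℕ, r = Fintype.card ι := ⟨_, rfl⟩
  rw [← hr] at hb
  have hD : (0 : ℝ) < 4 * (m : ℝ) ^ (r + 1) * 45 ^ r := by positivity
  refine ⟨min (1 / 3) (ε / (4 * (m : ℝ) ^ (r + 1) * 45 ^ r)), by positivity, fun τ q _ hq s y hf c₀ => ?_⟩
  obtain ⟨δ, hδ⟩ : ∃ δ : ℝ, δ = min (1 / 3) (ε / (4 * (m : ℝ) ^ (r + 1) * 45 ^ r)) := ⟨_, rfl⟩
  rw [← hδ, ← hr] at hf
  rw [← hδ] at hq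
  have hδ0 : 0 < δ := by rw [hδ]; positivity
  have hδ3 : δ ≤ 1 / 3 := by rw [hδ]; exact min_le_left _ _
  have hδe : δ ≤ ε / (4 * (m : ℝ) ^ (r + 1) * 45 ^ r) := by rw [hδ]; exact min_le_right _ _
  rw [le_div_iff₀ hD] at hδe
  have hq0 : (0 : ℝ) < q := lt_of_lt_of_le (by positivity) hq
  have hq3 : (3 : ℝ) ≤ q := by
    refine le_trans ?_ hq
    rw [le_div_iff₀ hδ0]
    linarith
  have hl : 1 ≤ Real.log q := by
    rw [Real.le_log_iff_exp_le hq0]
    exact (Real.exp_one_lt_d9.le.trans (by norm_num)).trans hq3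
  rcases s.eq_empty_or_nonempty with hs | hs
  · rw [hs]
    simp
  have hs0 : (0 : ℝ) < s.card := by exact_mod_cast hs.card_pos
  obtain ⟨η, hη⟩ : ∃ η : ℝ, η = δ / Real.log q ^ r := ⟨_, rfl⟩
  rw [← hη] at hf
  have hη0 : 0 ≤ η := by rw [hη]; positivity
  obtain ⟨v, hv⟩ : ∃ v : τ → ι → ℤ, v = fun i j => c₀ j + (((y i j).val : ℕ) : ℤ) := ⟨_, rfl⟩
  obtain ⟨I, hI⟩ : ∃ I : Finset (ι → ZMod m), I = univ.filter (fun ρ => ρ ∈ (fun (c : ι → ℤ) (i : ι) => (c i : ZMod m)) '' B) := ⟨_, rfl⟩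
  have hIc : (I.card : ℝ) ≤ ε / 2 * (m : ℝ) ^ r := by
    refine le_trans (le_of_eq ?_) hb
    rw [hI, Set.ncard_eq_toFinset_card']
    congr 2
    ext ρ
    simp
  have h1 : {i : τ | i ∈ s ∧ (fun j => c₀ j + (((y i j).val : ℕ) : ℤ)) ∈ B} ⊆
      ((I.biUnion fun ρ => s.filter (fun i => red m (v i) = ρ) : Finset τ) : Set τ) := by
    rintro i ⟨hi, hiB⟩
    rw [mem_coe, mem_biUnion]
    refine ⟨red m (v i), ?_, mem_filter.2 ⟨hi, rfl⟩⟩
    rw [hI, mem_filter]
    refine ⟨mem_univ _, _, hiB, ?_⟩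
    rw [hv]
    rfl
  have h2 := Set.ncard_le_ncard h1 (Finset.finite_toSet _)
  rw [Set.ncard_coe_finset] at h2
  have h3 : (((I.biUnion fun ρ => s.filter (fun i => red m (v i) = ρ)).card : ℕ) : ℝ) ≤
      ∑ ρ ∈ I, ((s.filter (fun i => red m (v i) = ρ)).card : ℝ) := by
    exact_mod_cast card_biUnion_le
  have h4 : ∀ ρ ∈ I, ((s.filter (fun i => red m (v i) = ρ)).card : ℝ) ≤
      s.card * (1 / (m : ℝ) ^ r + (m / q + η * (42 + 3 * Real.log q) ^ r)) := by
    intro ρ _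
    have h5 := count_le q η hη0 s hs y hf c₀ m hm ρ
    rw [← hr] at h5
    have h6 := (abs_le.1 h5).2
    have h7 : ((s.filter (fun i => red m (v i) = ρ)).card : ℝ) / s.card ≤
        1 / (m : ℝ) ^ r + (m / q + η * (42 + 3 * Real.log q) ^ r) := by
      rw [hv]
      linarith
    rw [div_le_iff₀ hs0] at h7
    linarith
  have h8 : (m : ℝ) ^ r * (m / q) ≤ ε / 4 := by
    have e1 : (m : ℝ) ^ r * (m / q) = (m : ℝ) ^ (r + 1) / q := by rw [pow_succ]; ring
    rw [e1]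
    have e2 : 1 / (q : ℝ) ≤ δ := by
      rw [div_le_iff₀ hδ0] at hq
      rw [div_le_iff₀ hq0]
      linarith
    have e3 : (1 : ℝ) ≤ 45 ^ r := one_le_pow₀ (by norm_num)
    have e4 : (m : ℝ) ^ (r + 1) * δ ≤ (m : ℝ) ^ (r + 1) * δ * 45 ^ r := le_mul_of_one_le_right (by positivity) e3
    calc (m : ℝ) ^ (r + 1) / q = (m : ℝ) ^ (r + 1) * (1 / q) := by ring
      _ ≤ (m : ℝ) ^ (r + 1) * δ := mul_le_mul_of_nonneg_left e2 (by positivity)
      _ ≤ ε / 4 := by linarith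
  have h9 : (m : ℝ) ^ r * (η * (42 + 3 * Real.log q) ^ r) ≤ ε / 4 := by
    have e1 : η * (42 + 3 * Real.log q) ^ r ≤ δ * 45 ^ r := by
      have e2 : (42 + 3 * Real.log q) ^ r ≤ (45 * Real.log q) ^ r :=
        pow_le_pow_left₀ (by positivity) (by linarith) r
      calc η * (42 + 3 * Real.log q) ^ r ≤ η * (45 * Real.log q) ^ r := mul_le_mul_of_nonneg_left e2 hη0
        _ = δ * 45 ^ r := by
            rw [hη, mul_pow]
            have : Real.log q ^ r ≠ 0 := by positivity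
            field_simp
    have e3 : (m : ℝ) ^ r ≤ (m : ℝ) ^ (r + 1) := pow_le_pow_right₀ (by exact_mod_cast hm) (Nat.le_succ r)
    calc (m : ℝ) ^ r * (η * (42 + 3 * Real.log q) ^ r) ≤ (m : ℝ) ^ (r + 1) * (δ * 45 ^ r) :=
          mul_le_mul e3 e1 (by positivity) (by positivity)
      _ ≤ ε / 4 := by linarith
  have h10 : (I.card : ℝ) * (1 / (m : ℝ) ^ r) ≤ ε / 2 := by
    rw [mul_one_div, div_le_iff₀ (by positivity)]
    exact hIc
  have h11 : (I.card : ℝ) ≤ (m : ℝ) ^ r := by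
    have e1 : I.card ≤ Fintype.card (ι → ZMod m) := card_le_univ I
    rw [Fintype.card_fun, ZMod.card, ← hr] at e1
    exact_mod_cast e1
  have h12 : 0 ≤ m / q + η * (42 + 3 * Real.log q) ^ r := by positivity
  calc (({i : τ | i ∈ s ∧ (fun j => c₀ j + (((y i j).val : ℕ) : ℤ)) ∈ B}.ncard : ℕ) : ℝ)
      ≤ (((I.biUnion fun ρ => s.filter (fun i => red m (v i) = ρ)).card : ℕ) : ℝ) := by exact_mod_cast h2
    _ ≤ ∑ ρ ∈ I, ((s.filter (fun i => red m (v i) = ρ)).card : ℝ) := h3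
    _ ≤ ∑ _ρ ∈ I, s.card * (1 / (m : ℝ) ^ r + (m / q + η * (42 + 3 * Real.log q) ^ r)) := sum_le_sum h4
    _ = s.card * (I.card * (1 / (m : ℝ) ^ r) + I.card * (m / q + η * (42 + 3 * Real.log q) ^ r)) := by
        rw [sum_const, nsmul_eq_mul]; ring
    _ ≤ s.card * (ε / 2 + (m : ℝ) ^ r * (m / q + η * (42 + 3 * Real.log q) ^ r)) := by
        apply mul_le_mul_of_nonneg_left _ hs0.le
        exact add_le_add h10 (mul_le_mul_of_nonneg_right h11 h12)
    _ ≤ ε * s.card := by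
        rw [mul_add ((m : ℝ) ^ r)]
        nlinarith

/-- finite unions of pronull sets -/
theorem proNull_union {ι A : Type} [Fintype ι] {F : Set A} (hF : F.Finite) (B : A → Set (ι → ℤ)) (hB : ∀ a ∈ F, ProNull (B a)) :
    ProNull {c : ι → ℤ | ∃ a ∈ F, c ∈ B a} := by
  classical
  induction F, hF using Set.Finite.induction_on with
  | empty =>
    intro M _ ε _
    refine ⟨1, one_pos, Nat.coprime_one_left M, ?_⟩
    have : {c : ι → ℤ | ∃ a ∈ (∅ : Set A), c ∈ B a} = ∅ := by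
      ext c
      simp
    rw [this, Set.image_empty, Set.ncard_empty]
    simp only [Nat.cast_zero, Nat.cast_one, one_pow, mul_one]
    linarith
  | @insert a F _ _ ih =>
    refine Pool.Agent.N24.RW.Clo.mono (B := B a ∪ {c : ι → ℤ | ∃ a ∈ F, c ∈ B a}) ?_
      (Pool.Agent.N24.RW.Clo.union (hB a (Set.mem_insert a F)) (ih fun b hb => hB b (Set.mem_insert_of_mem a hb)))
    rintro c ⟨b, hb, hc⟩
    rcases Set.mem_insert_iff.1 hb with rfl | hb
    · exact Or.inl hc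
    · exact Or.inr ⟨b, hb, hc⟩

/-- Polynomials of bounded degree and with bounded coefficients. -/
theorem finite_poly (B : ℕ) : {P : Polynomial ℤ | P.natDegree ≤ B ∧ ∀ j, |P.coeff j| ≤ B}.Finite := by
  refine Set.Finite.of_injOn (f := fun P (j : Fin (B + 1)) => P.coeff j)
    (t := {a : Fin (B + 1) → ℤ | ∀ j, a j ∈ Set.Icc (-(B : ℤ)) B}) ?_ ?_ ?_
  · intro P hP j
    exact abs_le.1 (hP.2 j)
  · intro P hP P' hP' h
    ext j
    by_cases hj : j ≤ B
    · exact congrFun h ⟨j, by omega⟩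
    · rw [Polynomial.coeff_eq_zero_of_natDegree_lt (by have := hP.1; omega),
        Polynomial.coeff_eq_zero_of_natDegree_lt (by have := hP'.1; omega)]
  · exact Set.Finite.pi' fun _ => Set.finite_Icc _ _

/-- Integral vectors with bounded coordinates. -/
theorem finite_vec (ι : Type) [Fintype ι] (B : ℕ) : {a : ι → ℤ | ∀ j, |a j| ≤ B}.Finite := by
  refine Set.Finite.subset (Set.Finite.pi' fun _ : ι => Set.finite_Icc (-(B : ℤ)) B) ?_
  intro a ha j
  exact abs_le.1 (ha j)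

end Pool.Agent.Run7.h823.WF.PN
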