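import Pool.Agent.Run7.h823.WF.B

set_option autoImplicit false
set_option linter.unusedSectionVars false
set_option linter.unusedVariables false

/-!
Families of vectors of residues with small Fourier coefficients (a power saving), indexed by the modulus; the transfer of
assertions on well distributed sequences with explicit bounds for the exceptional sets, and new examples of families:
short linear recurrences, and families stable under small groups of scalars.
-/

namespace Pool.Agent.Run7.h823.WF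

open Finset Filter
open Pool.Agent.Y722.HS (red)
open Pool.Agent.N666.TM (Well)

section
variable {ι : Type} [Fintype ι] [DecidableEq ι]

/-- the exponent of distribution -/
noncomputable def ex (ι : Type) [Fintype ι] (β : ℝ) : ℝ := min β 1 / (4 * ((Fintype.card ι : ℝ) + 2))

lemma ex_pos (ι : Type) [Fintype ι] {β : ℝ} (hβ : 0 < β) : 0 < ex ι β := by
  unfold ex
  have : 0 < min β 1 := lt_min hβ one_pos
  positivity

/-- families with a power saving are well distributed -/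
theorem vfam_ev (ι : Type) [Fintype ι] {β : ℝ} (hβ : 0 < β) : ∃ q₀ : ℕ, ∀ (τ : Type) (q : ℕ) [NeZero q], q₀ ≤ q →
    ∀ (s : Finset τ) (y : τ → ι → ZMod q), Flat q ((q : ℝ) ^ (-β)) s y → VFam q s y ((q : ℝ) ^ (min β 1 / 2)) := by
  have hm : 0 < min β 1 := lt_min hβ one_pos
  have h1 : Tendsto (fun q : ℕ => (42 + 3 * Real.log q) ^ Fintype.card ι / (q : ℝ) ^ (min β 1 / 2)) atTop (nhds 0) := by
    have h2 : Tendsto (fun q : ℝ => (42 + 3 * Real.log q) ^ Fintype.card ι / q ^ (min β 1 / 2)) atTop (nhds 0) := by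
      have h3 : (fun x : ℝ => (42 + 3 * Real.log x) ^ Fintype.card ι) =o[atTop] (fun x => x ^ (min β 1 / 2)) := by
        have h4 : (fun x : ℝ => 42 + 3 * Real.log x) =O[atTop] Real.log := by
          rw [Asymptotics.isBigO_iff]
          refine ⟨45, ?_⟩
          filter_upwards [Real.tendsto_log_atTop.eventually_ge_atTop 1] with x hx
          rw [Real.norm_eq_abs, Real.norm_eq_abs, abs_of_nonneg (by linarith), abs_of_nonneg (by linarith)]
          linarith
        have h5 := isLittleO_log_rpow_rpow_atTop (Fintype.card ι : ℝ) (show 0 < min β 1 / 2 by positivity)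
        simp only [Real.rpow_natCast] at h5
        exact (h4.pow (Fintype.card ι)).trans_isLittleO h5
      exact h3.tendsto_div_nhds_zero
    exact h2.comp tendsto_natCast_atTop_atTop
  obtain ⟨q₀, hq₀⟩ := eventually_atTop.1 (h1.eventually_lt_const (zero_lt_one))
  refine ⟨q₀ + 1, fun τ q _ hq s y hf => ?_⟩
  have hq1 : (1 : ℝ) ≤ q := by exact_mod_cast (by omega : 1 ≤ q)
  have hq0 : (0 : ℝ) < q := by linarith
  have hlog : 0 ≤ Real.log q := Real.log_nonneg hq1
  refine ⟨?_, fun h hh => (hf h hh).trans ?_⟩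
  · calc (q : ℝ) ^ (min β 1 / 2) ≤ (q : ℝ) ^ (1 : ℝ) := Real.rpow_le_rpow_of_exponent_le hq1 (by
          have := min_le_right β 1
          linarith)
      _ = q := Real.rpow_one _
  · refine mul_le_mul_of_nonneg_right ?_ (Nat.cast_nonneg _)
    have h5 := hq₀ q (by omega)
    have hL : 0 < (42 + 3 * Real.log q) ^ Fintype.card ι := by positivity
    rw [div_lt_one (by positivity)] at h5
    rw [Real.rpow_neg hq0.le, inv_eq_one_div]
    apply one_div_le_one_div_of_le (by positivity)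
    calc (q : ℝ) ^ (min β 1 / 2) * (42 + 3 * Real.log q) ^ Fintype.card ι ≤
          (q : ℝ) ^ (min β 1 / 2) * (q : ℝ) ^ (min β 1 / 2) := by gcongr
      _ = (q : ℝ) ^ (min β 1) := by rw [← Real.rpow_add hq0]; congr 1; ring
      _ ≤ (q : ℝ) ^ β := Real.rpow_le_rpow_of_exponent_le hq1 (min_le_left _ _)

lemma ex_ev (ι : Type) [Fintype ι] {β : ℝ} (hβ : 0 < β) : ∃ N₀ : ℕ, ∀ N : ℕ, N₀ ≤ N → ∀ H : ℕ, (H : ℝ) ≤ (N : ℝ) ^ ex ι β →
    2 * (2 * (H : ℝ) + 1) ^ (Fintype.card ι + 2) ≤ (N : ℝ) ^ (min β 1 / 2) := by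
  have hm : 0 < min β 1 := lt_min hβ one_pos
  have h1 : Tendsto (fun N : ℕ => (N : ℝ) ^ (min β 1 / 4)) atTop atTop :=
    (tendsto_rpow_atTop (by positivity)).comp tendsto_natCast_atTop_atTop
  obtain ⟨N₀, hN₀⟩ := eventually_atTop.1 (h1.eventually_ge_atTop (2 * 3 ^ (Fintype.card ι + 2)))
  refine ⟨N₀ + 1, fun N hN H hH => ?_⟩
  have h2 := hN₀ N (by omega)
  have hN1 : (1 : ℝ) ≤ N := by exact_mod_cast (by omega : 1 ≤ N)
  have hN0 : (0 : ℝ) < N := by linarith
  have hk1 : (1 : ℝ) ≤ (N : ℝ) ^ ex ι β := Real.one_le_rpow hN1 (ex_pos ι hβ).le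
  calc 2 * (2 * (H : ℝ) + 1) ^ (Fintype.card ι + 2) ≤ 2 * (3 * (N : ℝ) ^ ex ι β) ^ (Fintype.card ι + 2) := by
        gcongr
        linarith
    _ = 2 * 3 ^ (Fintype.card ι + 2) * (N : ℝ) ^ (min β 1 / 4) := by
        rw [mul_pow, ← Real.rpow_natCast ((N : ℝ) ^ ex ι β), ← Real.rpow_mul hN0.le, mul_assoc]
        congr 3
        unfold ex
        push_cast
        field_simp
    _ ≤ (N : ℝ) ^ (min β 1 / 4) * (N : ℝ) ^ (min β 1 / 4) := mul_le_mul_of_nonneg_right h2 (by positivity)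
    _ = (N : ℝ) ^ (min β 1 / 2) := by
        rw [← Real.rpow_add hN0]
        congr 1
        ring

/-- families with a power saving are well distributed -/
theorem wellF_ev (ι : Type) [Fintype ι] [DecidableEq ι] {β : ℝ} (hβ : 0 < β) : ∃ q₀ : ℕ, ∀ (τ : Type) (q : ℕ) [NeZero q],
    q₀ ≤ q → ∀ (s : Finset τ) (y : τ → ι → ZMod q), s.Nonempty → Flat q ((q : ℝ) ^ (-β)) s y → ∀ c₀ : ι → ℤ, ∀ H : ℕ,
    (H : ℝ) ≤ (q : ℝ) ^ ex ι β → WellF s (fun i j => c₀ j + ((y i j).val : ℕ)) H := by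
  obtain ⟨q₁, h1⟩ := vfam_ev ι hβ
  obtain ⟨q₂, h2⟩ := ex_ev ι hβ
  refine ⟨q₁ + q₂, fun τ q _ hq s y hs hf c₀ H hH => ?_⟩
  exact wellF_of (h1 τ q (by omega) s y hf) hs c₀ H (h2 q (by omega) H hH)

lemma ex_le {β : ℝ} (hβ : 0 < β) : ex ι β ≤ ex ι 1 := by
  unfold ex
  rw [min_self]
  apply div_le_div_of_nonneg_right (min_le_right _ _) (by positivity)

/-- **Transfer.** What holds for almost all the members of all well distributed sequences of vectors holds for almost all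
members of families of vectors of residues with small Fourier coefficients, uniformly. The property and the bound for the
exceptional set can depend on a further parameter `k`, in which they are monotone; the vectors can be assumed to have a
property `Sz` of all the vectors of least residues, for instance a bound for their size. -/
theorem transferG {β : ℝ} (hβ : 0 < β) (P : ℕ → ℕ → (ι → ℤ) → Prop) (hmono : ∀ k k' N v, k ≤ k' → P k N v → P k' N v)
    (φ : ℕ → ℕ → ℝ) (hφ0 : ∀ k N, 0 ≤ φ k N) (hφ : ∀ k k' N, k ≤ k' → φ k N ≤ φ k' N) (Sz : ℕ → (ι → ℤ) → Prop)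
    (hSz : ∀ (q : ℕ) (v : ι → ℤ), (∀ j, 0 ≤ v j ∧ v j < q) → Sz q v)
    (h : ∀ (S : ℕ → Finset ℕ) (x : ℕ → ι → ℤ) (κ : ℝ), 0 < κ →
      (∃ N₀ : ℕ, ∀ N : ℕ, N₀ ≤ N → ∀ H : ℕ, (H : ℝ) ≤ (N : ℝ) ^ κ → Well (S N) x H) →
      (∀ N, ∀ n ∈ S N, Sz N (x n)) →
      ∃ k N₀ : ℕ, ∀ N : ℕ, N₀ ≤ N → ({n : ℕ | n ∈ S N ∧ ¬ P k N (x n)}.ncard : ℝ) ≤ φ k N * (S N).card) :
    ∃ k q₀ : ℕ, ∀ (τ : Type) (q : ℕ) [NeZero q], q₀ ≤ q → ∀ (s : Finset τ) (y : τ → ι → ZMod q) (c₀ : ι → ℤ),
      Flat q ((q : ℝ) ^ (-β)) s y → (∀ i ∈ s, Sz q (fun j => c₀ j + ((y i j).val : ℕ))) →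
      ({i : τ | i ∈ s ∧ ¬ P k q (fun j => c₀ j + ((y i j).val : ℕ))}.ncard : ℝ) ≤ φ k q * s.card := by
  classical
  by_contra hcon
  push Not at hcon
  have hfil : ∀ {τ : Type} (s : Finset τ) (Q : τ → Prop), {i : τ | i ∈ s ∧ Q i}.ncard = (s.filter Q).card := by
    intro τ s Q
    rw [← Set.ncard_coe_finset]
    congr 1
    ext i
    simp
  simp only [hfil] at hcon h
  obtain ⟨q₁, hq₁⟩ := wellF_ev ι hβ
  obtain ⟨q₂, hq₂⟩ := wellF_ev ι one_pos
  -- a family for every modulus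
  have hch : ∀ N : ℕ, ∃ (τ : Type) (s : Finset τ) (c : τ → ι → ℤ),
      (q₁ + q₂ + 1 ≤ N → ∀ H : ℕ, (H : ℝ) ≤ (N : ℝ) ^ ex ι β → WellF s c H) ∧ (∀ i ∈ s, Sz N (c i)) ∧
      ∀ k : ℕ, k ≤ N → ((∃ (τ : Type) (_ : NeZero N) (s : Finset τ) (y : τ → ι → ZMod N) (c₀ : ι → ℤ),
        Flat N ((N : ℝ) ^ (-β)) s y ∧ (∀ i ∈ s, Sz N (fun j => c₀ j + ((y i j).val : ℕ))) ∧
        φ k N * s.card < ((s.filter fun i => ¬ P k N (fun j => c₀ j + ((y i j).val : ℕ))).card : ℝ)) →
        φ k N * s.card < ((s.filter fun i => ¬ P k N (c i)).card : ℝ)) := by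
    intro N
    obtain ⟨B, hB⟩ : ∃ B : ℕ → Prop, B = fun k => ∃ (τ : Type) (_ : NeZero N) (s : Finset τ) (y : τ → ι → ZMod N)
        (c₀ : ι → ℤ), Flat N ((N : ℝ) ^ (-β)) s y ∧ (∀ i ∈ s, Sz N (fun j => c₀ j + ((y i j).val : ℕ))) ∧
        φ k N * s.card < ((s.filter fun i => ¬ P k N (fun j => c₀ j + ((y i j).val : ℕ))).card : ℝ) := ⟨_, rfl⟩
    by_cases hb : ∃ k, k ≤ N ∧ B k
    · obtain ⟨k₁, hk₁, hmax⟩ := exists_max_image ((range (N + 1)).filter B) id (by
        obtain ⟨k, hk, hBk⟩ := hb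
        exact ⟨k, mem_filter.2 ⟨mem_range.2 (by omega), hBk⟩⟩)
      rw [mem_filter] at hk₁
      have hBk := hk₁.2
      rw [hB] at hBk
      obtain ⟨τ, _, s, y, c₀, h2, h3, h4⟩ := hBk
      refine ⟨τ, s, fun i j => c₀ j + ((y i j).val : ℕ), fun hN H hH => ?_, h3, fun k hkN hbk => ?_⟩
      · have hs : s.Nonempty := by
          rw [nonempty_iff_ne_empty]
          rintro rfl
          simp at h4
        exact hq₁ τ N (by omega) s y hs h2 c₀ H hH
      · have hkk : k ≤ k₁ := hmax k (mem_filter.2 ⟨mem_range.2 (by omega), by rw [hB]; exact hbk⟩)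
        refine lt_of_le_of_lt (mul_le_mul_of_nonneg_right (hφ k k₁ N hkk) (Nat.cast_nonneg _)) (lt_of_lt_of_le h4
          (Nat.cast_le.2 (card_le_card ?_)))
        intro i hi
        rw [mem_filter] at hi ⊢
        exact ⟨hi.1, fun h5 => hi.2 (hmono k k₁ N _ hkk h5)⟩
    · rcases Nat.eq_zero_or_pos N with h0 | h0
      · refine ⟨Unit, ∅, fun _ _ => 0, fun hN => by omega, fun i hi => absurd hi (notMem_empty _), fun k hk hb' => ?_⟩
        exact absurd ⟨k, hk, by rw [hB]; exact hb'⟩ hb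
      · have : NeZero N := ⟨by omega⟩
        refine ⟨ι → ZMod N, univ, fun i j => (((i j).val : ℕ) : ℤ), fun hN H hH => ?_, fun i _ => ?_, fun k hk hb' => ?_⟩
        · have h1 : Flat N ((N : ℝ) ^ (-(1 : ℝ))) (univ : Finset (ι → ZMod N)) (fun i => i) := by
            intro a ha
            refine ((vfam_univ (ι := ι) N).flat a ha).trans (mul_le_mul_of_nonneg_right ?_ (Nat.cast_nonneg _))
            have hN0 : (0 : ℝ) < N := by exact_mod_cast h0
            rw [Real.rpow_neg hN0.le, Real.rpow_one, inv_eq_one_div]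
            apply one_div_le_one_div_of_le hN0
            have h5 : (1 : ℝ) ≤ (42 + 3 * Real.log N) ^ Fintype.card ι := one_le_pow₀ (by
              have := Real.log_natCast_nonneg N
              linarith)
            nlinarith
          have hN1 : (1 : ℝ) ≤ N := by exact_mod_cast h0
          have h6 := hq₂ (ι → ZMod N) N (by omega) univ (fun i => i) univ_nonempty h1 (fun _ => 0) H
            (hH.trans (Real.rpow_le_rpow_of_exponent_le hN1 (ex_le hβ)))
          simp only [zero_add] at h6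
          exact h6
        · refine hSz N _ fun j => ⟨by positivity, ?_⟩
          have := ZMod.val_lt (i j)
          show (((i j).val : ℕ) : ℤ) < N
          omega
        · exact absurd ⟨k, hk, by rw [hB]; exact hb'⟩ hb
  choose τ s c hw hsz hbad using hch
  obtain ⟨k, N₂, hN₂⟩ := h (blk fun N => ⟨τ N, s N⟩) (seq (fun N => ⟨τ N, s N⟩) c) (ex ι β) (ex_pos ι hβ)
    ⟨q₁ + q₂ + 1, fun N hN H hH => well_blk _ _ N H (hw N hN H hH)⟩ (fun N n hn => by
      unfold blk at hn
      rw [mem_image] at hn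
      obtain ⟨m, hm, rfl⟩ := hn
      rw [mem_range] at hm
      rw [seq_pair (fun N => (⟨τ N, s N⟩ : Σ τ : Type, Finset τ)) c N m hm]
      exact hsz N _ (Subtype.prop _))
  obtain ⟨τ', q, _, hq, s₁, y, c₀, hv, hz, hlt⟩ := hcon k (N₂ + k)
  have h1 := hbad q k (by omega) ⟨τ', inferInstance, s₁, y, c₀, hv, hz, lt_of_lt_of_eq hlt (by congr!)⟩
  have h2 := hN₂ q (by omega)
  rw [card_blk] at h2
  have h3 := card_blk_filter (fun N => ⟨τ N, s N⟩) c q (fun v => ¬ P k q v)
  have h4 : (((s q).filter (fun i => ¬ P k q (c q i))).card : ℝ) ≤ φ k q * (s q).card := by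
    refine le_trans (le_of_eq ?_) h2
    congr 1
    convert h3.symm
  exact absurd h4 (not_le.2 (lt_of_lt_of_eq h1 (by congr!)))

end

end Pool.Agent.Run7.h823.WF
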