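import Pool.Agent.Run7.h823.WF.C

set_option autoImplicit false
set_option linter.unusedSectionVars false

/-!
Two special cases of the transfer: exceptional sets with a power saving, and of density zero.
-/

namespace Pool.Agent.Run7.h823.WF

open Finset Filter
open Pool.Agent.N666.TM (Well)

section
variable {ι : Type} [Fintype ι] [DecidableEq ι]

/-- exceptional sets with a power saving -/
theorem transferP {β : ℝ} (hβ : 0 < β) (P : ℝ → ℕ → (ι → ℤ) → Prop)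
    (hmono : ∀ η η' N v, η ≤ η' → 1 ≤ N → P η' N v → P η N v)
    (Sz : ℕ → (ι → ℤ) → Prop) (hSz : ∀ (q : ℕ) (v : ι → ℤ), (∀ j, 0 ≤ v j ∧ v j < q) → Sz q v)
    (h : ∀ (S : ℕ → Finset ℕ) (x : ℕ → ι → ℤ) (κ : ℝ), 0 < κ →
      (∃ N₀ : ℕ, ∀ N : ℕ, N₀ ≤ N → ∀ H : ℕ, (H : ℝ) ≤ (N : ℝ) ^ κ → Well (S N) x H) →
      (∀ N, ∀ n ∈ S N, Sz N (x n)) →
      ∃ η : ℝ, 0 < η ∧ ∃ N₀ : ℕ, ∀ N : ℕ, N₀ ≤ N →
        ({n : ℕ | n ∈ S N ∧ ¬ P η N (x n)}.ncard : ℝ) ≤ (N : ℝ) ^ (-η) * (S N).card) :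
    ∃ η : ℝ, 0 < η ∧ ∃ q₀ : ℕ, ∀ (τ : Type) (q : ℕ) [NeZero q], q₀ ≤ q → ∀ (s : Finset τ) (y : τ → ι → ZMod q)
      (c₀ : ι → ℤ), Flat q ((q : ℝ) ^ (-β)) s y → (∀ i ∈ s, Sz q (fun j => c₀ j + ((y i j).val : ℕ))) →
      ({i : τ | i ∈ s ∧ ¬ P η q (fun j => c₀ j + ((y i j).val : ℕ))}.ncard : ℝ) ≤ (q : ℝ) ^ (-η) * s.card := by
  classical
  have hle : ∀ k k' : ℕ, k ≤ k' → 1 / ((k' : ℝ) + 1) ≤ 1 / ((k : ℝ) + 1) := fun k k' hk => by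
    apply one_div_le_one_div_of_le (by positivity)
    have : (k : ℝ) ≤ k' := by exact_mod_cast hk
    linarith
  obtain ⟨k, q₀, h⟩ := transferG (ι := ι) hβ
    (fun k N v => 1 ≤ N → P (1 / ((k : ℝ) + 1)) N v) (fun k k' N v hk hg hN =>
      hmono _ _ _ _ (hle k k' hk) hN (hg hN))
    (fun k N => (N : ℝ) ^ (-(1 / ((k : ℝ) + 1)))) (fun k N => by positivity) (fun k k' N hk => by
      rcases Nat.eq_zero_or_pos N with h0 | h0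
      · rw [h0, Nat.cast_zero, Real.zero_rpow (by
          have : (0 : ℝ) < 1 / ((k : ℝ) + 1) := by positivity
          linarith), Real.zero_rpow (by
          have : (0 : ℝ) < 1 / ((k' : ℝ) + 1) := by positivity
          linarith)]
      · apply Real.rpow_le_rpow_of_exponent_le (by exact_mod_cast h0)
        exact neg_le_neg (hle k k' hk))
    Sz hSz (fun S x κ hκ hw hs => by
      obtain ⟨η, hη, N₀, h1⟩ := h S x κ hκ hw hs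
      obtain ⟨k, hk⟩ := exists_nat_one_div_lt hη
      refine ⟨k, N₀ + 1, fun N hN => ?_⟩
      have hN1 : (1 : ℝ) ≤ N := by exact_mod_cast (by omega : 1 ≤ N)
      have e1 : ({n : ℕ | n ∈ S N ∧ ¬ (1 ≤ N → P (1 / ((k : ℝ) + 1)) N (x n))}.ncard : ℝ) ≤
          ({n : ℕ | n ∈ S N ∧ ¬ P η N (x n)}.ncard : ℝ) := by
        apply ncard_mono
        intro n _ hn hP
        exact hn fun _ => hmono _ _ _ _ hk.le (by omega) hP
      refine e1.trans ((h1 N (by omega)).trans ?_)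
      apply mul_le_mul_of_nonneg_right _ (Nat.cast_nonneg _)
      exact Real.rpow_le_rpow_of_exponent_le hN1 (by linarith))
  refine ⟨1 / ((k : ℝ) + 1), by positivity, q₀, fun τ q _ hq s y c₀ hf hs => ?_⟩
  refine le_trans (ncard_mono ?_) (h τ q hq s y c₀ hf hs)
  intro i _ hn hP
  exact hn (hP (Nat.one_le_iff_ne_zero.2 (NeZero.ne q)))

/-- exceptional sets of density zero -/
theorem transferD {β : ℝ} (hβ : 0 < β) (P : ℕ → (ι → ℤ) → Prop)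
    (Sz : ℕ → (ι → ℤ) → Prop) (hSz : ∀ (q : ℕ) (v : ι → ℤ), (∀ j, 0 ≤ v j ∧ v j < q) → Sz q v)
    (h : ∀ (S : ℕ → Finset ℕ) (x : ℕ → ι → ℤ) (κ : ℝ), 0 < κ →
      (∃ N₀ : ℕ, ∀ N : ℕ, N₀ ≤ N → ∀ H : ℕ, (H : ℝ) ≤ (N : ℝ) ^ κ → Well (S N) x H) →
      (∀ N, ∀ n ∈ S N, Sz N (x n)) → ∀ ε : ℝ, 0 < ε →
      ∃ N₀ : ℕ, ∀ N : ℕ, N₀ ≤ N →
        ({n : ℕ | n ∈ S N ∧ ¬ P N (x n)}.ncard : ℝ) ≤ ε * (S N).card) (ε : ℝ) (hε : 0 < ε) :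
    ∃ q₀ : ℕ, ∀ (τ : Type) (q : ℕ) [NeZero q], q₀ ≤ q → ∀ (s : Finset τ) (y : τ → ι → ZMod q)
      (c₀ : ι → ℤ), Flat q ((q : ℝ) ^ (-β)) s y → (∀ i ∈ s, Sz q (fun j => c₀ j + ((y i j).val : ℕ))) →
      ({i : τ | i ∈ s ∧ ¬ P q (fun j => c₀ j + ((y i j).val : ℕ))}.ncard : ℝ) ≤ ε * s.card := by
  obtain ⟨_, q₀, h⟩ := transferG (ι := ι) hβ (fun _ N v => P N v) (fun _ _ _ _ _ hP => hP) (fun _ _ => ε)
    (fun _ _ => hε.le) (fun _ _ _ _ => le_rfl) Sz hSz (fun S x κ hκ hw hs => by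
      obtain ⟨N₀, h1⟩ := h S x κ hκ hw hs ε hε
      exact ⟨0, N₀, h1⟩)
  exact ⟨q₀, h⟩

end

end Pool.Agent.Run7.h823.WF
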