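import Pool.Agent.N666.TM.Turan
import Pool.Agent.Run7.h823.WF.D

set_option autoImplicit false
set_option linter.unusedSectionVars false

/-!
(This file is a copy of `Pool.Agent.N666.TM.Exact` of helper666, with fewer imports; the last theorem is new.)

Exact prime divisors of one of the integers of a vector.
-/

namespace Pool.Agent.Run7.h823.WF.Exa

open Finset hiding dens
open Filter Pool.Agent.Y722.HS Pool.Agent.N666.TM

section
variable {ι : Type} [Fintype ι] [DecidableEq ι]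

/-- `p` divides exactly the coordinate `l` -/
def Ex (l : ι) (p : ℕ) (v : ι → ℤ) : Prop :=
  (p : ℤ) ∣ v l ∧ ¬ (p : ℤ) ^ 2 ∣ v l ∧ ∀ i, i ≠ l → ¬ (p : ℤ) ∣ v i

/-- the residue classes -/
def Om (l : ι) (p : ℕ) : Set (ι → ZMod (p ^ 2)) :=
  {ρ | p ∣ (ρ l).val ∧ (ρ l).val ≠ 0 ∧ ∀ i, i ≠ l → ¬ p ∣ (ρ i).val}

theorem val_intCast_dvd (p : ℕ) (hp : 1 ≤ p) (a : ℤ) : p ∣ ((a : ZMod (p ^ 2))).val ↔ (p : ℤ) ∣ a := by
  have : NeZero (p ^ 2) := ⟨by positivity⟩
  have h1 : ((((a : ZMod (p ^ 2))).val : ℕ) : ℤ) = a % ((p ^ 2 : ℕ) : ℤ) := ZMod.val_intCast a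
  rw [← Int.natCast_dvd_natCast, h1]
  have h2 : a = a % ((p ^ 2 : ℕ) : ℤ) + p * (p * (a / ((p ^ 2 : ℕ) : ℤ))) := by
    have := Int.emod_add_mul_ediv a ((p ^ 2 : ℕ) : ℤ)
    push_cast at this ⊢
    nlinarith
  constructor
  · intro h
    rw [h2]
    exact dvd_add h (Dvd.intro _ rfl)
  · intro h
    rw [h2] at h
    exact (Int.dvd_add_left (Dvd.intro _ rfl)).mp h

theorem val_intCast_ne (p : ℕ) (hp : 1 ≤ p) (a : ℤ) :
    ((a : ZMod (p ^ 2))).val ≠ 0 ↔ ¬ (p : ℤ) ^ 2 ∣ a := by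
  have : NeZero (p ^ 2) := ⟨by positivity⟩
  rw [Ne, ZMod.val_eq_zero, ZMod.intCast_zmod_eq_zero_iff_dvd]
  push_cast
  rfl

theorem mem_Om (l : ι) (p : ℕ) (hp : 1 ≤ p) (v : ι → ℤ) : red (p ^ 2) v ∈ Om l p ↔ Ex l p v := by
  unfold Om Ex red
  simp only [Set.mem_ofPred_eq]
  rw [val_intCast_dvd p hp, val_intCast_ne p hp]
  simp only [val_intCast_dvd p hp]

theorem card_mult (p : ℕ) (hp : 1 ≤ p) [NeZero (p ^ 2)] :
    (Finset.univ.filter fun a : ZMod (p ^ 2) => p ∣ a.val).card = p := by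
  have h : (Finset.univ.filter fun a : ZMod (p ^ 2) => p ∣ a.val) =
      (Finset.range p).image (fun k : ℕ => ((p * k : ℕ) : ZMod (p ^ 2))) := by
    ext a
    simp only [Finset.mem_filter, Finset.mem_univ, true_and, Finset.mem_image, Finset.mem_range]
    constructor
    · rintro ⟨k, hk⟩
      refine ⟨k, ?_, ?_⟩
      · have := ZMod.val_lt a
        rw [hk, pow_two] at this
        exact Nat.lt_of_mul_lt_mul_left this
      · rw [← hk, ZMod.natCast_zmod_val]
    · rintro ⟨k, hk, rfl⟩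
      rw [ZMod.val_natCast_of_lt]
      · exact Dvd.intro _ rfl
      · rw [pow_two]
        exact Nat.mul_lt_mul_of_pos_left hk hp
  rw [h, Finset.card_image_of_injOn, Finset.card_range]
  intro k hk k' hk' hkk
  simp only [Finset.coe_range, Set.mem_Iio] at hk hk'
  have h1 : p * k < p ^ 2 := by rw [pow_two]; exact Nat.mul_lt_mul_of_pos_left hk hp
  have h2 : p * k' < p ^ 2 := by rw [pow_two]; exact Nat.mul_lt_mul_of_pos_left hk' hp
  have h3 := congrArg ZMod.val hkk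
  simp only at h3
  rw [ZMod.val_natCast_of_lt h1, ZMod.val_natCast_of_lt h2] at h3
  exact Nat.eq_of_mul_eq_mul_left hp h3

/-- the density of the classes is at least `2 ^ (- r) / p` -/
theorem dens_Om (l : ι) (p : ℕ) (hp : 2 ≤ p) :
    1 / 2 ^ Fintype.card ι * (1 / (p : ℝ)) ≤ dens (Om l p) := by
  classical
  have : NeZero (p ^ 2) := ⟨by positivity⟩
  have hp0 : (0 : ℝ) < p := by exact_mod_cast (by omega : 0 < p)
  have hp2 : (2 : ℝ) ≤ p := by exact_mod_cast hp
  set S : ι → Finset (ZMod (p ^ 2)) := fun i => if i = l then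
    Finset.univ.filter (fun a : ZMod (p ^ 2) => p ∣ a.val ∧ a.val ≠ 0) else
    Finset.univ.filter (fun a : ZMod (p ^ 2) => ¬ p ∣ a.val) with hS
  have e : Om l p = ↑(Fintype.piFinset S) := by
    ext ρ
    simp only [Om, Set.mem_ofPred_eq, Finset.mem_coe, Fintype.mem_piFinset, hS]
    constructor
    · rintro ⟨h1, h2, h3⟩ i
      by_cases hi : i = l
      · subst hi
        rw [if_pos rfl]
        exact Finset.mem_filter.mpr ⟨Finset.mem_univ _, h1, h2⟩
      · simp [hi, h3 i hi]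
    · intro h
      have hl := h l
      simp only [if_pos, Finset.mem_filter, Finset.mem_univ, true_and] at hl
      refine ⟨hl.1, hl.2, fun i hi => ?_⟩
      have := h i
      rw [if_neg hi] at this
      simpa using this
  have hc : (Om l p).ncard = ∏ i, (S i).card := by
    rw [e, Set.ncard_coe_finset, Fintype.card_piFinset]
  have h1 : ((p : ℝ) - 1) ≤ (S l).card := by
    have h2 : (Finset.univ.filter fun a : ZMod (p ^ 2) => p ∣ a.val) ⊆ insert 0 (S l) := by
      intro a ha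
      rw [hS]
      simp only [Finset.mem_insert, if_pos, Finset.mem_filter, Finset.mem_univ, true_and] at ha ⊢
      by_cases h0 : a = 0
      · exact Or.inl h0
      · exact Or.inr ⟨ha, by rwa [Ne, ZMod.val_eq_zero]⟩
    have h3 := (Finset.card_le_card h2).trans (Finset.card_insert_le _ _)
    rw [card_mult p (by omega)] at h3
    have : (p : ℝ) ≤ (S l).card + 1 := by exact_mod_cast h3
    linarith
  have h2 : ∀ i, i ≠ l → (S i).card + p = p ^ 2 := by
    intro i hi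
    have h3 := Finset.card_filter_add_card_filter_not (s := (Finset.univ : Finset (ZMod (p ^ 2))))
      (fun a : ZMod (p ^ 2) => p ∣ a.val)
    rw [card_mult p (by omega), Finset.card_univ, ZMod.card] at h3
    rw [hS]
    simp only [if_neg hi]
    omega
  have h3 : ∀ i, (if i = l then (1 : ℝ) / (2 * p) else 1 / 2) ≤ (S i).card / (p : ℝ) ^ 2 := by
    intro i
    by_cases hi : i = l
    · subst hi
      rw [if_pos rfl, div_le_div_iff₀ (by positivity) (by positivity)]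
      nlinarith
    · rw [if_neg hi, div_le_div_iff₀ (by norm_num) (by positivity)]
      have h4 : ((S i).card : ℝ) + p = p ^ 2 := by exact_mod_cast h2 i hi
      nlinarith
  unfold dens
  rw [hc]
  push_cast
  have h4 : ((∏ i, ((S i).card : ℝ)) / ((p : ℝ) ^ 2) ^ Fintype.card ι) =
      ∏ i, ((S i).card : ℝ) / (p : ℝ) ^ 2 := by
    rw [Finset.prod_div_distrib, Finset.prod_const, Finset.card_univ]
  rw [h4]
  have h5 : ∏ i, (if i = l then (1 : ℝ) / (2 * p) else 1 / 2) ≤ ∏ i, ((S i).card : ℝ) / (p : ℝ) ^ 2 :=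
    Finset.prod_le_prod (fun i _ => by split_ifs <;> positivity) fun i _ => h3 i
  refine le_trans (le_of_eq ?_) h5
  have h6 : ∀ i, (if i = l then (1 : ℝ) / (2 * p) else 1 / 2) =
      (1 / 2) * (if i = l then (1 : ℝ) / p else 1) := by
    intro i
    split_ifs
    · field_simp
    · ring
  simp only [h6]
  rw [Finset.prod_mul_distrib, Finset.prod_const, Finset.card_univ, Finset.prod_ite_eq']
  simp

/-- Almost all members of a well distributed sequence have, for every coordinate, an exact prime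
divisor above `D` which does not divide the others. -/
theorem ex_dens {S : ℕ → Finset ℕ} {x : ℕ → ι → ℤ} {κ : ℝ} (hκ : 0 < κ)
    (hw : ∃ N₀ : ℕ, ∀ N : ℕ, N₀ ≤ N → ∀ H : ℕ, (H : ℝ) ≤ (N : ℝ) ^ κ → Well (S N) x H)
    (D : ℕ) (ε : ℝ) (hε : 0 < ε) : ∃ N₀ : ℕ, ∀ N : ℕ, N₀ ≤ N →
      ({n : ℕ | n ∈ S N ∧ ¬ ∀ l : ι, ∃ p : ℕ, p.Prime ∧ D < p ∧ Ex l p (x n)}.ncard : ℝ) ≤
        ε * (S N).card := by
  classical
  obtain ⟨N₁, hN₁⟩ := hw
  set r := Fintype.card ι with hr
  set ε' : ℝ := ε / (2 * (r + 1)) with hε'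
  have hε'0 : 0 < ε' := by positivity
  -- the primes
  obtain ⟨y, hy⟩ : ∃ y : ℕ, 2 ^ r * (2 / ε') ≤ ∑ p ∈ (Finset.range y).filter Nat.Prime,
      (if D < p then 1 / (p : ℝ) else 0) := by
    have hns : ¬ Summable (fun p : ℕ => if p.Prime then (if D < p then 1 / (p : ℝ) else 0) else 0) := by
      intro hsum
      apply not_summable_one_div_on_primes
      refine (summable_congr_cofinite ?_).mp hsum
      rw [Filter.eventuallyEq_iff_exists_mem]
      refine ⟨{p | D < p}, ?_, ?_⟩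
      · rw [Nat.cofinite_eq_atTop]
        exact Ioi_mem_atTop D
      · intro p hp
        simp only [Set.mem_ofPred_eq] at hp
        by_cases h : p.Prime
        · simp [Set.indicator, h, hp]
        · simp [Set.indicator, h]
    have hnn : ∀ p : ℕ, 0 ≤ (if p.Prime then (if D < p then 1 / (p : ℝ) else 0) else 0) := by
      intro p
      split_ifs <;> positivity
    have ht := (not_summable_iff_tendsto_nat_atTop_of_nonneg hnn).mp hns
    obtain ⟨y, hy⟩ := (ht.eventually_ge_atTop (2 ^ r * (2 / ε'))).exists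
    refine ⟨y, ?_⟩
    rw [Finset.sum_filter]
    exact hy
  set P : Finset ℕ := ((Finset.range y).filter Nat.Prime).filter (fun p => D < p) with hP
  have hPsum : 2 ^ r * (2 / ε') ≤ ∑ p ∈ P, 1 / (p : ℝ) := by
    rw [hP, Finset.sum_filter]
    exact hy
  have hPm : ∀ p ∈ P, p < y ∧ p.Prime ∧ D < p := by
    intro p hp
    simp only [hP, Finset.mem_filter, Finset.mem_range] at hp
    exact ⟨hp.1.1, hp.1.2, hp.2⟩
  -- large N
  have hev : ∀ᶠ N : ℕ in atTop, ((y ^ 4 + ⌈4 / ε'⌉₊ : ℕ) : ℝ) ≤ (N : ℝ) ^ κ := by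
    have h1 : Tendsto (fun N : ℕ => (N : ℝ) ^ κ) atTop atTop :=
      (tendsto_rpow_atTop hκ).comp tendsto_natCast_atTop_atTop
    exact h1.eventually_ge_atTop _
  obtain ⟨N₂, hN₂⟩ := eventually_atTop.mp hev
  refine ⟨max N₁ N₂, fun N hN => ?_⟩
  set H : ℕ := y ^ 4 + ⌈4 / ε'⌉₊ with hH
  have hws := hN₁ N ((le_max_left _ _).trans hN) H (hN₂ N ((le_max_right _ _).trans hN))
  have hbad : ∀ l : ι, (((S N).filter fun n => ∀ p ∈ P, red (p ^ 2) (x n) ∉ Om l p).card : ℝ) ≤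
      (2 * ε') * (S N).card := by
    intro l
    have hμ : 2 / ε' ≤ ∑ p ∈ P, dens (Om l p) := by
      calc 2 / ε' = 1 / 2 ^ r * (2 ^ r * (2 / ε')) := by field_simp
        _ ≤ 1 / 2 ^ r * ∑ p ∈ P, 1 / (p : ℝ) := by gcongr
        _ = ∑ p ∈ P, 1 / 2 ^ r * (1 / (p : ℝ)) := by rw [Finset.mul_sum]
        _ ≤ _ := Finset.sum_le_sum fun p hp => dens_Om l p (hPm p hp).2.1.two_le
    have hμ0 : 0 < ∑ p ∈ P, dens (Om l p) := lt_of_lt_of_le (by positivity) hμ
    have h1 := turan hws P (fun p => p ^ 2) (fun p hp => Nat.pos_of_ne_zero (by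
        have := (hPm p hp).2.1.pos
        positivity)) (fun p hp p' hp' hne =>
        Nat.Coprime.pow 2 2 ((Nat.coprime_primes (hPm p hp).2.1 (hPm p' hp').2.1).mpr hne))
      (fun p hp p' hp' => by
        have a1 : p ^ 2 ≤ y ^ 2 := Nat.pow_le_pow_left (hPm p hp).1.le 2
        have a2 : p' ^ 2 ≤ y ^ 2 := Nat.pow_le_pow_left (hPm p' hp').1.le 2
        calc p ^ 2 * p' ^ 2 ≤ y ^ 2 * y ^ 2 := Nat.mul_le_mul a1 a2
          _ = y ^ 4 := by ring
          _ ≤ 2 * H + 1 := by omega)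
      (fun p => Om l p) _ rfl hμ0
    refine h1.trans ?_
    have h2 : 2 / (∑ p ∈ P, dens (Om l p)) ≤ ε' := by
      rw [div_le_iff₀ hμ0]
      rw [div_le_iff₀ hε'0] at hμ
      linarith
    have h3 : (4 : ℝ) / (2 * H + 1) ≤ ε' := by
      have h4 : 4 / ε' ≤ (H : ℝ) := (Nat.le_ceil _).trans (by exact_mod_cast (by omega : ⌈4 / ε'⌉₊ ≤ H))
      rw [div_le_iff₀ hε'0] at h4
      rw [div_le_iff₀ (by positivity)]
      nlinarith
    gcongr
    linarith
  have hsub : {n : ℕ | n ∈ S N ∧ ¬ ∀ l : ι, ∃ p : ℕ, p.Prime ∧ D < p ∧ Ex l p (x n)} ⊆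
      ↑(Finset.univ.biUnion fun l : ι => (S N).filter fun n => ∀ p ∈ P, red (p ^ 2) (x n) ∉ Om l p) := by
    rintro n ⟨hn, hn'⟩
    push Not at hn'
    obtain ⟨l, hl⟩ := hn'
    simp only [Finset.coe_biUnion, Set.mem_iUnion, Finset.mem_coe, Finset.mem_univ, Finset.mem_filter,
      exists_prop, true_and]
    refine ⟨l, hn, fun p hp => ?_⟩
    rw [mem_Om l p (hPm p hp).2.1.one_lt.le]
    exact hl p (hPm p hp).2.1 (hPm p hp).2.2
  have h1 : ({n : ℕ | n ∈ S N ∧ ¬ ∀ l : ι, ∃ p : ℕ, p.Prime ∧ D < p ∧ Ex l p (x n)}.ncard : ℝ) ≤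
      ((Finset.univ.biUnion fun l : ι =>
        (S N).filter fun n => ∀ p ∈ P, red (p ^ 2) (x n) ∉ Om l p).card : ℝ) := by
    have := Set.ncard_le_ncard hsub (Finset.finite_toSet _)
    rw [Set.ncard_coe_finset] at this
    exact_mod_cast this
  refine h1.trans ?_
  have h2 : ((Finset.univ.biUnion fun l : ι =>
        (S N).filter fun n => ∀ p ∈ P, red (p ^ 2) (x n) ∉ Om l p).card : ℝ) ≤
      ∑ l : ι, (((S N).filter fun n => ∀ p ∈ P, red (p ^ 2) (x n) ∉ Om l p).card : ℝ) := by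
    exact_mod_cast Finset.card_biUnion_le
  refine h2.trans ?_
  refine (Finset.sum_le_sum fun l _ => hbad l).trans ?_
  rw [Finset.sum_const, Finset.card_univ, nsmul_eq_mul, ← hr]
  have h3 : (r : ℝ) * (2 * ε') ≤ ε := by
    rw [hε']
    have : (r : ℝ) * (2 * (ε / (2 * (r + 1)))) = ε * (r / (r + 1)) := by field_simp
    rw [this]
    have h4 : (r : ℝ) / (r + 1) ≤ 1 := by rw [div_le_one (by positivity)]; linarith
    nlinarith
  calc (r : ℝ) * (2 * ε' * (S N).card) = (r * (2 * ε')) * (S N).card := by ring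
    _ ≤ _ := by gcongr

/-- families of vectors of residues with small Fourier coefficients -/
theorem residues {β : ℝ} (hβ : 0 < β) (D : ℕ) (ε : ℝ) (hε : 0 < ε) : ∃ q₀ : ℕ,
    ∀ (τ : Type) (q : ℕ) [NeZero q], q₀ ≤ q → ∀ (s : Finset τ) (y : τ → ι → ZMod q) (c₀ : ι → ℤ),
      Flat q ((q : ℝ) ^ (-β)) s y →
      ({i : τ | i ∈ s ∧ ¬ ∀ l : ι, ∃ p : ℕ, p.Prime ∧ D < p ∧ Ex l p (fun j => c₀ j + ((y i j).val : ℕ))}.ncard : ℝ) ≤
        ε * s.card := by
  obtain ⟨q₀, h⟩ := transferD (ι := ι) hβ (fun _ v => ∀ l : ι, ∃ p : ℕ, p.Prime ∧ D < p ∧ Ex l p v)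
    (fun _ _ => True) (fun _ _ _ => trivial) (fun S x κ hκ hw _ ε hε => ex_dens hκ hw D ε hε) ε hε
  exact ⟨q₀, fun τ q _ hq s y c₀ hf => h τ q hq s y c₀ hf fun _ _ => trivial⟩

end

end Pool.Agent.Run7.h823.WF.Exa
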