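import Pool.Agent.Run7.h823.WF.A
import Pool.Agent.N666.TM.Mean

set_option autoImplicit false
set_option linter.unusedSectionVars false
set_option linter.unusedVariables false

/-!
(This file is a copy of a part of `Pool.Agent.N384.VF.Seq` of helper384, with fewer imports.)

Families of vectors of residues as parts of one sequence; the transfer of assertions on well distributed sequences.
-/

namespace Pool.Agent.Run7.h823.WF

open Finset Filter
open Pool.Agent.Y722.HS (red)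
open Pool.Agent.N666.TM (Well)

section
variable {ι : Type}

lemma ncard_mono {τ : Type} {s : Finset τ} {P Q : τ → Prop} (h : ∀ i ∈ s, P i → Q i) :
    ({i : τ | i ∈ s ∧ P i}.ncard : ℝ) ≤ ({i : τ | i ∈ s ∧ Q i}.ncard : ℝ) := by
  have h1 : {i : τ | i ∈ s ∧ P i}.ncard ≤ {i : τ | i ∈ s ∧ Q i}.ncard :=
    Set.ncard_le_ncard (fun n hn => ⟨hn.1, h n hn.1 hn.2⟩) ((Finset.finite_toSet s).subset fun n hn => hn.1)
  exact_mod_cast h1

/-- the members of the family with the number `N` -/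
def blk (s : ∀ N : ℕ, Σ τ : Type, Finset τ) (N : ℕ) : Finset ℕ := (range (s N).2.card).image (Nat.pair N)

open Classical in
/-- one sequence for all families -/
noncomputable def seq (s : ∀ N : ℕ, Σ τ : Type, Finset τ) (c : ∀ N : ℕ, (s N).1 → ι → ℤ) (n : ℕ) : ι → ℤ :=
  if h : (Nat.unpair n).2 < (s (Nat.unpair n).1).2.card then
    c (Nat.unpair n).1 ((s (Nat.unpair n).1).2.equivFin.symm ⟨(Nat.unpair n).2, h⟩ : (s (Nat.unpair n).1).2)
  else 0

lemma seq_pair (s : ∀ N : ℕ, Σ τ : Type, Finset τ) (c : ∀ N : ℕ, (s N).1 → ι → ℤ) (N k : ℕ) (h : k < (s N).2.card) :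
    seq s c (Nat.pair N k) = c N ((s N).2.equivFin.symm ⟨k, h⟩ : (s N).2) := by
  unfold seq
  have h1 : (Nat.unpair (Nat.pair N k)).1 = N := by rw [Nat.unpair_pair]
  have h2 : (Nat.unpair (Nat.pair N k)).2 = k := by rw [Nat.unpair_pair]
  have key : ∀ (a b : ℕ) (ha : a = N) (hb : b = k),
      (if h : b < (s a).2.card then c a ((s a).2.equivFin.symm ⟨b, h⟩ : (s a).2) else 0) =
        c N ((s N).2.equivFin.symm ⟨k, h⟩ : (s N).2) := by
    rintro a b rfl rfl
    rw [dif_pos h]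
  exact key _ _ h1 h2

lemma sum_blk {M : Type*} [AddCommMonoid M] (s : ∀ N : ℕ, Σ τ : Type, Finset τ) (c : ∀ N : ℕ, (s N).1 → ι → ℤ) (N : ℕ)
    (f : (ι → ℤ) → M) : ∑ n ∈ blk s N, f (seq s c n) = ∑ i ∈ (s N).2, f (c N i) := by
  classical
  unfold blk
  rw [sum_image (by
    intro a _ b _ hab
    have := congrArg Nat.unpair hab
    rw [Nat.unpair_pair, Nat.unpair_pair] at this
    exact (Prod.mk.inj this).2)]
  rw [← Fin.sum_univ_eq_sum_range (fun k => f (seq s c (Nat.pair N k))) (s N).2.card, ← sum_coe_sort (s N).2]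
  rw [← Equiv.sum_comp (s N).2.equivFin.symm (fun i : (s N).2 => f (c N i))]
  refine sum_congr rfl fun k _ => ?_
  rw [seq_pair s c N k k.2]

lemma card_blk (s : ∀ N : ℕ, Σ τ : Type, Finset τ) (N : ℕ) : (blk s N).card = (s N).2.card := by
  have h := sum_blk (ι := ℕ) (M := ℕ) s (fun N _ => 0) N (fun _ => 1)
  simpa using h

lemma card_blk_filter (s : ∀ N : ℕ, Σ τ : Type, Finset τ) (c : ∀ N : ℕ, (s N).1 → ι → ℤ) (N : ℕ) (Q : (ι → ℤ) → Prop)
    [DecidablePred fun n => Q (seq s c n)] [DecidablePred fun i => Q (c N i)] :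
    ((blk s N).filter (fun n => Q (seq s c n))).card = ((s N).2.filter (fun i => Q (c N i))).card := by
  classical
  have h := sum_blk (M := ℕ) s c N (fun v => if Q v then 1 else 0)
  rw [card_filter, card_filter]
  convert h

variable [Fintype ι] [DecidableEq ι]

/-- the vectors are well distributed in the residue classes modulo the integers up to `2 H + 1` -/
structure WellF {τ : Type} (s : Finset τ) (c : τ → ι → ℤ) (H : ℕ) : Prop where
  pos : 0 < s.card
  dist : ∀ q : ℕ, 1 ≤ q → q ≤ 2 * H + 1 → ∀ ρ : ι → ZMod q,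
    |((#{i ∈ s | red q (c i) = ρ} : ℕ) : ℝ) / s.card - 1 / (q : ℝ) ^ Fintype.card ι| ≤
      1 / (2 * H + 1) * (1 / (q : ℝ) ^ Fintype.card ι)

lemma well_blk (s : ∀ N : ℕ, Σ τ : Type, Finset τ) (c : ∀ N : ℕ, (s N).1 → ι → ℤ) (N H : ℕ) (h : WellF (s N).2 (c N) H) :
    Well (blk s N) (seq s c) H := by
  refine ⟨by rw [card_blk]; exact h.pos, fun q hq1 hq2 ρ => ?_⟩
  have := h.dist q hq1 hq2 ρ
  rw [← card_blk_filter s c N (fun v => red q v = ρ), ← card_blk s N] at this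
  exact this

/-- a family of vectors of residues modulo `q` with Fourier coefficients at most `1 / (Z (42 + 3 log q) ^ r)`, where `r` is the
number of the coordinates, `Z ≤ q` -/
structure VFam {τ : Type} (q : ℕ) [NeZero q] (s : Finset τ) (y : τ → ι → ZMod q) (Z : ℝ) : Prop where
  le : Z ≤ q
  flat : Flat q (1 / (Z * (42 + 3 * Real.log q) ^ Fintype.card ι)) s y

theorem wellF_of {τ : Type} {q : ℕ} [NeZero q] {s : Finset τ} {y : τ → ι → ZMod q} {Z : ℝ} (hv : VFam q s y Z)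
    (hs : s.Nonempty) (c₀ : ι → ℤ) (H : ℕ) (hZ : 2 * (2 * (H : ℝ) + 1) ^ (Fintype.card ι + 2) ≤ Z) :
    WellF s (fun i j => c₀ j + ((y i j).val : ℕ)) H := by
  have hH1 : (1 : ℝ) ≤ 2 * (H : ℝ) + 1 := by
    have : (0 : ℝ) ≤ H := Nat.cast_nonneg _
    linarith
  have hZ1 : 1 ≤ Z := by
    have : (1 : ℝ) ≤ (2 * (H : ℝ) + 1) ^ (Fintype.card ι + 2) := one_le_pow₀ hH1
    linarith
  have hZ0 : 0 < Z := by linarith
  have hL : 1 ≤ 42 + 3 * Real.log q := by
    have := Real.log_natCast_nonneg q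
    linarith
  have hq0 : (0 : ℝ) < q := lt_of_lt_of_le hZ0 hv.le
  refine ⟨hs.card_pos, fun m hm1 hm2 ρ => ?_⟩
  have hm0 : (0 : ℝ) < m := by exact_mod_cast hm1
  have hm1r : (1 : ℝ) ≤ m := by exact_mod_cast hm1
  have hm2r : (m : ℝ) ≤ 2 * (H : ℝ) + 1 := by exact_mod_cast hm2
  have h1 := count_le q _ (by positivity) s hs y hv.flat c₀ m hm1 ρ
  refine h1.trans ?_
  have e1 : 1 / (Z * (42 + 3 * Real.log q) ^ Fintype.card ι) * (42 + 3 * Real.log q) ^ Fintype.card ι = 1 / Z := by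
    field_simp
  rw [e1]
  have h2 : (m : ℝ) / q ≤ m / Z := div_le_div_of_nonneg_left hm0.le hZ0 hv.le
  have h3 : (m : ℝ) / q + 1 / Z ≤ 2 * (2 * (H : ℝ) + 1) / Z := by
    have h4 : 1 / Z ≤ (m : ℝ) / Z := div_le_div_of_nonneg_right hm1r hZ0.le
    calc (m : ℝ) / q + 1 / Z ≤ m / Z + m / Z := add_le_add h2 h4
      _ = 2 * m / Z := by ring
      _ ≤ _ := div_le_div_of_nonneg_right (by linarith) hZ0.le
  refine h3.trans ?_
  rw [div_mul_div_comm, one_mul, div_le_div_iff₀ hZ0 (by positivity), one_mul]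
  calc 2 * (2 * (H : ℝ) + 1) * ((2 * (H : ℝ) + 1) * (m : ℝ) ^ Fintype.card ι) ≤
        2 * (2 * (H : ℝ) + 1) * ((2 * (H : ℝ) + 1) * (2 * (H : ℝ) + 1) ^ Fintype.card ι) := by gcongr
    _ = 2 * (2 * (H : ℝ) + 1) ^ (Fintype.card ι + 2) := by ring
    _ ≤ Z := hZ

/-- the family of all vectors of residues -/
lemma vfam_univ (q : ℕ) [NeZero q] : VFam q (univ : Finset (ι → ZMod q)) (fun i => i) q := by
  classical
  refine ⟨le_rfl, fun h hh => ?_⟩
  obtain ⟨j₀, hj₀⟩ : ∃ j, h j ≠ 0 := by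
    by_contra hcon
    push Not at hcon
    exact hh (funext hcon)
  have h1 : ∑ i : ι → ZMod q, (ZMod.stdAddChar (∑ j, h j * i j) : ℂ) = 0 := by
    have h2 : ∀ i : ι → ZMod q, (ZMod.stdAddChar (∑ j, h j * i j) : ℂ) = ∏ j, (ZMod.stdAddChar (h j * i j) : ℂ) := by
      intro i
      have : ∀ s : Finset ι, (ZMod.stdAddChar (∑ j ∈ s, h j * i j) : ℂ) = ∏ j ∈ s, (ZMod.stdAddChar (h j * i j) : ℂ) := by
        intro s
        induction s using Finset.induction_on with
        | empty => simp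
        | insert a s ha ih => rw [sum_insert ha, prod_insert ha, AddChar.map_add_eq_mul, ih]
      exact this univ
    rw [sum_congr rfl fun i _ => h2 i]
    have h3 := (prod_univ_sum (fun _ : ι => (univ : Finset (ZMod q))) (fun j z => (ZMod.stdAddChar (h j * z) : ℂ))).symm
    rw [Fintype.piFinset_univ] at h3
    rw [h3]
    apply prod_eq_zero (mem_univ j₀)
    have h4 := AddChar.sum_mulShift (R' := ℂ) (h j₀) (ZMod.isPrimitive_stdAddChar q)
    rw [if_neg hj₀] at h4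
    have h5 : ∑ z : ZMod q, (ZMod.stdAddChar (z * h j₀) : ℂ) = 0 := by
      rw [h4]
      simp
    refine Eq.trans (sum_congr rfl fun z _ => ?_) h5
    rw [mul_comm]
  rw [h1, norm_zero]
  have : (0 : ℝ) ≤ Real.log q := Real.log_natCast_nonneg q
  positivity

/-- a well distributed family as a well distributed set of integers -/
theorem wellF_exists {τ : Type} (s : Finset τ) (c : τ → ι → ℤ) : ∃ (S : Finset ℕ) (x : ℕ → ι → ℤ),
    (∀ H, WellF s c H → Well S x H) ∧ S.card = s.card ∧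
    ∀ Q : (ι → ℤ) → Prop, {n : ℕ | n ∈ S ∧ Q (x n)}.ncard = {i : τ | i ∈ s ∧ Q (c i)}.ncard := by
  classical
  refine ⟨blk (fun _ => ⟨τ, s⟩) 0, seq (fun _ => ⟨τ, s⟩) (fun _ => c), fun H h => well_blk (fun _ => ⟨τ, s⟩) (fun _ => c) 0 H h,
    card_blk _ 0, fun Q => ?_⟩
  have h := card_blk_filter (fun _ => ⟨τ, s⟩) (fun _ => c) 0 Q
  have e1 : {n : ℕ | n ∈ blk (fun _ => ⟨τ, s⟩) 0 ∧ Q (seq (fun _ => ⟨τ, s⟩) (fun _ => c) n)} =
      ↑((blk (fun _ => ⟨τ, s⟩) 0).filter (fun n => Q (seq (fun _ => ⟨τ, s⟩) (fun _ => c) n))) := by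
    ext n
    simp
  have e2 : {i : τ | i ∈ s ∧ Q (c i)} = ↑(s.filter (fun i => Q (c i))) := by
    ext n
    simp
  rw [e1, e2, Set.ncard_coe_finset, Set.ncard_coe_finset]
  exact h

end

end Pool.Agent.Run7.h823.WF
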