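import Pool.Agent.N384.MQ.Four
import Pool.Agent.Y722.HS.Box

set_option autoImplicit false

/-!
(This file is a copy of `Pool.Agent.N384.VF.Base` of helper384, with fewer imports.)

Families of vectors of residues with small Fourier coefficients: the least residues are uniformly distributed in the
residue classes to small moduli.
-/

namespace Pool.Agent.Run7.h823.WF

open Finset
open Pool.Agent.H807R2.Dav
open Pool.Agent.Y722.HS (red)

open Pool.Agent.N384.MQ (expand sum_KK dd_ge_int)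

lemma std_ee' (q : ℕ) [NeZero q] (n : ℤ) :
    (ZMod.stdAddChar ((n : ℤ) : ZMod q) : ℂ) = ee ((n : ℝ) / q) := by
  rw [ZMod.stdAddChar_coe]
  unfold ee
  congr 1
  push_cast
  ring

/-- the Fourier coefficients of a function `x ↦ e(θ x)` on `0 ≤ x < q` -/
noncomputable def co (q : ℕ) (θ : ℝ) (h : ℕ) : ℂ :=
  (1 / (q : ℂ)) * ∑ x ∈ range q, ee (θ * x) * ee (-((h : ℝ) * x / q))

lemma expand1 (q : ℕ) (θ : ℝ) (v : ℕ) (hv : v < q) :
    ee (θ * v) = ∑ h ∈ range q, co q θ h * ee ((h : ℝ) * v / q) := by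
  have h1 := expand q (by omega) (fun u => if u = v then 1 else 0) (fun x => ee (θ * x))
  have h2 : ∀ f : ℕ → ℂ, ∑ u ∈ range q, (if u = v then (1 : ℂ) else 0) * f u = f v := by
    intro f
    simp only [ite_mul, one_mul, zero_mul]
    rw [sum_ite_eq' (range q) v, if_pos (mem_range.2 hv)]
  rw [h2 (fun x => ee (θ * x))] at h1
  rw [h1, mul_sum]
  refine sum_congr rfl fun h _ => ?_
  rw [h2 (fun u => ee ((h : ℝ) * u / q))]
  unfold co
  ring

lemma co_le1 (q : ℕ) (θ : ℝ) (h : ℕ) : ‖co q θ h‖ ≤ 1 := by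
  rcases Nat.eq_zero_or_pos q with h0 | h0
  · unfold co
    rw [h0]
    simp
  have hq0 : (0 : ℝ) < q := by exact_mod_cast h0
  unfold co
  rw [norm_mul, norm_div, norm_one, Complex.norm_natCast, one_div, inv_mul_le_iff₀ hq0, mul_one]
  refine (norm_sum_le _ _).trans ?_
  refine (sum_le_card_nsmul _ _ 1 fun t _ => ?_).trans ?_
  · rw [norm_mul, norm_ee, norm_ee, mul_one]
  · simp

lemma co_KK (q : ℕ) (hq : 1 ≤ q) (θ : ℝ) (h : ℕ) : ‖co q θ h‖ ≤ KK q (θ - (h : ℝ) / q) / q := by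
  have hq0 : (0 : ℝ) < q := by exact_mod_cast hq
  have hgeo : ∀ y : ℝ, ‖∑ x ∈ range q, ee (y * x)‖ ≤ KK q y := by
    intro y
    have := geo_bound 0 q (Nat.zero_le _) (M := q) (by simp) y
    rw [← range_eq_Ico] at this
    refine le_trans (le_of_eq ?_) this
    congr 1
    refine sum_congr rfl fun x _ => ?_
    rw [mul_comm]
  unfold co
  rw [norm_mul, norm_div, norm_one, Complex.norm_natCast, one_div, inv_mul_eq_div]
  apply div_le_div_of_nonneg_right _ hq0.le
  refine le_trans (le_of_eq ?_) (hgeo (θ - (h : ℝ) / q))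
  congr 1
  refine sum_congr rfl fun x _ => ?_
  rw [← ee_add]
  congr 1
  ring

lemma co_sum (q : ℕ) (hq : 1 ≤ q) (θ : ℝ) : ∑ h ∈ range q, ‖co q θ h‖ ≤ 42 + 3 * Real.log q := by
  have hq0 : (0 : ℝ) < q := by exact_mod_cast hq
  calc ∑ h ∈ range q, ‖co q θ h‖ ≤ ∑ h ∈ range q, KK q (θ - (h : ℝ) / q) / q := sum_le_sum fun h _ => co_KK q hq θ h
    _ = (∑ h ∈ range q, KK q (θ - (h : ℝ) / q)) / q := by rw [sum_div]
    _ ≤ (q * (42 + 3 * Real.log q)) / q := div_le_div_of_nonneg_right (sum_KK q hq θ) hq0.le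
    _ = _ := by field_simp

lemma co_zero (q : ℕ) (hq : 1 ≤ q) (θ δ : ℝ) (hδ : 0 < δ) (hd : ∀ m : ℤ, δ ≤ |θ - m|) :
    ‖co q θ 0‖ ≤ 1 / (δ * q) := by
  have hq0 : (0 : ℝ) < q := by exact_mod_cast hq
  have h1 := co_KK q hq θ 0
  rw [Nat.cast_zero, zero_div, sub_zero] at h1
  have h3 := dd_ge_int θ δ hd
  have h4 : KK q θ ≤ 3 / (4 * δ) := KK_le' hq0.le (by linarith) h3
  calc ‖co q θ 0‖ ≤ KK q θ / q := h1
    _ ≤ (3 / (4 * δ)) / q := div_le_div_of_nonneg_right h4 hq0.le
    _ ≤ (4 / (4 * δ)) / q := by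
        apply div_le_div_of_nonneg_right _ hq0.le
        apply div_le_div_of_nonneg_right (by norm_num) (by linarith)
    _ = 1 / (δ * q) := by field_simp

section
variable {τ ι : Type} [Fintype ι]

/-- The Fourier coefficients of the vectors of residues `y i`, `i ∈ s`, modulo `q` at the nonzero frequencies are at most
`η` times the number of the vectors. -/
def Flat (q : ℕ) [NeZero q] (η : ℝ) (s : Finset τ) (y : τ → ι → ZMod q) : Prop :=
  ∀ h : ι → ZMod q, h ≠ 0 → ‖∑ i ∈ s, (ZMod.stdAddChar (∑ j, h j * y i j) : ℂ)‖ ≤ η * s.card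

lemma ee_prod (q : ℕ) [NeZero q] (h : ι → ℕ) (z : ι → ZMod q) :
    ∏ j, ee ((h j : ℝ) * ((z j).val : ℕ) / q) = (ZMod.stdAddChar (∑ j, (h j : ZMod q) * z j) : ℂ) := by
  classical
  have e1 : (∑ j, (h j : ZMod q) * z j) = ((∑ j, ((h j : ℤ) * ((z j).val : ℤ)) : ℤ) : ZMod q) := by
    push_cast
    refine sum_congr rfl fun j _ => ?_
    rw [ZMod.natCast_zmod_val]
  rw [e1, std_ee']
  have e2 : ∀ s : Finset ι, ∏ j ∈ s, ee ((h j : ℝ) * ((z j).val : ℕ) / q) = ee (∑ j ∈ s, (h j : ℝ) * ((z j).val : ℕ) / q) := by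
    intro s
    induction s using Finset.induction_on with
    | empty => simp [ee]
    | insert a s ha ih => rw [prod_insert ha, sum_insert ha, ih, ee_add]
  rw [e2]
  congr 1
  rw [← sum_div]
  push_cast
  rfl

/-- the exponential sum of a family of vectors at a real frequency -/
theorem char_le [DecidableEq ι] (q : ℕ) [NeZero q] (η : ℝ) (hη : 0 ≤ η) (s : Finset τ) (y : τ → ι → ZMod q) (hf : Flat q η s y)
    (θ : ι → ℝ) (j₀ : ι) (δ : ℝ) (hδ : 0 < δ) (hd : ∀ m : ℤ, δ ≤ |θ j₀ - m|) :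
    ‖∑ i ∈ s, ∏ j, ee (θ j * ((y i j).val : ℕ))‖ ≤
      s.card * (1 / (δ * q) + η * (42 + 3 * Real.log q) ^ Fintype.card ι) := by
  classical
  have hq1 : 1 ≤ q := Nat.pos_of_ne_zero (NeZero.ne q)
  have hq0 : (0 : ℝ) < q := by exact_mod_cast hq1
  have hL0 : 0 ≤ 42 + 3 * Real.log q := by
    have := Real.log_natCast_nonneg q
    linarith
  obtain ⟨T, hT⟩ : ∃ T : Finset (ι → ℕ), T = Fintype.piFinset (fun _ : ι => range q) := ⟨_, rfl⟩
  have h1 : ∀ i, ∏ j, ee (θ j * ((y i j).val : ℕ)) =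
      ∑ h ∈ T, (∏ j, co q (θ j) (h j)) * (ZMod.stdAddChar (∑ j, (h j : ZMod q) * y i j) : ℂ) := by
    intro i
    have e1 : ∏ j, ee (θ j * ((y i j).val : ℕ)) =
        ∏ j, ∑ h ∈ range q, co q (θ j) h * ee ((h : ℝ) * ((y i j).val : ℕ) / q) :=
      prod_congr rfl fun j _ => expand1 q (θ j) _ (ZMod.val_lt _)
    rw [e1, prod_univ_sum, ← hT]
    refine sum_congr rfl fun h _ => ?_
    rw [prod_mul_distrib, ee_prod]
  have h2 : ∑ i ∈ s, ∏ j, ee (θ j * ((y i j).val : ℕ)) =
      ∑ h ∈ T, (∏ j, co q (θ j) (h j)) * ∑ i ∈ s, (ZMod.stdAddChar (∑ j, (h j : ZMod q) * y i j) : ℂ) := by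
    rw [sum_congr rfl fun i _ => h1 i, sum_comm]
    refine sum_congr rfl fun h _ => ?_
    rw [mul_sum]
  rw [h2]
  have h0T : (0 : ι → ℕ) ∈ T := by
    rw [hT, Fintype.mem_piFinset]
    intro j
    exact mem_range.2 (by simp only [Pi.zero_apply]; omega)
  rw [← add_sum_erase _ _ h0T]
  refine (norm_add_le _ _).trans ?_
  rw [mul_add]
  apply add_le_add
  · -- the zero frequency
    have e1 : ∑ i ∈ s, (ZMod.stdAddChar (∑ j, (((0 : ι → ℕ) j : ℕ) : ZMod q) * y i j) : ℂ) = s.card := by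
      simp
    rw [e1, norm_mul, Complex.norm_natCast, mul_comm]
    apply mul_le_mul_of_nonneg_left _ (Nat.cast_nonneg _)
    rw [norm_prod]
    calc ∏ j, ‖co q (θ j) ((0 : ι → ℕ) j)‖ = ‖co q (θ j₀) 0‖ * ∏ j ∈ univ.erase j₀, ‖co q (θ j) ((0 : ι → ℕ) j)‖ := by
          rw [← mul_prod_erase univ _ (mem_univ j₀)]
          rfl
      _ ≤ (1 / (δ * q)) * 1 := by
          apply mul_le_mul (co_zero q hq1 (θ j₀) δ hδ hd) _ (prod_nonneg fun _ _ => norm_nonneg _) (by positivity)
          exact prod_le_one (fun _ _ => norm_nonneg _) fun j _ => co_le1 q (θ j) _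
      _ = _ := mul_one _
  · refine (norm_sum_le _ _).trans ?_
    calc ∑ h ∈ T.erase 0, ‖(∏ j, co q (θ j) (h j)) * ∑ i ∈ s, (ZMod.stdAddChar (∑ j, (h j : ZMod q) * y i j) : ℂ)‖
        ≤ ∑ h ∈ T.erase 0, (∏ j, ‖co q (θ j) (h j)‖) * (η * s.card) := by
          refine sum_le_sum fun h hh => ?_
          rw [mem_erase, hT, Fintype.mem_piFinset] at hh
          rw [norm_mul, norm_prod]
          apply mul_le_mul_of_nonneg_left _ (prod_nonneg fun _ _ => norm_nonneg _)
          apply hf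
          intro hz
          apply hh.1
          funext j
          have h3 := congrFun hz j
          simp only [Pi.zero_apply] at h3 ⊢
          rw [ZMod.natCast_eq_zero_iff] at h3
          have h4 := mem_range.1 (hh.2 j)
          exact Nat.eq_zero_of_dvd_of_lt h3 h4
      _ ≤ ∑ h ∈ T, (∏ j, ‖co q (θ j) (h j)‖) * (η * s.card) := by
          apply sum_le_sum_of_subset_of_nonneg (erase_subset _ _)
          intro h _ _
          exact mul_nonneg (prod_nonneg fun _ _ => norm_nonneg _) (by positivity)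
      _ = (∏ j, ∑ h ∈ range q, ‖co q (θ j) h‖) * (η * s.card) := by
          rw [← sum_mul, prod_univ_sum, ← hT]
      _ ≤ (∏ _j : ι, (42 + 3 * Real.log q)) * (η * s.card) := by
          apply mul_le_mul_of_nonneg_right _ (by positivity)
          exact prod_le_prod (fun _ _ => sum_nonneg fun _ _ => norm_nonneg _) fun j _ => co_sum q hq1 (θ j)
      _ = s.card * (η * (42 + 3 * Real.log q) ^ Fintype.card ι) := by
          rw [prod_const, card_univ]
          ring

lemma frac_dist' (a M : ℕ) (ha : a ∈ Ico 1 M) (m : ℤ) : 1 / (M : ℝ) ≤ |(a : ℝ) / M - m| := by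
  rw [mem_Ico] at ha
  have hM : (0 : ℝ) < M := by exact_mod_cast (by omega : 0 < M)
  have e : (a : ℝ) / M - m = ((a - m * M : ℤ) : ℝ) / M := by
    push_cast
    field_simp
  rw [e, abs_div, abs_of_pos hM, ← Int.cast_abs]
  apply div_le_div_of_nonneg_right _ hM.le
  have h1 : (a : ℤ) - m * M ≠ 0 := by
    intro h0
    have h2 : (M : ℤ) ∣ a := ⟨m, by linarith⟩
    have h3 := Int.le_of_dvd (by omega) h2
    omega
  exact_mod_cast Int.one_le_abs h1

/-- the number of the members of a family in a residue class -/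
theorem count_le [DecidableEq ι] (q : ℕ) [NeZero q] (η : ℝ) (hη : 0 ≤ η) (s : Finset τ) (hs : s.Nonempty) (y : τ → ι → ZMod q)
    (hf : Flat q η s y) (c₀ : ι → ℤ) (m : ℕ) (hm : 1 ≤ m) (ρ : ι → ZMod m) :
    |((#{i ∈ s | red m (fun j => c₀ j + ((y i j).val : ℕ)) = ρ} : ℕ) : ℝ) / s.card - 1 / (m : ℝ) ^ Fintype.card ι| ≤
      m / q + η * (42 + 3 * Real.log q) ^ Fintype.card ι := by
  classical
  have : NeZero m := ⟨by omega⟩
  have hq1 : 1 ≤ q := Nat.pos_of_ne_zero (NeZero.ne q)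
  have hq0 : (0 : ℝ) < q := by exact_mod_cast hq1
  have hm0 : (0 : ℝ) < m := by exact_mod_cast hm
  have hm0c : (m : ℂ) ≠ 0 := by exact_mod_cast hm0.ne'
  have hs0 : (0 : ℝ) < s.card := by exact_mod_cast hs.card_pos
  have hL0 : 0 ≤ 42 + 3 * Real.log q := by
    have := Real.log_natCast_nonneg q
    linarith
  obtain ⟨T, hT⟩ : ∃ T : Finset (ι → ℕ), T = Fintype.piFinset (fun _ : ι => range m) := ⟨_, rfl⟩
  obtain ⟨ph, hph⟩ : ∃ ph : ι → ℕ → ℂ, ph = fun (j : ι) (a : ℕ) => (1 / (m : ℂ)) * ee ((a : ℝ) * ((c₀ j - (ρ j).val : ℤ) : ℝ) / m) := ⟨_, rfl⟩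
  have hphn : ∀ j a, ‖ph j a‖ = 1 / m := by
    intro j a
    rw [hph]
    simp only
    rw [norm_mul, norm_ee, norm_div, norm_one, Complex.norm_natCast, mul_one]
  have h1 : ∀ i, (if red m (fun j => c₀ j + ((y i j).val : ℕ)) = ρ then (1 : ℂ) else 0) =
      ∑ a ∈ T, (∏ j, ph j (a j)) * ∏ j, ee ((a j : ℝ) / m * ((y i j).val : ℕ)) := by
    intro i
    have e1 : ∀ j, (if (m : ℤ) ∣ (c₀ j + ((y i j).val : ℕ) - (ρ j).val) then (1 : ℂ) else 0) =
        ∑ a ∈ range m, ph j a * ee ((a : ℝ) / m * ((y i j).val : ℕ)) := by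
      intro j
      have h2 := Pool.Agent.H373R2.T7.orth m hm (c₀ j + ((y i j).val : ℕ) - (ρ j).val)
      have h3 : ∑ a ∈ range m, ph j a * ee ((a : ℝ) / m * ((y i j).val : ℕ)) =
          (1 / (m : ℂ)) * ∑ h ∈ range m, ee ((h : ℝ) * (((c₀ j + ((y i j).val : ℕ) - (ρ j).val : ℤ) : ℝ) / m)) := by
        rw [mul_sum]
        refine sum_congr rfl fun a _ => ?_
        rw [hph]
        simp only
        rw [mul_assoc, ← ee_add]
        congr 2
        push_cast
        ring
      rw [h3, h2]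
      split_ifs
      · field_simp
      · simp
    have e2 : (if red m (fun j => c₀ j + ((y i j).val : ℕ)) = ρ then (1 : ℂ) else 0) =
        ∏ j, (if (m : ℤ) ∣ (c₀ j + ((y i j).val : ℕ) - (ρ j).val) then (1 : ℂ) else 0) := by
      have h4 : red m (fun j => c₀ j + ((y i j).val : ℕ)) = ρ ↔
          ∀ j ∈ (univ : Finset ι), (m : ℤ) ∣ (c₀ j + ((y i j).val : ℕ) - (ρ j).val) := by
        rw [funext_iff]
        constructor
        · intro h j _
          rw [← ZMod.intCast_zmod_eq_zero_iff_dvd]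
          have := h j
          unfold red at this
          push_cast at this ⊢
          rw [this]
          simp
        · intro h j
          have := (ZMod.intCast_zmod_eq_zero_iff_dvd _ m).2 (h j (mem_univ _))
          unfold red
          push_cast at this ⊢
          rw [ZMod.natCast_zmod_val (ρ j)] at this
          exact sub_eq_zero.1 this
      by_cases hc : red m (fun j => c₀ j + ((y i j).val : ℕ)) = ρ
      · rw [if_pos hc]
        symm
        apply prod_eq_one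
        intro j hj
        rw [if_pos (h4.1 hc j hj)]
      · rw [if_neg hc]
        symm
        rw [h4] at hc
        push Not at hc
        obtain ⟨j, hj, hnd⟩ := hc
        exact prod_eq_zero hj (if_neg hnd)
    rw [e2, prod_congr rfl fun j _ => e1 j, prod_univ_sum, ← hT]
    refine sum_congr rfl fun a _ => ?_
    rw [prod_mul_distrib]
  have h5 : ((#{i ∈ s | red m (fun j => c₀ j + ((y i j).val : ℕ)) = ρ} : ℕ) : ℂ) =
      ∑ a ∈ T, (∏ j, ph j (a j)) * ∑ i ∈ s, ∏ j, ee ((a j : ℝ) / m * ((y i j).val : ℕ)) := by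
    rw [card_filter]
    push_cast
    rw [sum_congr rfl fun i _ => h1 i, sum_comm]
    refine sum_congr rfl fun a _ => ?_
    rw [mul_sum]
  have h0T : (0 : ι → ℕ) ∈ T := by
    rw [hT, Fintype.mem_piFinset]
    intro j
    exact mem_range.2 (by simp only [Pi.zero_apply]; omega)
  rw [← add_sum_erase _ _ h0T] at h5
  have h6 : (∏ j, ph j ((0 : ι → ℕ) j)) * ∑ i ∈ s, ∏ j, ee ((((0 : ι → ℕ) j : ℕ) : ℝ) / m * ((y i j).val : ℕ)) =
      ((s.card : ℝ) * (1 / (m : ℝ) ^ Fintype.card ι) : ℝ) := by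
    have e1 : ∀ j, ph j ((0 : ι → ℕ) j) = 1 / (m : ℂ) := by
      intro j
      rw [hph]
      simp [ee]
    rw [prod_congr rfl fun j _ => e1 j, prod_const, card_univ]
    simp only [Pi.zero_apply, Nat.cast_zero, zero_div, zero_mul]
    have e2 : ee (0 : ℝ) = 1 := by simp [ee]
    rw [e2]
    simp
    ring
  have h7 : ‖((#{i ∈ s | red m (fun j => c₀ j + ((y i j).val : ℕ)) = ρ} : ℕ) : ℂ) -
      ((s.card : ℝ) * (1 / (m : ℝ) ^ Fintype.card ι) : ℝ)‖ ≤
      s.card * (m / q + η * (42 + 3 * Real.log q) ^ Fintype.card ι) := by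
    rw [h5, h6, add_sub_cancel_left]
    refine (norm_sum_le _ _).trans ?_
    calc ∑ a ∈ T.erase 0, ‖(∏ j, ph j (a j)) * ∑ i ∈ s, ∏ j, ee ((a j : ℝ) / m * ((y i j).val : ℕ))‖
        ≤ ∑ a ∈ T.erase 0, (1 / (m : ℝ)) ^ Fintype.card ι *
            (s.card * (m / q + η * (42 + 3 * Real.log q) ^ Fintype.card ι)) := by
          refine sum_le_sum fun a ha => ?_
          rw [mem_erase, hT, Fintype.mem_piFinset] at ha
          rw [norm_mul, norm_prod, prod_congr rfl fun j _ => hphn j (a j), prod_const, card_univ]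
          apply mul_le_mul_of_nonneg_left _ (by positivity)
          have hne : ∃ j, a j ≠ 0 := by
            by_contra hcon
            push Not at hcon
            exact ha.1 (funext hcon)
          obtain ⟨j₀, hj₀⟩ := hne
          have h8 := char_le q η hη s y hf (fun j => (a j : ℝ) / m) j₀ (1 / (m : ℝ)) (by positivity)
            (fun k => frac_dist' (a j₀) m (mem_Ico.2 ⟨by omega, mem_range.1 (ha.2 j₀)⟩) k)
          refine h8.trans (le_of_eq ?_)
          have : 1 / (1 / (m : ℝ) * q) = m / q := by field_simp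
          rw [this]
      _ ≤ ∑ a ∈ T, (1 / (m : ℝ)) ^ Fintype.card ι *
            (s.card * (m / q + η * (42 + 3 * Real.log q) ^ Fintype.card ι)) := by
          apply sum_le_sum_of_subset_of_nonneg (erase_subset _ _)
          intro _ _ _
          positivity
      _ = _ := by
          rw [sum_const, hT, Fintype.card_piFinset, prod_const, card_univ, card_range, nsmul_eq_mul]
          push_cast
          rw [← mul_assoc, ← mul_pow, mul_one_div_cancel hm0.ne', one_pow, one_mul]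
  have h9 : ‖((#{i ∈ s | red m (fun j => c₀ j + ((y i j).val : ℕ)) = ρ} : ℕ) : ℂ) -
      ((s.card : ℝ) * (1 / (m : ℝ) ^ Fintype.card ι) : ℝ)‖ =
      |((#{i ∈ s | red m (fun j => c₀ j + ((y i j).val : ℕ)) = ρ} : ℕ) : ℝ) -
      ((s.card : ℝ) * (1 / (m : ℝ) ^ Fintype.card ι))| := by
    rw [← Real.norm_eq_abs, ← Complex.norm_real]
    congr 1
    push_cast
    rfl
  rw [h9] at h7
  have h10 : ((#{i ∈ s | red m (fun j => c₀ j + ((y i j).val : ℕ)) = ρ} : ℕ) : ℝ) / s.card - 1 / (m : ℝ) ^ Fintype.card ι =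
      (((#{i ∈ s | red m (fun j => c₀ j + ((y i j).val : ℕ)) = ρ} : ℕ) : ℝ) -
      ((s.card : ℝ) * (1 / (m : ℝ) ^ Fintype.card ι))) / s.card := by
    field_simp
  rw [h10, abs_div, abs_of_pos hs0, div_le_iff₀ hs0, mul_comm _ (s.card : ℝ)]
  exact h7

end

end Pool.Agent.Run7.h823.WF
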