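import Pool.Agent.N692.TS.Sup
import Pool.Agent.N692.TS.Pre
import Pool.Agent.Run7.h823.WF.D

set_option autoImplicit false
set_option linter.unusedSectionVars false

/-!
(The first part is a copy of a part of `Pool.Agent.N692.TS.Main` of helper692, with fewer imports.)

Coefficient vectors over a number field with a good prime: families of vectors of residues with small Fourier coefficients.
-/

namespace Pool.Agent.Run7.h823.WF.LG

open NumberField IsDedekindDomain Pool.Agent.TH377.Sup Filter Pool.Agent.N692.TS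
open Finset hiding dens
open Pool.Agent.N666.TM (dens Well turan)

section

variable {K : Type} [Field K]

/-- a prime ideal of norm greater than `M` at which the polynomial is good -/
def LocGood [NumberField K] (d M : ℕ) (y : Fin (d + 2) → 𝓞 K) : Prop :=
  ∃ v : HeightOneSpectrum (𝓞 K), ((M.factorial : ℕ) : 𝓞 K) ∉ v.asIdeal ∧ y 0 ∈ v.asIdeal ∧
    y 0 ∉ v.asIdeal ^ 2 ∧ IrrMod v d fun i => y i.succ

theorem LocGood.mono [NumberField K] {d M M' : ℕ} (h : M ≤ M') {y : Fin (d + 2) → 𝓞 K}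
    (hy : LocGood d M' y) : LocGood d M y := by
  obtain ⟨v, h1, h2⟩ := hy
  refine ⟨v, fun h3 => h1 ?_, h2⟩
  obtain ⟨k, hk⟩ := Nat.factorial_dvd_factorial h
  rw [hk]
  push_cast
  exact Ideal.mul_mem_right _ _ h3

theorem not_mem_of_norm [NumberField K] (v : HeightOneSpectrum (𝓞 K)) {p M : ℕ} (hp : p.Prime)
    (hM : M < p) (hv : Ideal.absNorm v.asIdeal = p) : ((M.factorial : ℕ) : 𝓞 K) ∉ v.asIdeal := by
  intro h
  have hpv : (p : 𝓞 K) ∈ v.asIdeal := by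
    rw [← hv]
    exact Ideal.absNorm_mem _
  have hcop : Nat.Coprime p M.factorial := (Nat.Prime.coprime_iff_not_dvd hp).mpr (fun h =>
    absurd ((Nat.Prime.dvd_factorial hp).mp h) (by omega))
  have h1 : IsCoprime ((p : ℤ)) ((M.factorial : ℤ)) := Nat.isCoprime_iff_coprime.mpr hcop
  obtain ⟨a, b, hab⟩ := h1
  apply v.isPrime.ne_top
  rw [Ideal.eq_top_iff_one]
  have h2 : (1 : 𝓞 K) = (a : 𝓞 K) * (p : 𝓞 K) + (b : 𝓞 K) * ((M.factorial : ℕ) : 𝓞 K) := by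
    have := congrArg (fun z : ℤ => (z : 𝓞 K)) hab
    push_cast at this
    rw [← this]
  rw [h2]
  exact Ideal.add_mem _ (Ideal.mul_mem_left _ _ hpv) (Ideal.mul_mem_left _ _ h)

theorem null_of_well [NumberField K] {m : ℕ} (ω : Module.Basis (Fin m) ℤ (𝓞 K)) (d : ℕ)
    (hd : 2 ≤ d) (M : ℕ) {S : ℕ → Finset ℕ} {x : ℕ → Fin (d + 2) × Fin m → ℤ}
    (hw : ∃ κ : ℝ, 0 < κ ∧ ∃ N₀ : ℕ, ∀ N : ℕ, N₀ ≤ N → ∀ H : ℕ, (H : ℝ) ≤ (N : ℝ) ^ κ →
      Well (S N) x H) (ε : ℝ) (hε : 0 < ε) : ∃ N₀ : ℕ, ∀ N : ℕ, N₀ ≤ N →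
      ({n : ℕ | n ∈ S N ∧ n ∈ {n : ℕ | ¬ LocGood d M (vec ω d (x n))}}.ncard : ℝ) ≤ ε * (S N).card := by
  classical
  obtain ⟨κ, hκ, N₁, hN₁⟩ := hw
  set ε' : ℝ := ε / 2 with hε'
  have hε'0 : 0 < ε' := by positivity
  have hd0 : (0 : ℝ) < d := by exact_mod_cast (by omega : 0 < d)
  obtain ⟨P, v, hP, hPsum⟩ := supply_sum K M (4 * d * (2 / ε'))
  obtain ⟨y, hy⟩ : ∃ y : ℕ, ∀ p ∈ P, p < y := by
    obtain ⟨y, hy⟩ := P.exists_nat_subset_range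
    exact ⟨y, fun p hp => Finset.mem_range.mp (hy hp)⟩
  have hev : ∀ᶠ N : ℕ in atTop, ((y ^ 4 + ⌈4 / ε'⌉₊ : ℕ) : ℝ) ≤ (N : ℝ) ^ κ := by
    have h1 : Tendsto (fun N : ℕ => (N : ℝ) ^ κ) atTop atTop :=
      (tendsto_rpow_atTop hκ).comp tendsto_natCast_atTop_atTop
    exact h1.eventually_ge_atTop _
  obtain ⟨N₂, hN₂⟩ := eventually_atTop.mp hev
  refine ⟨max N₁ N₂, fun N hN => ?_⟩
  set H : ℕ := y ^ 4 + ⌈4 / ε'⌉₊ with hH
  have hws := hN₁ N ((le_max_left _ _).trans hN) H (hN₂ N ((le_max_right _ _).trans hN))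
  set Ω : ∀ p : ℕ, Set (Fin (d + 2) × Fin m → ZMod (p ^ 2)) := fun p =>
    if hp : Ideal.absNorm (v p).asIdeal = p then Gd ω d (v p) p hp else ∅ with hΩ
  have hΩp : ∀ p (hp : p ∈ P), Ω p = Gd ω d (v p) p (hP p hp).2.2 := by
    intro p hp
    rw [hΩ]
    simp only
    rw [dif_pos (hP p hp).2.2]
  have hμ : 2 / ε' ≤ ∑ p ∈ P, dens (Ω p) := by
    calc 2 / ε' = 1 / (4 * d) * (4 * d * (2 / ε')) := by field_simp
      _ ≤ 1 / (4 * d) * ∑ p ∈ P, (1 / (p : ℝ) - 1 / (p : ℝ) ^ 2) := by gcongr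
      _ = ∑ p ∈ P, 1 / (4 * d) * (1 / (p : ℝ) - 1 / (p : ℝ) ^ 2) := by rw [Finset.mul_sum]
      _ ≤ _ := Finset.sum_le_sum fun p hp => by
        rw [hΩp p hp]
        exact dens_Gd ω d (v p) p _ hd (hP p hp).1
  have hμ0 : 0 < ∑ p ∈ P, dens (Ω p) := lt_of_lt_of_le (by positivity) hμ
  have h1 := turan hws P (fun p => p ^ 2) (fun p hp => Nat.pos_of_ne_zero (by
      have := (hP p hp).1.pos
      positivity)) (fun p hp p' hp' hne =>
      Nat.Coprime.pow 2 2 ((Nat.coprime_primes (hP p hp).1 (hP p' hp').1).mpr hne))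
    (fun p hp p' hp' => by
      have a1 : p ^ 2 ≤ y ^ 2 := Nat.pow_le_pow_left (hy p hp).le 2
      have a2 : p' ^ 2 ≤ y ^ 2 := Nat.pow_le_pow_left (hy p' hp').le 2
      calc p ^ 2 * p' ^ 2 ≤ y ^ 2 * y ^ 2 := Nat.mul_le_mul a1 a2
        _ = y ^ 4 := by ring
        _ ≤ 2 * H + 1 := by omega)
    (fun p => Ω p) _ rfl hμ0
  have hsub : {n : ℕ | n ∈ S N ∧ n ∈ {n : ℕ | ¬ LocGood d M (vec ω d (x n))}} ⊆
      ↑((S N).filter fun n => ∀ p ∈ P, Pool.Agent.Y722.HS.red (p ^ 2) (x n) ∉ Ω p) := by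
    rintro n ⟨hn, hn'⟩
    rw [Finset.mem_coe, Finset.mem_filter]
    refine ⟨hn, fun p hp hmem => hn' ?_⟩
    rw [hΩp p hp] at hmem
    exact ⟨v p, not_mem_of_norm (v p) (hP p hp).1 (hP p hp).2.1 (hP p hp).2.2,
      mem_Gd ω d (v p) p _ (x n) hmem⟩
  have h2 : ({n : ℕ | n ∈ S N ∧ n ∈ {n : ℕ | ¬ LocGood d M (vec ω d (x n))}}.ncard : ℝ) ≤
      (((S N).filter fun n => ∀ p ∈ P, Pool.Agent.Y722.HS.red (p ^ 2) (x n) ∉ Ω p).card : ℝ) := by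
    have := Set.ncard_le_ncard hsub (Finset.finite_toSet _)
    rw [Set.ncard_coe_finset] at this
    exact_mod_cast this
  refine h2.trans (h1.trans ?_)
  have h3 : 2 / (∑ p ∈ P, dens (Ω p)) ≤ ε' := by
    rw [div_le_iff₀ hμ0]
    rw [div_le_iff₀ hε'0] at hμ
    linarith
  have h4 : (4 : ℝ) / (2 * H + 1) ≤ ε' := by
    have h4 : 4 / ε' ≤ (H : ℝ) := (Nat.le_ceil _).trans (by exact_mod_cast (by omega : ⌈4 / ε'⌉₊ ≤ H))
    rw [div_le_iff₀ hε'0] at h4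
    rw [div_le_iff₀ (by positivity)]
    nlinarith
  have h5 : 2 / (∑ p ∈ P, dens (Ω p)) + 4 / (2 * (H : ℝ) + 1) ≤ ε := by
    rw [hε'] at h3 h4
    linarith
  gcongr

/-- families of vectors of residues with small Fourier coefficients -/
theorem residues [NumberField K] {m : ℕ} (ω : Module.Basis (Fin m) ℤ (𝓞 K)) (d : ℕ)
    (hd : 2 ≤ d) (M : ℕ) {β : ℝ} (hβ : 0 < β) (ε : ℝ) (hε : 0 < ε) : ∃ q₀ : ℕ,
    ∀ (τ : Type) (q : ℕ) [NeZero q], q₀ ≤ q → ∀ (s : Finset τ) (y : τ → Fin (d + 2) × Fin m → ZMod q)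
      (c₀ : Fin (d + 2) × Fin m → ℤ), Flat q ((q : ℝ) ^ (-β)) s y →
      ({i : τ | i ∈ s ∧ ¬ LocGood d M (vec ω d (fun j => c₀ j + ((y i j).val : ℕ)))}.ncard : ℝ) ≤ ε * s.card := by
  obtain ⟨q₀, h⟩ := transferD (ι := Fin (d + 2) × Fin m) hβ (fun _ v => LocGood d M (vec ω d v))
    (fun _ _ => True) (fun _ _ _ => trivial) (fun S x κ hκ hw _ ε hε => null_of_well ω d hd M ⟨κ, hκ, hw⟩ ε hε) ε hε
  exact ⟨q₀, fun τ q _ hq s y c₀ hf => h τ q hq s y c₀ hf fun _ _ => trivial⟩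

end

end Pool.Agent.Run7.h823.WF.LG
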