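import Pool.Agent.N647.TS.MulL
import Pool.Agent.Run7.h823.WF.D

set_option autoImplicit false

/-!
(`wellN_of_well` is copied from `Pool.Agent.N647.TS.Thin` of helper647; the theorems on families of vectors of residues
follow `Pool.Agent.N647.TS.Conv` and `Pool.Agent.N647.TS.MulT`.)

Sums of completely multiplicative functions at the members of families of vectors of residues with small Fourier
coefficients.
-/

namespace Pool.Agent.Run7.h823.WF.MT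

open Finset Filter Topology
open Pool.Agent.TH894.NE (mean box Per mem_box)
open Pool.Agent.N666.TM (Well)
open Pool.Agent.Y722.HS (red)
open Pool.Agent.N647.TS (WellN mt_law2W)
open Pool.Agent.X22.MT
open Pool.Agent.X22.ND (hp)

theorem wellN_of_well {d : ℕ} {s : Finset ℕ} {x : ℕ → Fin d → ℤ} {m : ℕ → Fin d → ℕ} {H : ℕ} (hw : Well s x H)
    (hx : ∀ n ∈ s, ∀ i, x n i = (m n i : ℤ)) : WellN s m H := by
  refine ⟨hw.pos, fun q hq1 hq r hr => ?_⟩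
  have h := hw.dist q hq1 hq (fun i => ((r i : ℕ) : ZMod q))
  rw [Fintype.card_fin] at h
  have he : (s.filter fun n => (fun i => m n i % q) = r) = s.filter fun n => red q (x n) = fun i => ((r i : ℕ) : ZMod q) := by
    apply Finset.filter_congr
    intro n hn
    rw [mem_box] at hr
    constructor
    · intro h1
      funext i
      show ((x n i : ℤ) : ZMod q) = _
      rw [hx n hn i, Int.cast_natCast, ZMod.natCast_eq_natCast_iff']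
      rw [← congrFun h1 i, Nat.mod_mod]
    · intro h1
      funext i
      have h2 : ((x n i : ℤ) : ZMod q) = ((r i : ℕ) : ZMod q) := congrFun h1 i
      rw [hx n hn i, Int.cast_natCast, ZMod.natCast_eq_natCast_iff', Nat.mod_eq_of_lt (hr i)] at h2
      exact h2
  rw [he]
  exact h

open Classical in
/-- a family of vectors of residues as a well distributed set of vectors of natural numbers -/
theorem conv_gen (d : ℕ) {β : ℝ} (hβ : 0 < β) : ∃ κw : ℝ, 0 < κw ∧ ∃ q₁ : ℕ, ∀ (τ : Type) (q : ℕ) [NeZero q], q₁ ≤ q →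
    ∀ (s : Finset τ) (z : τ → Fin d → ZMod q) (c₀ : Fin d → ℕ), s.Nonempty → Flat q ((q : ℝ) ^ (-β)) s z →
    ∃ (S : Finset ℕ) (vv : ℕ → Fin d → ℕ), (∀ H : ℕ, (H : ℝ) ≤ (q : ℝ) ^ κw → WellN S vv H) ∧ S.card = s.card ∧
      ∀ E : (Fin d → ℕ) → Prop, (S.filter fun t => ¬ E (vv t)).card =
        {i : τ | i ∈ s ∧ ¬ E (fun j => c₀ j + (z i j).val)}.ncard := by
  obtain ⟨q₁, h₁⟩ := wellF_ev (Fin d) hβ
  refine ⟨ex (Fin d) β, ex_pos _ hβ, q₁, fun τ q _ hN s z c₀ hs hf => ?_⟩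
  obtain ⟨S, x, hx1, hx2, hx3⟩ := wellF_exists s (fun i j => (c₀ j : ℤ) + ((z i j).val : ℕ))
  have hnn : ∀ n ∈ S, ∀ j, 0 ≤ x n j := by
    intro n hn
    have h5 := hx3 (fun v => ¬ ∀ j, 0 ≤ v j)
    have h6 : {i : τ | i ∈ s ∧ ¬ ∀ j, 0 ≤ (c₀ j : ℤ) + ((z i j).val : ℕ)} = ∅ := by
      rw [Set.eq_empty_iff_forall_notMem]
      rintro i ⟨_, hi⟩
      exact hi fun j => by positivity
    rw [h6, Set.ncard_empty] at h5
    have h7 := (Set.ncard_eq_zero ((finite_toSet S).subset fun n hn => hn.1)).1 h5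
    by_contra hcon
    have : n ∈ ({n : ℕ | n ∈ S ∧ ¬ ∀ j, 0 ≤ x n j} : Set ℕ) := ⟨hn, hcon⟩
    rw [h7] at this
    exact this
  refine ⟨S, fun n j => (x n j).toNat, fun H hH => ?_, hx2, fun E => ?_⟩
  · exact wellN_of_well (hx1 H (h₁ τ q hN s z hs hf (fun j => (c₀ j : ℤ)) H hH))
      fun n hn j => (Int.toNat_of_nonneg (hnn n hn j)).symm
  · have h9 := hx3 (fun v => ¬ E fun j => (v j).toNat)
    have e1 : {n : ℕ | n ∈ S ∧ ¬ E fun j => (x n j).toNat} = ↑(S.filter fun t => ¬ E fun j => (x t j).toNat) := by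
      ext n
      simp
    rw [e1, Set.ncard_coe_finset] at h9
    have e2 : {i : τ | i ∈ s ∧ ¬ E fun j => ((c₀ j : ℤ) + ((z i j).val : ℕ)).toNat} =
        {i : τ | i ∈ s ∧ ¬ E (fun j => c₀ j + (z i j).val)} := by
      ext i
      have e3 : (fun j => ((c₀ j : ℤ) + ((z i j).val : ℕ)).toNat) = fun j => c₀ j + (z i j).val := by
        funext j
        have : (c₀ j : ℤ) + ((z i j).val : ℕ) = ((c₀ j + (z i j).val : ℕ) : ℤ) := by push_cast; rfl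
        rw [this, Int.toNat_natCast]
      simp only [Set.mem_ofPred_eq, e3]
    rw [e2] at h9
    exact h9

open Classical in
/-- from well distributed families to families of vectors of residues -/
theorem res_conv {d : ℕ} {β : ℝ} (hβ : 0 < β) (M : ℕ) : ∃ κ₀ : ℝ, 0 < κ₀ ∧ ∃ y₀ : ℕ, ∀ y A : ℕ, y₀ ≤ y →
    ∀ (τ : Type) (q : ℕ) [NeZero q] (s : Finset τ) (z : τ → Fin d → ZMod q) (c₀ : Fin d → ℕ),
    Flat q ((q : ℝ) ^ (-β)) s z →
    ∀ R : ℕ → (Fin d → ℕ) → Prop,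
    (∀ (S : Finset ℕ) (v : ℕ → Fin d → ℕ) (H : ℕ), WellN S v H → ∀ E : (Fin d → ℕ) → Prop,
      (∀ m, (∀ n : ℕ, y ≤ n → n ^ M ≤ 2 * H + 1 → R n m) → E m) →
      ((S.filter fun t => ¬ E (v t)).card : ℝ) ≤ 1 / (y : ℝ) ^ A * S.card) →
    ∀ E : (Fin d → ℕ) → Prop, (∀ m, (∀ n : ℕ, y ≤ n → (n : ℝ) ≤ (q : ℝ) ^ κ₀ → R n m) → E m) →
    ({i : τ | i ∈ s ∧ ¬ E (fun j => c₀ j + (z i j).val)}.ncard : ℝ) ≤ 1 / (y : ℝ) ^ A * s.card := by
  obtain ⟨κ₁, hκ1, q₁, h₁⟩ := conv_gen d hβ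
  obtain ⟨κ₀, hκ₀⟩ : ∃ κ₀ : ℝ, κ₀ = κ₁ / (M + 1) := ⟨_, rfl⟩
  have hκ0 : 0 < κ₀ := by rw [hκ₀]; positivity
  obtain ⟨y₂, hy₂⟩ := exists_nat_gt ((q₁ : ℝ) ^ κ₀)
  refine ⟨κ₀, hκ0, y₂ + 1, fun y A hy τ q _ s z c₀ hf R hM E hE => ?_⟩
  rcases s.eq_empty_or_nonempty with hs | hs
  · have : {i : τ | i ∈ s ∧ ¬ E (fun j => c₀ j + (z i j).val)} = ∅ := by
      ext i
      simp [hs]
    rw [this, Set.ncard_empty, Nat.cast_zero]
    positivity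
  by_cases hN : q₁ ≤ q
  · obtain ⟨J, hJ⟩ : ∃ J : ℕ, J = ⌊(q : ℝ) ^ κ₁⌋₊ := ⟨_, rfl⟩
    have hJ1 : (J : ℝ) ≤ (q : ℝ) ^ κ₁ := by
      rw [hJ]
      exact Nat.floor_le (Real.rpow_nonneg (Nat.cast_nonneg _) _)
    have hJ2 : (q : ℝ) ^ κ₁ < J + 1 := by
      rw [hJ]
      exact Nat.lt_floor_add_one _
    have hE' : ∀ m : Fin d → ℕ, (∀ n : ℕ, y ≤ n → n ^ M ≤ 2 * J + 1 → R n m) → E m := by
      intro m hm
      refine hE m fun n hyn hnN => hm n hyn ?_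
      have hn1 : (1 : ℝ) ≤ n := by exact_mod_cast (by omega : 1 ≤ n)
      have hN0 : (0 : ℝ) ≤ q := Nat.cast_nonneg _
      have h3 : (n : ℝ) ^ (M + 1) ≤ (q : ℝ) ^ κ₁ := by
        calc (n : ℝ) ^ (M + 1) ≤ ((q : ℝ) ^ κ₀) ^ (M + 1) := pow_le_pow_left₀ (by positivity) hnN _
          _ = (q : ℝ) ^ κ₁ := by
              rw [← Real.rpow_natCast, ← Real.rpow_mul hN0, hκ₀]
              congr 1
              push_cast
              field_simp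
      have h4 : (n : ℝ) ^ M ≤ (n : ℝ) ^ (M + 1) := pow_le_pow_right₀ hn1 (by omega)
      have h5 : (n : ℝ) ^ M ≤ ((2 * J + 1 : ℕ) : ℝ) := by
        push_cast
        have : (0 : ℝ) ≤ J := Nat.cast_nonneg _
        linarith
      exact_mod_cast h5
    obtain ⟨S, vv, hx1, hx2, hx3⟩ := h₁ τ q hN s z c₀ hs hf
    rw [← hx3 E, ← hx2]
    exact hM S vv J (hx1 J hJ1) E hE'
  · have hall : ∀ m, E m := by
      intro m
      refine hE m fun n hyn hnN => ?_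
      exfalso
      have h2 : (q : ℝ) ^ κ₀ ≤ (q₁ : ℝ) ^ κ₀ := by
        apply Real.rpow_le_rpow (Nat.cast_nonneg _) _ hκ0.le
        exact_mod_cast (by omega : q ≤ q₁)
      have h3 : (y₂ : ℝ) ≤ n := by exact_mod_cast (by omega : y₂ ≤ n)
      linarith
    have : {i : τ | i ∈ s ∧ ¬ E (fun j => c₀ j + (z i j).val)} = ∅ := by
      rw [Set.eq_empty_iff_forall_notMem]
      rintro i ⟨_, hi⟩
      exact hi (hall _)
    rw [this, Set.ncard_empty, Nat.cast_zero]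
    positivity

open Classical in
/-- sums of completely multiplicative functions at the members of a family of vectors of residues -/
theorem mt_res (d : ℕ) {β : ℝ} (hβ : 0 < β) (L : ℕ) (hL0 : L ≠ 0) (δ : ℝ) (hδ : 0 < δ) (A B C : ℕ) :
    ∃ κ₀ : ℝ, 0 < κ₀ ∧ ∃ y₀ : ℕ, ∀ y : ℕ, y₀ ≤ y →
    ∀ (τ : Type) (q : ℕ) [NeZero q] (s : Finset τ) (z : τ → Fin d → ZMod q) (c₀ : Fin d → ℕ),
    Flat q ((q : ℝ) ^ (-β)) s z →
    ∀ (κ : Type) (Λ : ℕ → Finset κ), (∀ x, y ≤ x → (Λ x).card ≤ x ^ B) →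
    ∀ (F : ℕ → κ → ℕ → (Fin d → ℕ) → ℂ), (∀ x, y ≤ x → ∀ l ∈ Λ x, Fam d L x ((x : ℝ) ^ (δ / 16)) (F x l)) →
    ∀ (v w : ℕ → κ → ℕ → ℂ), (∀ x l n, ‖v x l n‖ ≤ 1) → (∀ x l n, ‖w x l n‖ ≤ 1) →
    ∀ E : (Fin d → ℕ) → Prop,
    (∀ m, (∀ x : ℕ, y ≤ x → (x : ℝ) ≤ (q : ℝ) ^ κ₀ → ∀ l ∈ Λ x, ∀ τ : ℝ, |τ| ≤ (x : ℝ) ^ C → ∀ χ : ℕ → ℂ,
      (∀ n, ‖χ n‖ ≤ 1) → (∀ n n' : ℕ, 1 ≤ n → 1 ≤ n' → χ (n * n') = χ n * χ n') →
      (∀ n ∈ nn L x, χ n = w x l n * F x l n m) → ∀ M M' : ℕ, M' ≤ x →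
      ‖∑ n ∈ Ioc M M', v x l n * χ n * hp τ n‖ ≤ (x : ℝ) ^ (1 / 2 + δ)) → E m) →
    ({i : τ | i ∈ s ∧ ¬ E (fun j => c₀ j + (z i j).val)}.ncard : ℝ) ≤ 1 / (y : ℝ) ^ A * s.card := by
  obtain ⟨M₀, y₁, hM⟩ := mt_law2W d L hL0 δ hδ A B C
  obtain ⟨κ₀, hκ₀, y₂, h₂⟩ := res_conv (d := d) hβ M₀
  refine ⟨κ₀, hκ₀, y₁ + y₂, fun y hy τ q _ s z c₀ hf κ Λ hΛ F hF v w hv hw E hE => ?_⟩
  exact h₂ y A (by omega) τ q s z c₀ hf _ (fun S u H hW E' hE' => hM S u H y hW (by omega) κ Λ hΛ F hF v w hv hw E' hE') E hE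

end Pool.Agent.Run7.h823.WF.MT
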