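import Pool.Agent.N647.TS.Tup

/-!
(This file is a copy of `Pool.Agent.N54.MW.ThinM` (helper54, after helper647), for single sets instead of sequences and with fewer
imports.)

# Joint moments at tuples of consecutive primes, at the integer parts of generalised polynomials
-/

set_option autoImplicit false

namespace Pool.Agent.Run7.h823.WF.MW

open Pool.Agent.N647.TS

open Finset Filter Topology
open Pool.Agent.TH894.NE (mean box Per mean_mul mean_abs_le)
open Pool.Agent.TH894.NF (pr pr_prime)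
open Pool.Agent.Y57.FD (sum_inv le_pr)

theorem prod_sub_prod {ι : Type*} [DecidableEq ι] (S : Finset ι) (x y : ι → ℝ) (B : ℝ) (hB : 1 ≤ B) (hx : ∀ i, |x i| ≤ B)
    (hy : ∀ i, |y i| ≤ B) : |∏ i ∈ S, x i - ∏ i ∈ S, y i| ≤ B ^ S.card * ∑ i ∈ S, |x i - y i| := by
  have hB0 : 0 ≤ B := by linarith
  induction S using Finset.induction_on with
  | empty => simp
  | insert a S ha ih =>
    rw [prod_insert ha, prod_insert ha, card_insert_of_notMem ha, sum_insert ha]
    have e : x a * ∏ i ∈ S, x i - y a * ∏ i ∈ S, y i = (x a - y a) * ∏ i ∈ S, x i + y a * (∏ i ∈ S, x i - ∏ i ∈ S, y i) := by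
      ring
    rw [e]
    have h1 : |∏ i ∈ S, x i| ≤ B ^ S.card := by
      rw [abs_prod]
      calc ∏ i ∈ S, |x i| ≤ ∏ _i ∈ S, B := prod_le_prod (fun i _ => abs_nonneg _) (fun i _ => hx i)
        _ = B ^ S.card := by rw [prod_const]
    have h0 : 0 ≤ ∑ i ∈ S, |x i - y i| := sum_nonneg fun i _ => abs_nonneg _
    have hp : 0 ≤ B ^ S.card := by positivity
    calc |(x a - y a) * ∏ i ∈ S, x i + y a * (∏ i ∈ S, x i - ∏ i ∈ S, y i)| ≤
        |(x a - y a) * ∏ i ∈ S, x i| + |y a * (∏ i ∈ S, x i - ∏ i ∈ S, y i)| := abs_add_le _ _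
      _ ≤ |x a - y a| * B ^ S.card + B * (B ^ S.card * ∑ i ∈ S, |x i - y i|) := by
          rw [abs_mul, abs_mul]
          exact add_le_add (mul_le_mul_of_nonneg_left h1 (abs_nonneg _)) (mul_le_mul (hy a) ih (abs_nonneg _) hB0)
      _ ≤ B ^ (S.card + 1) * (|x a - y a| + ∑ i ∈ S, |x i - y i|) := by
          rw [pow_succ]
          have h2 : 0 ≤ |x a - y a| := abs_nonneg _
          have h3 : |x a - y a| * B ^ S.card ≤ B ^ S.card * B * |x a - y a| := by
            have : 0 ≤ B ^ S.card * |x a - y a| := mul_nonneg hp h2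
            nlinarith
          nlinarith

open Classical in
/-- **Joint moments.** -/
theorem thinM (d s : ℕ) (hd : 1 ≤ d) (hs : 1 ≤ s) {κw : ℝ} (hκw : 0 < κw) (δ : ℝ) (hδ : 0 < δ) (A A₂ : ℕ)
    (I : Type) [Fintype I] (f : I → ℕ → (Fin d → ℕ) → ℝ) (μ : I → ℕ → ℝ) (B C : ℝ) (hB : 1 ≤ B) (hC : 0 ≤ C)
    (hper : ∀ e p, p.Prime → ∀ m, f e p m = f e p (fun j => m j % p)) (hfB : ∀ e p, p.Prime → ∀ m, |f e p m| ≤ B)
    (hμB : ∀ e p, p.Prime → |μ e p| ≤ B)
    (hmean : ∀ e p, p.Prime → |mean d p (f e p) - μ e p| ≤ C / Real.sqrt p) :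
    ∃ κ₀ : ℝ, 0 < κ₀ ∧ ∃ y₀ : ℕ, ∀ y N : ℕ, y₀ ≤ y →
    ∀ (S : Finset ℕ) (vv : ℕ → Fin d → ℕ), (∀ H : ℕ, (H : ℝ) ≤ (N : ℝ) ^ κw → WellN S vv H) →
    ∀ W : ℕ → Set (ℕ → ℝ), (∀ n, (W n).Finite ∧ (W n).ncard ≤ n ^ A₂) → (∀ n, ∀ w ∈ W n, ∀ k, |w k| ≤ 1) →
    ∀ E : (Fin d → ℕ) → Prop,
    (∀ m : Fin d → ℕ, (∀ n : ℕ, 2 ≤ n → y ≤ n → (n : ℝ) ≤ (N : ℝ) ^ κ₀ → ∀ w ∈ W n, ∀ e : Fin s → I,
      |∑ k ∈ range n, w k * ∏ i : Fin s, f (e i) (pr (k + i)) m - ∑ k ∈ range n, w k * ∏ i : Fin s, μ (e i) (pr (k + i))| ≤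
        Real.sqrt (max 1 (∑ k ∈ range n, w k ^ 2)) * (n : ℝ) ^ δ) → E m) →
    ((S.filter fun t => ¬ E (vv t)).card : ℝ) ≤ 1 / (y : ℝ) ^ A * S.card := by
  have hB0 : 0 < B := by linarith
  obtain ⟨c₁, hc₁⟩ : ∃ c₁ : ℕ, c₁ = Fintype.card (Fin s → I) := ⟨_, rfl⟩
  obtain ⟨M, y₁, hM⟩ := tuplesW d s hs (δ / 2) (by positivity) A (A₂ + c₁)
  obtain ⟨κ₁, hκ₁, hκ₁'⟩ : ∃ κ : ℝ, 0 < κ ∧ κ = κw := ⟨κw, hκw, rfl⟩
  obtain ⟨κ₀, hκ₀⟩ : ∃ κ₀ : ℝ, κ₀ = κ₁ / (M + 1) := ⟨_, rfl⟩
  have hκ0 : 0 < κ₀ := by rw [hκ₀]; positivity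
  obtain ⟨C₁, hC₁⟩ : ∃ C₁ : ℝ, C₁ = B ^ s * (s * C) := ⟨_, rfl⟩
  have hC₁0 : 0 ≤ C₁ := by rw [hC₁]; positivity
  have hev : ∀ᶠ n : ℕ in atTop, B ^ s + C₁ * Real.sqrt (1 + Real.log n) ≤ (n : ℝ) ^ (δ / 2) := by
    have h1 : Tendsto (fun x : ℝ => x ^ (δ / 4)) atTop atTop := tendsto_rpow_atTop (by positivity)
    have h2 : ∀ᶠ x : ℝ in atTop, B ^ s + C₁ ≤ x ^ (δ / 4) := h1.eventually (eventually_ge_atTop _)
    have h3 : ∀ᶠ x : ℝ in atTop, Real.log x ≤ x ^ (δ / 4) := by
      have h4 := (isLittleO_log_rpow_atTop (show (0 : ℝ) < δ / 4 by positivity)).bound (show (0 : ℝ) < 1 by norm_num)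
      filter_upwards [h4, eventually_ge_atTop 1] with x hx hx1
      rw [Real.norm_of_nonneg (Real.log_nonneg hx1), Real.norm_of_nonneg (by positivity), one_mul] at hx
      exact hx
    have h5 : ∀ᶠ x : ℝ in atTop, (3 : ℝ) ≤ x ^ (δ / 4) := h1.eventually (eventually_ge_atTop _)
    have h6 : ∀ᶠ x : ℝ in atTop, B ^ s + C₁ * Real.sqrt (1 + Real.log x) ≤ x ^ (δ / 2) := by
      filter_upwards [h2, h3, h5, eventually_ge_atTop 1] with x hx1 hx2 hx3 hx4
      have hl : 0 ≤ Real.log x := Real.log_nonneg hx4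
      have h7 : Real.sqrt (1 + Real.log x) ≤ x ^ (δ / 4) := by
        apply Real.sqrt_le_iff.2
        constructor
        · linarith
        · nlinarith
      have h9 : x ^ (δ / 2) = x ^ (δ / 4) * x ^ (δ / 4) := by
        rw [← Real.rpow_add (by linarith)]
        congr 1
        ring
      have hBs : 0 ≤ B ^ s := by positivity
      rw [h9]
      calc B ^ s + C₁ * Real.sqrt (1 + Real.log x) ≤ B ^ s * x ^ (δ / 4) + C₁ * x ^ (δ / 4) := by
            have : B ^ s ≤ B ^ s * x ^ (δ / 4) := le_mul_of_one_le_right hBs (by linarith)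
            have h10 : C₁ * Real.sqrt (1 + Real.log x) ≤ C₁ * x ^ (δ / 4) := mul_le_mul_of_nonneg_left h7 hC₁0
            linarith
        _ = (B ^ s + C₁) * x ^ (δ / 4) := by ring
        _ ≤ _ := mul_le_mul_of_nonneg_right hx1 (by linarith)
    exact tendsto_natCast_atTop_atTop.eventually h6
  obtain ⟨n₁, hn₁⟩ := eventually_atTop.1 hev
  refine ⟨κ₀, hκ0, y₁ + n₁ + c₁ + 2, fun y N hy S vv h₁ W hW hW1 E hE => ?_⟩
  · -- the well distributed range
    obtain ⟨J, hJ⟩ : ∃ J : ℕ, J = ⌊(N : ℝ) ^ κ₁⌋₊ := ⟨_, rfl⟩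
    have hJ1 : (J : ℝ) ≤ (N : ℝ) ^ κ₁ := by
      rw [hJ]
      exact Nat.floor_le (Real.rpow_nonneg (Nat.cast_nonneg _) _)
    have hJ2 : (N : ℝ) ^ κ₁ < J + 1 := by
      rw [hJ]
      exact Nat.lt_floor_add_one _
    have hw1 := h₁ J (by rw [← hκ₁']; exact hJ1)
    have hWf : ∀ n, (W n).Finite := fun n => (hW n).1
    -- the data
    obtain ⟨G, hG⟩ : ∃ G : ((ℕ → ℝ) × (Fin s → I)) → Fin s → ℕ → (Fin d → ℕ) → ℝ,
      G = fun l i p m => if p.Prime then f (l.2 i) p m / B else 0 := ⟨_, rfl⟩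
    have hGp : ∀ l i p, p.Prime → ∀ m, G l i p m = f (l.2 i) p m / B := by
      intro l i p hp m
      rw [hG]
      show (if p.Prime then f (l.2 i) p m / B else 0) = _
      rw [if_pos hp]
    obtain ⟨Λ, hΛ⟩ : ∃ Λ : ℕ → Finset ((ℕ → ℝ) × (Fin s → I)), Λ = fun n => if n < c₁ then ∅ else (hWf n).toFinset ×ˢ univ :=
      ⟨_, rfl⟩
    have hΛc : ∀ n, 2 ≤ n → (Λ n).card ≤ n ^ (A₂ + c₁) := by
      intro n hn
      rw [hΛ]
      show (if n < c₁ then (∅ : Finset ((ℕ → ℝ) × (Fin s → I))) else (hWf n).toFinset ×ˢ univ).card ≤ _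
      split_ifs with hlt
      · rw [card_empty]; exact Nat.zero_le _
      · rw [card_product, ← Set.ncard_eq_toFinset_card _ (hWf n), pow_add, card_univ, ← hc₁]
        apply Nat.mul_le_mul (hW n).2
        exact (Nat.lt_pow_self (by omega : 1 < n)).le
    have hΛm : ∀ n l, l ∈ Λ n → l.1 ∈ W n := by
      intro n l hl
      rw [hΛ] at hl
      change l ∈ (if n < c₁ then (∅ : Finset ((ℕ → ℝ) × (Fin s → I))) else (hWf n).toFinset ×ˢ univ) at hl
      split_ifs at hl with hlt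
      · exact absurd hl (notMem_empty _)
      · rw [mem_product, Set.Finite.mem_toFinset] at hl
        exact hl.1
    have hΛm' : ∀ n, c₁ ≤ n → ∀ w ∈ W n, ∀ e : Fin s → I, (w, e) ∈ Λ n := by
      intro n hn w hw e
      rw [hΛ]
      show (w, e) ∈ (if n < c₁ then (∅ : Finset ((ℕ → ℝ) × (Fin s → I))) else (hWf n).toFinset ×ˢ univ)
      rw [if_neg (by omega), mem_product, Set.Finite.mem_toFinset]
      exact ⟨hw, mem_univ _⟩
    have key : ∀ m : Fin d → ℕ, (∀ n : ℕ, 2 ≤ n → y ≤ n → n ^ M ≤ 2 * J + 1 → ∀ l ∈ Λ n,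
        |∑ k ∈ range n, l.1 k * ∏ i : Fin s, G l i (pr (k + i)) m -
          ∑ k ∈ range n, l.1 k * ∏ i : Fin s, mean d (pr (k + i)) (G l i (pr (k + i)))| ≤
          Real.sqrt (max 1 (∑ k ∈ range n, l.1 k ^ 2)) * (n : ℝ) ^ (δ / 2)) → E m := by
      intro m hm
      refine hE m fun n hn2 hyn hnN w hw e => ?_
      have hn1 : (1 : ℝ) ≤ n := by exact_mod_cast (by omega : 1 ≤ n)
      have hn0 : (0 : ℝ) < n := by linarith
      have hN0 : (0 : ℝ) ≤ N := Nat.cast_nonneg _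
      have hnM : n ^ M ≤ 2 * J + 1 := by
        have h3 : (n : ℝ) ^ (M + 1) ≤ (N : ℝ) ^ κ₁ := by
          calc (n : ℝ) ^ (M + 1) ≤ ((N : ℝ) ^ κ₀) ^ (M + 1) := pow_le_pow_left₀ (by positivity) hnN _
            _ = (N : ℝ) ^ κ₁ := by
                rw [← Real.rpow_natCast, ← Real.rpow_mul hN0, hκ₀]
                congr 1
                push_cast
                field_simp
        have h4 : (n : ℝ) ^ M ≤ (n : ℝ) ^ (M + 1) := pow_le_pow_right₀ hn1 (by omega)
        have h5 : (n : ℝ) ^ M ≤ ((2 * J + 1 : ℕ) : ℝ) := by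
          push_cast
          have : (0 : ℝ) ≤ J := Nat.cast_nonneg _
          linarith
        exact_mod_cast h5
      have h1 := hm n hn2 hyn hnM (w, e) (hΛm' n (by omega) w hw e)
      simp only at h1
      obtain ⟨V, hV⟩ : ∃ V : ℝ, V = ∑ k ∈ range n, w k ^ 2 := ⟨_, rfl⟩
      have hBs : (B ^ s : ℝ) = ∏ _i : Fin s, B := by rw [prod_const, card_univ, Fintype.card_fin]
      have hBs0 : 0 < B ^ s := by positivity
      have e1 : ∀ k, ∏ i : Fin s, f (e i) (pr (k + i)) m = B ^ s * ∏ i : Fin s, G (w, e) i (pr (k + i)) m := by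
        intro k
        rw [hBs, ← prod_mul_distrib]
        refine prod_congr rfl fun i _ => ?_
        rw [hGp (w, e) i _ (pr_prime _)]
        field_simp
      have e2 : ∀ k, ∏ i : Fin s, mean d (pr (k + i)) (f (e i) (pr (k + i))) =
          B ^ s * ∏ i : Fin s, mean d (pr (k + i)) (G (w, e) i (pr (k + i))) := by
        intro k
        rw [hBs, ← prod_mul_distrib]
        refine prod_congr rfl fun i _ => ?_
        have h2 : G (w, e) i (pr (k + i)) = fun m => (1 / B) * f (e i) (pr (k + i)) m := by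
          funext m
          rw [hGp (w, e) i _ (pr_prime _)]
          ring
        rw [h2, mean_mul]
        field_simp
      have h2 : |∑ k ∈ range n, w k * ∏ i : Fin s, f (e i) (pr (k + i)) m -
          ∑ k ∈ range n, w k * ∏ i : Fin s, mean d (pr (k + i)) (f (e i) (pr (k + i)))| ≤
          B ^ s * (Real.sqrt (max 1 V) * (n : ℝ) ^ (δ / 2)) := by
        have h3 : ∑ k ∈ range n, w k * ∏ i : Fin s, f (e i) (pr (k + i)) m -
            ∑ k ∈ range n, w k * ∏ i : Fin s, mean d (pr (k + i)) (f (e i) (pr (k + i))) =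
            B ^ s * (∑ k ∈ range n, w k * ∏ i : Fin s, G (w, e) i (pr (k + i)) m -
            ∑ k ∈ range n, w k * ∏ i : Fin s, mean d (pr (k + i)) (G (w, e) i (pr (k + i)))) := by
          rw [mul_sub, mul_sum, mul_sum]
          congr 1
          · refine sum_congr rfl fun k _ => ?_
            rw [e1]; ring
          · refine sum_congr rfl fun k _ => ?_
            rw [e2]; ring
        rw [h3, abs_mul, abs_of_pos hBs0, hV]
        exact mul_le_mul_of_nonneg_left h1 hBs0.le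
      have hmB : ∀ (e₀ : I) (p : ℕ), p.Prime → |mean d p (f e₀ p)| ≤ B := by
        intro e₀ p hp
        have h3 : f e₀ p = fun m => B * (f e₀ p m / B) := by
          funext m
          field_simp
        rw [h3, mean_mul, abs_mul, abs_of_pos hB0]
        have h4 := mean_abs_le hp.one_lt.le (fun m => f e₀ p m / B) (by
          intro m
          rw [abs_div, abs_of_pos hB0, div_le_one hB0]
          exact hfB e₀ p hp m)
        nlinarith
      have h3 : |∑ k ∈ range n, w k * (∏ i : Fin s, mean d (pr (k + i)) (f (e i) (pr (k + i))) -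
          ∏ i : Fin s, μ (e i) (pr (k + i)))| ≤
          C₁ * (Real.sqrt V * Real.sqrt (1 + Real.log n)) := by
        rw [hV]
        apply sum_inv n 0 w _ C₁ hC₁0
        intro k
        have hpk : (0 : ℝ) < pr k := by exact_mod_cast (pr_prime k).pos
        refine (prod_sub_prod univ (fun i : Fin s => mean d (pr (k + i)) (f (e i) (pr (k + i)))) (fun i => μ (e i) (pr (k + i))) B hB
          (fun i => hmB _ _ (pr_prime _)) (fun i => hμB _ _ (pr_prime _))).trans ?_
        rw [card_univ, Fintype.card_fin, hC₁, mul_div_assoc, mul_div_assoc]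
        apply mul_le_mul_of_nonneg_left _ hBs0.le
        calc ∑ i : Fin s, |mean d (pr (k + i)) (f (e i) (pr (k + i))) - μ (e i) (pr (k + i))| ≤ ∑ _i : Fin s, C / Real.sqrt (pr (k + 0)) := by
              refine sum_le_sum fun i _ => (hmean (e i) _ (pr_prime _)).trans ?_
              apply div_le_div_of_nonneg_left hC
              · rw [add_zero]; exact Real.sqrt_pos.2 hpk
              · apply Real.sqrt_le_sqrt
                have : pr (k + 0) ≤ pr (k + i) := by
                  unfold Pool.Agent.TH894.NF.pr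
                  exact Nat.nth_monotone Nat.infinite_setOf_prime (by omega)
                exact_mod_cast this
          _ = s * (C / Real.sqrt (pr (k + 0))) := by
              rw [sum_const, card_univ, Fintype.card_fin, nsmul_eq_mul]
      have h4 : ∑ k ∈ range n, w k * ∏ i : Fin s, f (e i) (pr (k + i)) m -
            ∑ k ∈ range n, w k * ∏ i : Fin s, μ (e i) (pr (k + i)) =
          (∑ k ∈ range n, w k * ∏ i : Fin s, f (e i) (pr (k + i)) m -
            ∑ k ∈ range n, w k * ∏ i : Fin s, mean d (pr (k + i)) (f (e i) (pr (k + i)))) +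
          ∑ k ∈ range n, w k * (∏ i : Fin s, mean d (pr (k + i)) (f (e i) (pr (k + i))) -
            ∏ i : Fin s, μ (e i) (pr (k + i))) := by
        have h5 : ∑ k ∈ range n, w k * (∏ i : Fin s, mean d (pr (k + i)) (f (e i) (pr (k + i))) -
              ∏ i : Fin s, μ (e i) (pr (k + i))) =
            ∑ k ∈ range n, w k * ∏ i : Fin s, mean d (pr (k + i)) (f (e i) (pr (k + i))) -
            ∑ k ∈ range n, w k * ∏ i : Fin s, μ (e i) (pr (k + i)) := by
          rw [← sum_sub_distrib]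
          exact sum_congr rfl fun k _ => by ring
        rw [h5]
        ring
      rw [h4, ← hV]
      refine (abs_add_le _ _).trans ((add_le_add h2 h3).trans ?_)
      have h9 := hn₁ n (by omega)
      have e3 : (n : ℝ) ^ δ = (n : ℝ) ^ (δ / 2) * (n : ℝ) ^ (δ / 2) := by
        rw [← Real.rpow_add hn0]
        congr 1
        ring
      have h12 : (1 : ℝ) ≤ (n : ℝ) ^ (δ / 2) := Real.one_le_rpow hn1 (by positivity)
      have hV1 : Real.sqrt V ≤ Real.sqrt (max 1 V) := Real.sqrt_le_sqrt (le_max_right _ _)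
      rw [e3]
      obtain ⟨R, hR⟩ : ∃ R : ℝ, R = Real.sqrt (max 1 V) := ⟨_, rfl⟩
      obtain ⟨Q, hQ⟩ : ∃ Q : ℝ, Q = (n : ℝ) ^ (δ / 2) := ⟨_, rfl⟩
      obtain ⟨L, hL⟩ : ∃ L : ℝ, L = Real.sqrt (1 + Real.log n) := ⟨_, rfl⟩
      rw [← hR, ← hQ, ← hL]
      rw [← hQ] at h12 h9
      rw [← hL] at h9
      rw [← hR] at hV1
      have hR0 : 0 ≤ R := by rw [hR]; exact Real.sqrt_nonneg _
      have hL0 : 0 ≤ L := by rw [hL]; exact Real.sqrt_nonneg _
      calc B ^ s * (R * Q) + C₁ * (Real.sqrt V * L) ≤ B ^ s * (R * Q) + C₁ * (R * L) * Q := by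
            have h13 : C₁ * (Real.sqrt V * L) ≤ C₁ * (R * L) := by gcongr
            have h14 : 0 ≤ C₁ * (R * L) := by positivity
            nlinarith
        _ = R * ((B ^ s + C₁ * L) * Q) := by ring
        _ ≤ R * (Q * Q) := by
            apply mul_le_mul_of_nonneg_left _ hR0
            exact mul_le_mul_of_nonneg_right h9 (by linarith)
    have hGper : ∀ l i p, p.Prime → ∀ m, G l i p m = G l i p (fun j => m j % p) := by
      intro l i p hp m
      rw [hGp l i p hp, hGp l i p hp, ← hper _ p hp m]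
    have hG1 : ∀ l i p m, |G l i p m| ≤ 1 := by
      intro l i p m
      by_cases hp : p.Prime
      · rw [hGp l i p hp, abs_div, abs_of_pos hB0, div_le_one hB0]
        exact hfB _ p hp m
      · rw [hG]
        show |(if p.Prime then f (l.2 i) p m / B else 0)| ≤ 1
        rw [if_neg hp, abs_zero]
        exact zero_le_one
    exact hM S vv J y hw1 (by omega) ((ℕ → ℝ) × (Fin s → I)) Λ hΛc (fun l => l.1)
      (fun n l hl k => hW1 n l.1 (hΛm n l hl) k) G hGper hG1 E key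

end Pool.Agent.Run7.h823.WF.MW
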