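import Pool.Agent.Run7.h823.WF.MW5
import Pool.Agent.N842.HS.Srf2

/-!
(This file is a copy of `Pool.Agent.N54.MW.SurfT` (helper54, after helper647), for single sets instead of sequences and with fewer
imports.)

# The first moment of the traces of hypersurfaces over number fields, over all prime ideals, at the integer parts of generalised
polynomials

The analogue of `Pool.Agent.N842.HS.surf`.
-/

set_option autoImplicit false

namespace Pool.Agent.Run7.h823.WF.MW

open Pool.Agent.N647.TS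

open Finset NumberField IsDedekindDomain MvPolynomial
open Pool.Agent.N842.HS

section
variable {K : Type} [Field K] [NumberField K] {N d D : ℕ} (e : Fin D ≃ Mon N d)

open Classical in
/-- **The first moment over all prime ideals.** -/
theorem surfT (hN : 2 ≤ N) (hd : 2 ≤ d) (g q : ℕ) (ω : Fin g → 𝓞 K) (hω : (1 : 𝓞 K) ∈ Submodule.span ℤ (Set.range ω)) (hg : 1 ≤ g)
    {κw : ℝ} (hκw : 0 < κw) (hq : 2 ≤ q) (hq2 : Even q) (hqd : q ≤ d) (δ : ℝ) (hδ : 0 < δ) (A B : ℕ) :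
    ∃ κ : ℝ, 0 < κ ∧ ∃ y₀ : ℕ, ∀ y N₁ : ℕ, y₀ ≤ y →
    ∀ (S : Finset ℕ) (vv : ℕ → Fin (D * g) → ℕ), (∀ H : ℕ, (H : ℝ) ≤ (N₁ : ℝ) ^ κw → WellN S vv H) →
    ∀ W : ℕ → Set (HeightOneSpectrum (𝓞 K) → ℝ), (∀ T, (W T).Finite ∧ (W T).ncard ≤ T ^ B) → (∀ T, ∀ w ∈ W T, ∀ v, |w v| ≤ 1) →
    ∀ E : (Fin (D * g) → ℕ) → Prop,
    (∀ m : Fin (D * g) → ℕ, (∀ T : ℕ, y ≤ T → (T : ℝ) ≤ (N₁ : ℝ) ^ κ → ∀ w ∈ W T,
      |∑ v ∈ VT K T, w v * ((F0 e v (cf ω m) + F1 e (1 / (2 * (q - 1))) v (cf ω m) - 1) * Real.log (Ideal.absNorm v.asIdeal))| ≤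
        (T : ℝ) ^ (1 / 2 + 1 / (2 * ((q : ℝ) - 1)) + δ)) → E m) →
    ((S.filter fun t => ¬ E (vv t)).card : ℝ) ≤ 1 / (y : ℝ) ^ A * S.card := by
  have hD := D_pos e (by omega : 0 < d)
  have hd0 : NeZero d := ⟨by omega⟩
  have hq1 : (0 : ℝ) < q - 1 := by
    have : (2 : ℝ) ≤ q := by exact_mod_cast hq
    linarith
  obtain ⟨η, hηd⟩ : ∃ η : ℝ, η = 1 / (2 * ((q : ℝ) - 1)) := ⟨_, rfl⟩
  have hη : (0 : ℝ) ≤ η := by rw [hηd]; positivity
  have hηq : 1 / 2 ≤ η * ((q : ℝ) - 1) := by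
    rw [hηd, div_mul_eq_mul_div, one_mul, le_div_iff₀ (by positivity)]
    linarith
  have hzero : q * ∑ j : Fin d, (j + 1 : ℕ) * (fun _ : Fin d => 0) j ≤ d := by simp
  have hone : q * ∑ j : Fin d, (j + 1 : ℕ) * one d j ≤ d := by
    have e1 : ∑ j : Fin d, (j + 1 : ℕ) * one d j = 1 := by
      rw [sum_eq_single (0 : Fin d)]
      · unfold one
        simp
      · intro j _ hj
        unfold one
        rw [if_neg hj, mul_zero]
      · intro h
        exact absurd (mem_univ _) h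
    rw [e1]
    omega
  have hm0 : ∏ j : Fin d, muk N (j + 1) ((fun _ : Fin d => 0) j) = 1 := by
    simp only [muk_zero, prod_const_one]
  have hm1 : ∏ j : Fin d, muk N (j + 1) (one d j) = 0 := by
    apply prod_eq_zero (mem_univ (0 : Fin d))
    unfold one
    rw [if_pos rfl]
    exact muk_one N
  obtain ⟨κ, hκ, y₀, h⟩ := genVT g D ω hω (Nat.mul_pos hD hg) hκw (δ / 2) (by positivity) A B
    ({(fun _ : Fin d => 0), one d} : Finset (Fin d → ℕ)) (fun ρ p _ u => Ft e ρ η p u) (fun ρ => ∏ j : Fin d, muk N (j + 1) (ρ j)) η hη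
    (fun ρ _ => ⟨1 + |∏ j : Fin d, muk N (j + 1) (ρ j)|, by positivity, fun p hp => by
      have h1 : (1 : ℝ) ≤ (p : ℝ) ^ η := Real.one_le_rpow (by exact_mod_cast hp.out.one_lt.le) hη
      constructor
      · intro u
        refine (Ft_le e ρ _ p u).trans ?_
        exact le_mul_of_one_le_left (by linarith) (le_add_of_nonneg_right (abs_nonneg _))
      · refine (prod_muk_bd d ρ p _ hη).trans ?_
        apply mul_le_mul_of_nonneg_right _ (by linarith)
        linarith⟩)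
    (fun ρ hρ => by
      rw [mem_insert, mem_singleton] at hρ
      rcases hρ with rfl | rfl
      · exact mean_Ft e hN hd _ q hq hq2 hzero η hηq
      · exact mean_Ft e hN hd _ q hq hq2 hone η hηq)
  obtain ⟨T₀, hT₀⟩ := Filter.eventually_atTop.1 (ev_high (Module.finrank ℤ (𝓞 K)) η δ hη hδ)
  refine ⟨κ, hκ, y₀ + T₀ + 1, fun y N₁ hy S vv hS W hW hW1 E hE => ?_⟩
  refine h y N₁ (by omega) S vv hS W hW hW1 E fun m hm => ?_
  refine hE m fun T hyT hTr w hw => ?_
  have h0 := hm T hyT hTr w hw (fun _ : Fin d => 0) (mem_insert_self _ _) (fun v => F0 e v (cf ω m)) (fun p _ φ => F0_hv e η hη φ _)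
  have h1 := hm T hyT hTr w hw (one d) (mem_insert_of_mem (mem_singleton_self _)) (fun v => F1 e η v (cf ω m)) (fun p _ φ => F1_hv e η φ _)
  rw [hm0] at h0
  rw [hm1] at h1
  rw [← hηd]
  have hT1 : (1 : ℝ) ≤ T := by exact_mod_cast (by omega : 1 ≤ T)
  have hsplit := sum_filter_add_sum_filter_not (VT K T) (fun v => (Ideal.absNorm v.asIdeal).Prime)
    (fun v => w v * ((F0 e v (cf ω m) + F1 e η v (cf ω m) - 1) * Real.log (Ideal.absNorm v.asIdeal)))
  rw [← hsplit]
  have hdeg1 : ∑ v ∈ (VT K T).filter (fun v => (Ideal.absNorm v.asIdeal).Prime), w v * ((F0 e v (cf ω m) + F1 e η v (cf ω m) - 1) * Real.log (Ideal.absNorm v.asIdeal)) =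
      ∑ v ∈ (VT K T).filter (fun v => (Ideal.absNorm v.asIdeal).Prime), w v * ((F0 e v (cf ω m) - 1) * Real.log (Ideal.absNorm v.asIdeal)) +
      ∑ v ∈ (VT K T).filter (fun v => (Ideal.absNorm v.asIdeal).Prime), w v * ((F1 e η v (cf ω m) - 0) * Real.log (Ideal.absNorm v.asIdeal)) := by
    rw [← sum_add_distrib]
    refine sum_congr rfl fun v _ => ?_
    ring
  have hhigh : |∑ v ∈ (VT K T).filter (fun v => ¬ (Ideal.absNorm v.asIdeal).Prime), w v * ((F0 e v (cf ω m) + F1 e η v (cf ω m) - 1) * Real.log (Ideal.absNorm v.asIdeal))| ≤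
      (Module.finrank ℤ (𝓞 K) : ℝ) * (Real.sqrt T * (2 * (T : ℝ) ^ η * Real.log T)) := by
    refine (abs_sum_le_sum_abs _ _).trans ((sum_le_sum (g := fun _ => 2 * (T : ℝ) ^ η * Real.log T) fun v hv1 => ?_).trans ?_)
    · rw [mem_filter, mem_VT] at hv1
      have hnT : (Ideal.absNorm v.asIdeal : ℝ) ≤ T := by exact_mod_cast hv1.1
      have hn1 : (1 : ℝ) ≤ Ideal.absNorm v.asIdeal := by
        have : Ideal.absNorm v.asIdeal ≠ 0 := by
          rw [Ne, Ideal.absNorm_eq_zero_iff]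
          exact v.ne_bot
        exact_mod_cast Nat.one_le_iff_ne_zero.2 this
      have e1 := F0_le e v (cf ω m)
      have e2 := F1_le e η v (cf ω m)
      have e3 : (Ideal.absNorm v.asIdeal : ℝ) ^ η ≤ (T : ℝ) ^ η := Real.rpow_le_rpow (by linarith) hnT hη
      have e4 : (1 : ℝ) ≤ (T : ℝ) ^ η := Real.one_le_rpow hT1 hη
      have e5 : |F0 e v (cf ω m) + F1 e η v (cf ω m) - 1| ≤ 2 * (T : ℝ) ^ η := by
        rw [abs_le] at e2 ⊢
        constructor <;> linarith
      have e6 : |Real.log (Ideal.absNorm v.asIdeal)| ≤ Real.log T := by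
        rw [abs_of_nonneg (Real.log_nonneg hn1)]
        exact Real.log_le_log (by linarith) hnT
      rw [abs_mul, abs_mul]
      calc |w v| * (|F0 e v (cf ω m) + F1 e η v (cf ω m) - 1| * |Real.log (Ideal.absNorm v.asIdeal)|) ≤ 1 * (2 * (T : ℝ) ^ η * Real.log T) := by
            apply mul_le_mul (hW1 T w hw v) _ (by positivity) zero_le_one
            exact mul_le_mul e5 e6 (abs_nonneg _) (by positivity)
        _ = _ := one_mul _
    · rw [sum_const, nsmul_eq_mul]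
      have e1 := card_high K T
      have e2 : (((VT K T).filter (fun v => ¬ (Ideal.absNorm v.asIdeal).Prime)).card : ℝ) ≤ (Module.finrank ℤ (𝓞 K) : ℝ) * Real.sqrt T := by
        have e3 : (((VT K T).filter (fun v => ¬ (Ideal.absNorm v.asIdeal).Prime)).card : ℝ) ≤ (Module.finrank ℤ (𝓞 K) : ℝ) * (Nat.sqrt T : ℝ) := by exact_mod_cast e1
        refine e3.trans ?_
        apply mul_le_mul_of_nonneg_left _ (Nat.cast_nonneg _)
        exact Real.nat_sqrt_le_real_sqrt
      have hlog : 0 ≤ Real.log T := Real.log_nonneg hT1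
      calc (((VT K T).filter (fun v => ¬ (Ideal.absNorm v.asIdeal).Prime)).card : ℝ) * (2 * (T : ℝ) ^ η * Real.log T) ≤
          ((Module.finrank ℤ (𝓞 K) : ℝ) * Real.sqrt T) * (2 * (T : ℝ) ^ η * Real.log T) := mul_le_mul_of_nonneg_right e2 (by positivity)
        _ = _ := by ring
  rw [hdeg1]
  have hfin := hT₀ T (by omega)
  have habs := abs_add_le (∑ v ∈ (VT K T).filter (fun v => (Ideal.absNorm v.asIdeal).Prime), w v * ((F0 e v (cf ω m) - 1) * Real.log (Ideal.absNorm v.asIdeal)))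
    (∑ v ∈ (VT K T).filter (fun v => (Ideal.absNorm v.asIdeal).Prime), w v * ((F1 e η v (cf ω m) - 0) * Real.log (Ideal.absNorm v.asIdeal)))
  have habs2 := abs_add_le (∑ v ∈ (VT K T).filter (fun v => (Ideal.absNorm v.asIdeal).Prime), w v * ((F0 e v (cf ω m) - 1) * Real.log (Ideal.absNorm v.asIdeal)) +
    ∑ v ∈ (VT K T).filter (fun v => (Ideal.absNorm v.asIdeal).Prime), w v * ((F1 e η v (cf ω m) - 0) * Real.log (Ideal.absNorm v.asIdeal)))
    (∑ v ∈ (VT K T).filter (fun v => ¬ (Ideal.absNorm v.asIdeal).Prime), w v * ((F0 e v (cf ω m) + F1 e η v (cf ω m) - 1) * Real.log (Ideal.absNorm v.asIdeal)))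
  linarith

end

end Pool.Agent.Run7.h823.WF.MW
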