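import Pool.Agent.Run7.h823.WF.MW6
import Pool.Agent.Run7.h823.WF.MT

set_option autoImplicit false

/-!
The first moment of the traces of hypersurfaces over number fields, at the members of families of vectors of residues with
small Fourier coefficients.
-/

namespace Pool.Agent.Run7.h823.WF.MW

open Pool.Agent.N647.TS
open Finset NumberField IsDedekindDomain MvPolynomial
open Pool.Agent.N842.HS

/-- large `y` -/
lemma large_y {κ : ℝ} (hκ : 0 < κ) (q₁ : ℕ) : ∃ y₂ : ℕ, ∀ q T : ℕ, q < q₁ → y₂ ≤ T → ¬ (T : ℝ) ≤ (q : ℝ) ^ κ := by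
  obtain ⟨y₂, hy₂⟩ := exists_nat_gt ((q₁ : ℝ) ^ κ)
  refine ⟨y₂, fun q T hq hT h => ?_⟩
  have h2 : (q : ℝ) ^ κ ≤ (q₁ : ℝ) ^ κ := by
    apply Real.rpow_le_rpow (Nat.cast_nonneg _) _ hκ.le
    exact_mod_cast hq.le
  have h3 : (y₂ : ℝ) ≤ T := by exact_mod_cast hT
  linarith

section
variable {K : Type} [Field K] [NumberField K] {N d D : ℕ} (e : Fin D ≃ Mon N d)

open Classical in
/-- **The first moment over all prime ideals, for families of vectors of residues.** -/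
theorem surfR (hN : 2 ≤ N) (hd : 2 ≤ d) (g q : ℕ) (ω : Fin g → 𝓞 K) (hω : (1 : 𝓞 K) ∈ Submodule.span ℤ (Set.range ω)) (hg : 1 ≤ g)
    {β : ℝ} (hβ : 0 < β) (hq : 2 ≤ q) (hq2 : Even q) (hqd : q ≤ d) (δ : ℝ) (hδ : 0 < δ) (A B : ℕ) :
    ∃ κ : ℝ, 0 < κ ∧ ∃ y₀ : ℕ, ∀ y : ℕ, y₀ ≤ y →
    ∀ (τ : Type) (Q : ℕ) [NeZero Q] (s : Finset τ) (z : τ → Fin (D * g) → ZMod Q) (c₀ : Fin (D * g) → ℕ),
    Flat Q ((Q : ℝ) ^ (-β)) s z →
    ∀ W : ℕ → Set (HeightOneSpectrum (𝓞 K) → ℝ), (∀ T, (W T).Finite ∧ (W T).ncard ≤ T ^ B) → (∀ T, ∀ w ∈ W T, ∀ v, |w v| ≤ 1) →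
    ∀ E : (Fin (D * g) → ℕ) → Prop,
    (∀ m : Fin (D * g) → ℕ, (∀ T : ℕ, y ≤ T → (T : ℝ) ≤ (Q : ℝ) ^ κ → ∀ w ∈ W T,
      |∑ v ∈ VT K T, w v * ((F0 e v (cf ω m) + F1 e (1 / (2 * (q - 1))) v (cf ω m) - 1) * Real.log (Ideal.absNorm v.asIdeal))| ≤
        (T : ℝ) ^ (1 / 2 + 1 / (2 * ((q : ℝ) - 1)) + δ)) → E m) →
    ({i : τ | i ∈ s ∧ ¬ E (fun j => c₀ j + (z i j).val)}.ncard : ℝ) ≤ 1 / (y : ℝ) ^ A * s.card := by
  obtain ⟨κw, hκw, q₁, h₁⟩ := MT.conv_gen (D * g) hβ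
  obtain ⟨κ, hκ, y₁, h₂⟩ := surfT e hN hd g q ω hω hg hκw hq hq2 hqd δ hδ A B
  obtain ⟨y₂, hy₂⟩ := large_y hκ q₁
  refine ⟨κ, hκ, y₁ + y₂, fun y hy τ Q _ s z c₀ hf W hW hW1 E hE => ?_⟩
  rcases s.eq_empty_or_nonempty with hs | hs
  · have : {i : τ | i ∈ s ∧ ¬ E (fun j => c₀ j + (z i j).val)} = ∅ := by
      ext i
      simp [hs]
    rw [this, Set.ncard_empty, Nat.cast_zero]
    positivity
  by_cases hQ : q₁ ≤ Q
  · obtain ⟨S, vv, hx1, hx2, hx3⟩ := h₁ τ Q hQ s z c₀ hs hf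
    rw [← hx3 E, ← hx2]
    exact h₂ y Q (by omega) S vv hx1 W hW hW1 E hE
  · have hall : ∀ m, E m := fun m => hE m fun T hyT hTQ => absurd hTQ (hy₂ Q T (by omega) (by omega))
    have : {i : τ | i ∈ s ∧ ¬ E (fun j => c₀ j + (z i j).val)} = ∅ := by
      rw [Set.eq_empty_iff_forall_notMem]
      rintro i ⟨_, hi⟩
      exact hi (hall _)
    rw [this, Set.ncard_empty, Nat.cast_zero]
    positivity

end

end Pool.Agent.Run7.h823.WF.MW
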