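import Pool.Agent.N84.TS.Union
import Pool.Agent.TH838.DS.QSieve
import Pool.Agent.Run7.h823.WF.D

set_option autoImplicit false

/-!
(The first parts are copies of parts of `Pool.Agent.N84.TS.Gen` and `Pool.Agent.N84.TS.Quad` of helper84, with fewer
imports.)

Tuples of quadratic rational functions whose coefficients run through families of vectors of residues with small Fourier
coefficients.
-/

namespace Pool.Agent.Run7.h823.WF.Quad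

open Filter Pool.Agent.TH838.DS Pool.Agent.TH838.SK Pool.Agent.H684R3.Smo Pool.Agent.N666.TM Pool.Agent.Y722.HS
  Pool.Agent.R851.SK Pool.Agent.N84.TS

open Classical in
/-- For all but the proportion `N ^ (-δ)` of the members of `S N` the vector lies in one of the sets
`G p` for some prime `p ≤ (log N) ^ (2 / θ)` of `P`. -/
theorem thin_sieve {ι : Type} [Fintype ι] [DecidableEq ι] (P : ℕ → Prop)
    (G : ∀ p : ℕ, Set (ι → ZMod p)) (κ θ : ℝ) (hκ : 0 < κ) (hθ : 0 < θ)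
    (hG : ∀ p, P p → p.Prime ∧ κ * (p : ℝ) ^ (Fintype.card ι) ≤ (Nat.card (G p) : ℝ))
    (hN : ∃ y₀ : ℕ, ∀ y : ℕ, y₀ ≤ y → (y : ℝ) ^ θ ≤ (Nat.card {p : ℕ // P p ∧ p ≤ y} : ℝ))
    (κ' : ℝ) (hκ' : 0 < κ') : ∃ δ : ℝ, 0 < δ ∧ ∀ (S : ℕ → Finset ℕ) (x : ℕ → ι → ℤ),
      (∃ N₀ : ℕ, ∀ N : ℕ, N₀ ≤ N → ∀ H : ℕ, (H : ℝ) ≤ (N : ℝ) ^ κ' → Well (S N) x H) →
      ∃ N₀ : ℕ, ∀ N : ℕ, N₀ ≤ N →
        (((S N).filter fun n => ∀ p, P p → (p : ℝ) ≤ Real.log N ^ (2 / θ) →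
          red p (x n) ∉ G p).card : ℝ) ≤ (N : ℝ) ^ (-δ) * (S N).card := by
  obtain ⟨δ, hδ, H₀, h⟩ := t5w t2 ι P κ θ 0 hκ hθ le_rfl hN
  set κ₁ : ℝ := min κ' 1 with hκ₁
  have hκ₁0 : 0 < κ₁ := lt_min hκ' one_pos
  refine ⟨κ₁ / 2 * δ, by positivity, fun S x hw => ?_⟩
  obtain ⟨N₁, hN₁⟩ := hw
  have hev : ∀ᶠ N : ℕ in atTop, (H₀ : ℝ) + 3 ≤ (N : ℝ) ^ (κ₁ / 2) := by
    have h1 : Tendsto (fun N : ℕ => (N : ℝ) ^ (κ₁ / 2)) atTop atTop :=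
      (tendsto_rpow_atTop (by positivity)).comp tendsto_natCast_atTop_atTop
    exact h1.eventually_ge_atTop _
  obtain ⟨N₂, hN₂⟩ := eventually_atTop.mp hev
  refine ⟨max N₁ (max N₂ 1), fun N hN => ?_⟩
  have hNN1 : N₁ ≤ N := (le_max_left _ _).trans hN
  have hNN2 : N₂ ≤ N := (le_max_left _ _).trans ((le_max_right _ _).trans hN)
  have hN1 : 1 ≤ N := (le_max_right _ _).trans ((le_max_right _ _).trans hN)
  have hNr : (1 : ℝ) ≤ N := by exact_mod_cast hN1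
  have hN0 : (0 : ℝ) < N := by linarith
  set y : ℝ := (N : ℝ) ^ (κ₁ / 2) with hy
  have hyy : (N : ℝ) ^ κ₁ = y * y := by
    rw [hy, ← Real.rpow_add hN0]; congr 1; ring
  have hy3 : (H₀ : ℝ) + 3 ≤ y := hN₂ N hNN2
  have hH0r : (0 : ℝ) ≤ H₀ := Nat.cast_nonneg _
  set H : ℕ := ⌊(N : ℝ) ^ κ₁⌋₊ with hH
  have hHle : (H : ℝ) ≤ (N : ℝ) ^ κ₁ := Nat.floor_le (by positivity)
  have hHge : y ≤ (H : ℝ) := by
    have h1 : (N : ℝ) ^ κ₁ < H + 1 := Nat.lt_floor_add_one _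
    rw [hyy] at h1
    nlinarith
  have hHH₀ : H₀ ≤ H := by
    have : (H₀ : ℝ) ≤ H := by linarith
    exact_mod_cast this
  have hHκ : (H : ℝ) ≤ (N : ℝ) ^ κ' :=
    hHle.trans (Real.rpow_le_rpow_of_exponent_le hNr (min_le_left _ _))
  have hHN : (H : ℝ) ≤ N := by
    have h1 : (N : ℝ) ^ κ₁ ≤ (N : ℝ) ^ (1 : ℝ) :=
      Real.rpow_le_rpow_of_exponent_le hNr (min_le_right _ _)
    rw [Real.rpow_one] at h1
    exact hHle.trans h1
  have hH1 : (1 : ℝ) ≤ H := by linarith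
  have hH0 : (0 : ℝ) < H := by linarith
  have hX : (N : ℝ) ^ (κ₁ / 2 * δ) ≤ (H : ℝ) ^ δ := by
    rw [Real.rpow_mul hN0.le]
    exact Real.rpow_le_rpow (by positivity) hHge hδ.le
  have hX' : (H : ℝ) ^ (-δ) ≤ (N : ℝ) ^ (-(κ₁ / 2 * δ)) := by
    rw [Real.rpow_neg hH0.le, Real.rpow_neg hN0.le]
    exact inv_anti₀ (by positivity) hX
  have hlog : Real.log H ^ (2 / θ) ≤ Real.log N ^ (2 / θ) :=
    Real.rpow_le_rpow (Real.log_nonneg hH1) (Real.log_le_log hH0 hHN) (by positivity)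
  have h1 := h H hHH₀ ∅ (by simp) G (fun p hp _ => hG p hp) (S N) x (hN₁ N hNN1 H hHκ)
  have h2 : (((S N).filter fun n => ∀ p, P p → (p : ℝ) ≤ Real.log N ^ (2 / θ) →
      red p (x n) ∉ G p).card : ℝ) ≤
      (((S N).filter fun n => ∀ p, P p → p ∉ (∅ : Finset ℕ) → (p : ℝ) ≤ Real.log H ^ (2 / θ) →
        red p (x n) ∉ G p).card : ℝ) := by
    apply Nat.cast_le.2
    apply Finset.card_le_card
    intro n hn
    rw [Finset.mem_filter] at hn ⊢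
    exact ⟨hn.1, fun p hp _ hpH => hn.2 p hp (hpH.trans hlog)⟩
  refine h2.trans (h1.trans ?_)
  rw [mul_comm]
  exact mul_le_mul_of_nonneg_right hX' (Nat.cast_nonneg _)

/-- the good tuples of integral quadratic functions -/
def GoodQ (k : ℕ) (v : Fin k × Fin 2 × Fin (2 + 1) → ℤ) : Prop :=
  ∃ (p : ℕ) (_ : Fact p.Prime), p ≠ 2 ∧
    GoodT fun (i : Fin k) (q : Fin 2 × Fin (2 + 1)) => ((v (i, q) : ℤ) : ZMod p)

theorem quad_sieve (k : ℕ) (hk : 1 ≤ k) (κ' : ℝ) (hκ' : 0 < κ') : ∃ δ : ℝ, 0 < δ ∧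
    ∀ (S : ℕ → Finset ℕ) (x : ℕ → (Fin k × Fin 2 × Fin (2 + 1)) → ℤ),
      (∃ N₀ : ℕ, ∀ N : ℕ, N₀ ≤ N → ∀ H : ℕ, (H : ℝ) ≤ (N : ℝ) ^ κ' → Well (S N) x H) →
      ∃ N₀ : ℕ, ∀ N : ℕ, N₀ ≤ N →
        ({t : ℕ | t ∈ S N ∧ t ∈ {t | ¬ GoodQ k (x t)}}.ncard : ℝ) ≤
          (N : ℝ) ^ (-δ) * (S N).card := by
  classical
  have hne : Nonempty (Fin k) := ⟨⟨0, hk⟩⟩
  have hcard : Fintype.card (Fin k × Fin 2 × Fin (2 + 1)) = 6 * k := by
    rw [Fintype.card_prod, Fintype.card_prod, Fintype.card_fin, Fintype.card_fin,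
      Fintype.card_fin]
    ring
  let P : ℕ → Prop := fun p => p.Prime ∧ 2 * 16 ^ k ≤ p
  let G : ∀ p : ℕ, Set ((Fin k × Fin 2 × Fin (2 + 1)) → ZMod p) := fun p =>
    {w | ∃ _ : Fact p.Prime, GoodT fun (i : Fin k) (q : Fin 2 × Fin (2 + 1)) => w (i, q)}
  set κ : ℝ := 1 / (2 * 4 ^ k * 16 ^ (k * k)) with hκ
  have hκ0 : 0 < κ := by positivity
  have hG : ∀ p, P p → p.Prime ∧
      κ * (p : ℝ) ^ Fintype.card (Fin k × Fin 2 × Fin (2 + 1)) ≤ (Nat.card (G p) : ℝ) := by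
    intro p hp
    have hpp : Fact p.Prime := ⟨hp.1⟩
    refine ⟨hp.1, ?_⟩
    have h1 := count_good (p := p) (ι := Fin k) (by rw [Fintype.card_fin]; exact hp.2)
    rw [Fintype.card_fin] at h1
    rw [hcard]
    refine h1.trans (le_of_eq ?_)
    congr 1
    let E : (Fin k → Fin 2 × Fin (2 + 1) → ZMod p) ≃ ((Fin k × Fin 2 × Fin (2 + 1)) → ZMod p) :=
      { toFun := fun c j => c j.1 j.2
        invFun := fun w i q => w (i, q)
        left_inv := fun c => rfl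
        right_inv := fun w => rfl }
    refine Nat.card_congr (E.subtypeEquiv fun c => ?_)
    constructor
    · intro h
      exact ⟨hpp, h⟩
    · rintro ⟨_, h⟩
      exact h
  obtain ⟨δ, hδ, h⟩ := thin_sieve P G κ (1 / 2) hκ0 (by norm_num) hG
    (t9 (1 / 2) (2 * 16 ^ k) (by norm_num)) κ' hκ'
  refine ⟨δ, hδ, fun S x hw => ?_⟩
  obtain ⟨N₀, hN₀⟩ := h S x hw
  refine ⟨N₀, fun N hN => le_trans ?_ (hN₀ N hN)⟩
  have hsub : {t : ℕ | t ∈ S N ∧ t ∈ {t | ¬ GoodQ k (x t)}} ⊆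
      ↑((S N).filter fun n => ∀ p, P p → (p : ℝ) ≤ Real.log N ^ (2 / (1 / 2 : ℝ)) →
        red p (x n) ∉ G p) := by
    rintro n ⟨hn, hn'⟩
    rw [Finset.mem_coe, Finset.mem_filter]
    refine ⟨hn, fun p hp _ hG' => hn' ?_⟩
    obtain ⟨hpp, h⟩ := hG'
    refine ⟨p, hpp, ?_, h⟩
    have h1 : 16 ^ 1 ≤ 16 ^ k := Nat.pow_le_pow_right (by norm_num) hk
    have h2 := hp.2
    omega
  have h2 := Set.ncard_le_ncard hsub (Finset.finite_toSet _)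
  rw [Set.ncard_coe_finset] at h2
  exact_mod_cast h2

/-- families of vectors of residues with small Fourier coefficients -/
theorem residues (k : ℕ) (hk : 1 ≤ k) {β : ℝ} (hβ : 0 < β) : ∃ δ : ℝ, 0 < δ ∧ ∃ q₀ : ℕ,
    ∀ (τ : Type) (q : ℕ) [NeZero q], q₀ ≤ q → ∀ (s : Finset τ) (y : τ → (Fin k × Fin 2 × Fin (2 + 1)) → ZMod q)
      (c₀ : (Fin k × Fin 2 × Fin (2 + 1)) → ℤ), Flat q ((q : ℝ) ^ (-β)) s y →
      ({i : τ | i ∈ s ∧ ¬ GoodQ k (fun j => c₀ j + ((y i j).val : ℕ))}.ncard : ℝ) ≤ (q : ℝ) ^ (-δ) * s.card := by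
  obtain ⟨η, hη, q₀, h⟩ := transferP (ι := Fin k × Fin 2 × Fin (2 + 1)) hβ (fun _ _ v => GoodQ k v)
    (fun _ _ _ _ _ _ hP => hP) (fun _ _ => True) (fun _ _ _ => trivial) (fun S x κ hκ hw _ => by
      obtain ⟨δ, hδ, h⟩ := quad_sieve k hk κ hκ
      exact ⟨δ, hδ, h S x hw⟩)
  exact ⟨η, hη, q₀, fun τ q _ hq s y c₀ hf => h τ q hq s y c₀ hf fun _ _ => trivial⟩

end Pool.Agent.Run7.h823.WF.Quad
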