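import Pool.Agent.Run7.h823.WF.Quad
import Pool.Agent.Results.MP_295d38_ag.QuadraticLinePowers
import Pool.Agent.Results.MP_b15c9e_ag.SymmetricPowers

set_option autoImplicit false

/-!
(This file is a copy of `Pool.Agent.N84.TS.Word` of helper84, with fewer imports.)

Symmetric powers of compositions of good tuples of quadratic rational functions.
-/

namespace Pool.Agent.Run7.h823.WF.Quad

open MvPolynomial Pool.Agent.TH838.DS
open Pool.Agent.Results.MP_b15c9e_ag.SymmetricPowers (symPoint IsEndo DML ratMap symPoint_eq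
  eval_bind form_scale pull eval_pull)
open Pool.Agent.Results.MP_295d38_ag.QuadraticLinePowers (qmap)

/-- the composition `f_(w_1) ∘ ... ∘ f_(w_m)` -/
noncomputable def word {k : ℕ} (v : Fin k × Fin 2 × Fin 3 → ℤ) :
    List (Fin k) → (Fin 2 → ℂ) → Fin 2 → ℂ
  | [] => fun y => y
  | i :: w => fun y => ratMap (fun q => v (i, q)) (word v w y)

/-- `Φ` is the `N`-th symmetric power of `g`. -/
def IsSymPower {N : ℕ} (g : (Fin 2 → ℂ) → Fin 2 → ℂ)
    (Φ : Fin (N + 1) → MvPolynomial (Fin (N + 1)) ℂ) : Prop :=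
  ∀ x : Fin N → Fin 2 → ℂ, (fun j => eval (symPoint x) (Φ j)) = symPoint fun i => g (x i)

theorem exists_phi {k : ℕ} (v : Fin k × Fin 2 × Fin (2 + 1) → ℤ) (hv : GoodQ k v) (N : ℕ)
    (hN : 1 ≤ N) (w : List (Fin k)) :
    ∃ Φ : Fin (N + 1) → MvPolynomial (Fin (N + 1)) ℂ,
      IsEndo (2 ^ w.length) Φ ∧ IsSymPower (word v w) Φ := by
  obtain ⟨p, hp, hp2, A, x, hc, hA, hx, hU⟩ := hv
  induction w with
  | nil =>
    refine ⟨fun j => X j, ⟨fun i => ?_, fun x hx => ?_⟩, fun x => ?_⟩
    · simpa using isHomogeneous_X ℂ i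
    · funext i
      have := hx i
      rwa [eval_X] at this
    · funext j
      rw [eval_X]
      rfl
  | cons i w ih =>
    obtain ⟨Φ, ⟨h1, h2⟩, h3⟩ := ih
    obtain ⟨F, ⟨f1, f2⟩, f3, -⟩ :=
      Pool.Agent.Results.MP_b15c9e_ag.SymmetricPowers.main (fun q => v (i, q))
        ⟨p, hp, hp2, fun _ => A i, fun _ => x i, fun _ => hc i, fun _ => hA i, fun _ => hx i,
          fun _ _ m => hU i i m⟩ N hN
    refine ⟨fun j => aeval Φ (F j), ⟨fun j => ?_, fun x hx => ?_⟩, fun x => ?_⟩
    · have h4 := (f1 j).aeval (g := Φ) (n := 2 ^ w.length) h1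
      rw [List.length_cons, pow_succ]
      exact h4
    · apply h2
      intro l
      have h5 := f2 (fun l => eval x (Φ l)) (fun j => by
        have := hx j
        rwa [eval_bind] at this)
      exact congrFun h5 l
    · have e1 : (fun j => eval (symPoint x) (aeval Φ (F j))) =
          fun j => eval (fun l => eval (symPoint x) (Φ l)) (F j) := by
        funext j
        rw [eval_bind]
      rw [e1, h3 x, f3 fun i => word v w (x i)]
      rfl

theorem fuap_mul (T : Finset (ℕ × ℕ)) (m : ℕ) (hm : 0 < m) :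
    ∃ T' : Finset (ℕ × ℕ), {n : ℕ | ∃ q ∈ T, ∃ c : ℕ, m * n = q.1 * c + q.2} =
      {n : ℕ | ∃ q ∈ T', ∃ c : ℕ, n = q.1 * c + q.2} := by
  classical
  set A : ℕ → Prop := fun n => ∃ q ∈ T, ∃ c : ℕ, n = q.1 * c + q.2 with hA
  set P : ℕ := ∏ q ∈ T, max q.1 1 with hP
  set B : ℕ := T.sup (fun q => q.2) with hB
  have hP0 : 0 < P := Finset.prod_pos fun q _ => by omega
  have hstep : ∀ n, B + 1 ≤ n → (A n ↔ A (n + P)) := by
    intro n hn
    constructor
    · rintro ⟨q, hq, c, rfl⟩
      have h1 : q.2 ≤ B := Finset.le_sup (f := fun q : ℕ × ℕ => q.2) hq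
      obtain ⟨P', hP'⟩ : max q.1 1 ∣ P := Finset.dvd_prod_of_mem _ hq
      have h2 : q.1 ≠ 0 := by
        intro h0
        rw [h0, zero_mul] at hn
        omega
      have h3 : max q.1 1 = q.1 := by omega
      rw [h3] at hP'
      refine ⟨q, hq, c + P', ?_⟩
      rw [hP']
      ring
    · rintro ⟨q, hq, c, hc⟩
      have h1 : q.2 ≤ B := Finset.le_sup (f := fun q : ℕ × ℕ => q.2) hq
      obtain ⟨P', hP'⟩ : max q.1 1 ∣ P := Finset.dvd_prod_of_mem _ hq
      have h2 : q.1 ≠ 0 := by
        intro h0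
        rw [h0, zero_mul] at hc
        omega
      have h3 : max q.1 1 = q.1 := by omega
      rw [h3] at hP'
      have h4 : P' ≤ c := by
        by_contra hcon
        have h5 : q.1 * c ≤ q.1 * P' := Nat.mul_le_mul_left _ (by omega)
        omega
      obtain ⟨c', rfl⟩ := Nat.exists_eq_add_of_le h4
      refine ⟨q, hq, c', ?_⟩
      have h6 : q.1 * (P' + c') = P + q.1 * c' := by
        rw [hP']
        ring
      omega
  have hstep' : ∀ j n, B + 1 ≤ n → (A n ↔ A (n + j * P)) := by
    intro j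
    induction j with
    | zero => intro n _; simp
    | succ j ih =>
      intro n hn
      rw [ih n hn, hstep (n + j * P) (by omega)]
      have e : n + j * P + P = n + (j + 1) * P := by ring
      rw [e]
  have hper : ∀ j n, B + 1 ≤ n → (A (m * n) ↔ A (m * (n + j * P))) := by
    intro j n hn
    rw [hstep' (m * j) (m * n) (by nlinarith)]
    have e : m * n + m * j * P = m * (n + j * P) := by ring
    rw [e]
  refine ⟨((Finset.range (B + 1)).filter fun n => A (m * n)).image (fun n => (0, n)) ∪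
    ((Finset.Ico (B + 1) (B + 1 + P)).filter fun n => A (m * n)).image (fun n => (P, n)), ?_⟩
  ext n
  simp only [Set.mem_ofPred_eq, Finset.mem_union, Finset.mem_image, Finset.mem_filter,
    Finset.mem_range, Finset.mem_Ico]
  constructor
  · intro hn
    have hn' : A (m * n) := hn
    by_cases h : n < B + 1
    · exact ⟨(0, n), Or.inl ⟨n, ⟨h, hn'⟩, rfl⟩, 0, by simp⟩
    · have h1 := Nat.div_add_mod (n - (B + 1)) P
      have h2 := Nat.mod_lt (n - (B + 1)) hP0
      refine ⟨(P, B + 1 + (n - (B + 1)) % P), Or.inr ⟨B + 1 + (n - (B + 1)) % P,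
        ⟨⟨by omega, by omega⟩, ?_⟩, rfl⟩, (n - (B + 1)) / P, ?_⟩
      · rw [hper ((n - (B + 1)) / P) _ (by omega)]
        have e : B + 1 + (n - (B + 1)) % P + (n - (B + 1)) / P * P = n := by
          rw [Nat.mul_comm ((n - (B + 1)) / P) P]
          omega
        rw [e]
        exact hn'
      · simp only
        omega
  · rintro ⟨q, hq | hq, c, hc⟩
    · obtain ⟨n', ⟨_, hn'⟩, rfl⟩ := hq
      simp only [zero_mul, zero_add] at hc
      rw [hc]
      exact hn'
    · obtain ⟨n', ⟨⟨h1, _⟩, hn'⟩, rfl⟩ := hq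
      simp only at hc
      rw [hper c n' h1] at hn'
      have e : n' + c * P = n := by rw [hc]; ring
      rw [e] at hn'
      exact hn'

section

variable {k N m : ℕ} (hm : 0 < m) (v : Fin k × Fin 2 × Fin (2 + 1) → ℤ) (w : Fin m → Fin k)

def tau (q : Fin (N * m)) : Fin k := w (finProdFinEquiv.symm q).2

def sig (q : Fin (N * m)) : Fin (N * m) :=
  finProdFinEquiv ((finProdFinEquiv.symm q).1,
    ⟨((finProdFinEquiv.symm q).2 + 1 : ℕ) % m, Nat.mod_lt _ hm⟩)

/-- the periodic extension -/
def per (n : ℕ) : Fin k := w ⟨n % m, Nat.mod_lt _ hm⟩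

theorem iter_key (α : Fin (N * m) × Fin 2 → ℂ) (s : ℕ) (i : Fin N) (n : ℕ) :
    (fun l => (qmap (tau w) (sig hm) v)^[s] α
      (finProdFinEquiv (i, ⟨n % m, Nat.mod_lt _ hm⟩), l)) =
      word v ((List.range s).map fun t => per hm w (n + t))
        (fun l => α (finProdFinEquiv (i, ⟨(n + s) % m, Nat.mod_lt _ hm⟩), l)) := by
  induction s generalizing n with
  | zero => rfl
  | succ s ih =>
    funext l
    rw [Function.iterate_succ_apply', List.range_succ_eq_map, List.map_cons, List.map_map]
    have h1 := ih (n + 1)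
    have e1 : ((fun t => per hm w (n + t)) ∘ Nat.succ) = fun t => per hm w (n + 1 + t) := by
      funext t
      simp only [Function.comp]
      congr 1
      omega
    have e2 : (⟨(n + 1 + s) % m, Nat.mod_lt _ hm⟩ : Fin m) =
        ⟨(n + (s + 1)) % m, Nat.mod_lt _ hm⟩ := by
      apply Fin.ext
      simp only
      congr 1
      omega
    rw [e1]
    rw [e2] at h1
    simp only [word]
    rw [← h1]
    have e3 : sig (N := N) hm (finProdFinEquiv (i, ⟨n % m, Nat.mod_lt _ hm⟩)) =
        finProdFinEquiv (i, ⟨(n + 1) % m, Nat.mod_lt _ hm⟩) := by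
      simp only [sig, Equiv.symm_apply_apply, Nat.mod_add_mod]
    have e4 : tau (N := N) w (finProdFinEquiv (i, ⟨n % m, Nat.mod_lt _ hm⟩)) =
        per hm w (n + 0) := by
      simp only [tau, per, Equiv.symm_apply_apply, Nat.add_zero]
    simp only [qmap, ratMap]
    rw [e3, e4]

end

theorem map_per {k : ℕ} (w : List (Fin k)) (hm : 0 < w.length) :
    ((List.range w.length).map fun t => per hm (fun j : Fin w.length => w.get j) (0 + t)) = w := by
  apply List.ext_getElem
  · simp
  · intro n h1 h2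
    simp only [List.getElem_map, List.getElem_range, per, List.get_eq_getElem, zero_add]
    congr 1
    exact Nat.mod_eq_of_lt h2

theorem dml_word {k N : ℕ} (hN : 1 ≤ N) (v : Fin k × Fin 2 × Fin (2 + 1) → ℤ) (hv : GoodQ k v)
    (w : List (Fin k)) (hw : w ≠ []) (Φ : Fin (N + 1) → MvPolynomial (Fin (N + 1)) ℂ)
    (hΦ : IsSymPower (word v w) Φ) : DML Φ := by
  classical
  intro S hS a ha
  obtain ⟨y, hy, rfl⟩ := Sy.exists_form N hN a ha
  have hm : 0 < w.length := List.length_pos_iff.mpr hw
  set m := w.length with hmdef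
  set z0 : Fin m := ⟨0 % m, Nat.mod_lt _ hm⟩ with hz0
  set ww : Fin m → Fin k := fun j => w.get j with hww
  set Q := qmap (tau (N := N) ww) (sig hm) v with hQ
  have hD := (Pool.Agent.Results.MP_295d38_ag.QuadraticLinePowers.main v hv
    (tau (N := N) ww) (sig hm)).2
  set α : Fin (N * m) × Fin 2 → ℂ := fun q => y (finProdFinEquiv.symm q.1).1 q.2 with hα
  have hα0 : ∀ i, ¬ (α (i, 0) = 0 ∧ α (i, 1) = 0) := by
    intro i hi
    apply hy (finProdFinEquiv.symm i).1
    funext l
    fin_cases l
    · exact hi.1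
    · exact hi.2
  -- one step
  have hone : ∀ (β : Fin (N * m) × Fin 2 → ℂ) (i : Fin N),
      (fun l => Q^[m] β (finProdFinEquiv (i, z0), l)) =
        word v w (fun l => β (finProdFinEquiv (i, z0), l)) := by
    intro β i
    have h1 := iter_key hm v ww β m i 0
    have e1 : (⟨(0 + m) % m, Nat.mod_lt _ hm⟩ : Fin m) = z0 := by
      apply Fin.ext
      simp [hz0]
    rw [e1] at h1
    have e2 := map_per w hm
    rw [h1]
    exact congrArg (fun u => word v u (fun l => β (finProdFinEquiv (i, z0), l))) e2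
  have hit : ∀ (n : ℕ) (i : Fin N),
      (fun l => (Q^[m])^[n] α (finProdFinEquiv (i, z0), l)) = (word v w)^[n] (y i) := by
    intro n
    induction n with
    | zero =>
      intro i
      funext l
      simp only [Function.iterate_zero, id, hα, Equiv.symm_apply_apply]
    | succ n ih =>
      intro i
      rw [Function.iterate_succ_apply', Function.iterate_succ_apply', hone, ih i]
  have hph : ∀ n : ℕ, (fun x : Fin (N + 1) → ℂ => fun i => eval x (Φ i))^[n] (Sy.form y) =
      Sy.form fun i => (word v w)^[n] (y i) := by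
    intro n
    induction n with
    | zero => rfl
    | succ n ih =>
      rw [Function.iterate_succ_apply', ih]
      have h1 := hΦ fun i => (word v w)^[n] (y i)
      rw [symPoint_eq, symPoint_eq] at h1
      rw [h1]
      simp only [Function.iterate_succ_apply']
  -- the equations
  let pl : MvPolynomial (Fin (N + 1)) ℂ → MvPolynomial (Fin (N * m) × Fin 2) ℂ := fun g =>
    rename (fun q : Fin N × Fin 2 => ((finProdFinEquiv (q.1, z0) : Fin (N * m)), q.2)) (pull g)
  have hpl : ∀ g x, eval x (pl g) =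
      eval (Sy.form fun (i : Fin N) (l : Fin 2) => x (finProdFinEquiv (i, z0), l)) g := by
    intro g x
    simp only [pl]
    rw [eval_rename, eval_pull]
    rfl
  have hmh : ∀ g (e : ℕ), g.IsHomogeneous e →
      Pool.Agent.Results.MP_295d38_ag.QuadraticLinePowers.MultiHom (pl g) := by
    intro g e he
    refine ⟨fun q => if (finProdFinEquiv.symm q).2 = z0 then e else 0, fun t x => ?_⟩
    rw [hpl, hpl]
    have h1 := form_scale (fun i : Fin N => t (finProdFinEquiv (i, z0)))
      fun i l => x (finProdFinEquiv (i, z0), l)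
    rw [h1, Pool.Agent.H936R2.eval_scale g e he]
    congr 1
    rw [← Finset.prod_pow, ← Equiv.prod_comp finProdFinEquiv, Fintype.prod_prod_type]
    refine Finset.prod_congr rfl fun i _ => ?_
    rw [Finset.prod_eq_single z0]
    · simp only [Equiv.symm_apply_apply, if_true]
    · intro j _ hj
      simp only [Equiv.symm_apply_apply, if_neg hj, pow_zero]
    · intro h
      exact absurd (Finset.mem_univ _) h
  obtain ⟨T, hT⟩ := hD α hα0 (pl '' S) (by
    rintro _ ⟨g, hg, rfl⟩
    obtain ⟨e, he⟩ := hS g hg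
    exact hmh g e he)
  obtain ⟨T', hT'⟩ := fuap_mul T m hm
  refine ⟨T', ?_⟩
  rw [← hT']
  ext n
  have h3 : (∃ q ∈ T, ∃ c : ℕ, m * n = q.1 * c + q.2) ↔
      m * n ∈ {k : ℕ | ∀ g ∈ pl '' S, eval (Q^[k] α) g = 0} := by
    rw [hT]
    rfl
  rw [Set.mem_ofPred_eq, Set.mem_ofPred_eq, h3, Set.mem_ofPred_eq, Set.forall_mem_image]
  apply forall₂_congr
  intro g _
  have h6 : (fun (i : Fin N) (l : Fin 2) => Q^[m * n] α (finProdFinEquiv (i, z0), l)) =
      fun i => (word v w)^[n] (y i) := by
    funext i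
    rw [Function.iterate_mul]
    exact hit n i
  rw [hph n, hpl, h6]

end Pool.Agent.Run7.h823.WF.Quad
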